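import Pool.Agent.Lib_MP_1209e6_st.Defs

/-! PIECE ANA: analytic and continuous dependence of complex points on the parameters. -/

set_option autoImplicit false

open Filter Topology Pool.Agent.CampanaFlow Pool.Agent.CampanaB

namespace Pool.Agent.Strip

variable {S : Type} [CommRing S] [Algebra ℂ S]

/-- growth of the values of the words at a point -/
def AnaGr {κ : Type} (d : κ → Derivation ℂ S S) {A : Type} [NormedCommRing A] [NormedAlgebra ℂ A]
    (q : S →ₐ[ℂ] A) (K : ℝ) (C : S → ℝ) : Prop :=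
  ∀ f (l : List κ), ‖q (word d l f)‖ ≤ C f * l.length.factorial * K ^ l.length

theorem ana_word_replicate {κ : Type} (d : κ → Derivation ℂ S S) (i : κ) (n : ℕ) (l : List κ) (f : S) :
    word d (List.replicate n i ++ l) f = (d i)^[n] (word d l f) := by
  induction n with
  | zero => rfl
  | succ n ih =>
    rw [List.replicate_succ, List.cons_append, word, ih, Function.iterate_succ_apply']

section step

variable {κ : Type} {d : κ → Derivation ℂ S S} {A : Type} [NormedCommRing A] [NormedAlgebra ℂ A]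
variable {q : S →ₐ[ℂ] A} {K : ℝ} {C : S → ℝ}

theorem AnaGr.term (h : AnaGr d q K C) (i : κ) (l : List κ) (f : S) (n : ℕ) (z : A) :
    ‖tcW (d i) q (word d l f) n‖ * ‖z‖ ^ n ≤ C f * l.length.factorial * K ^ l.length *
      (((n + l.length).choose l.length : ℕ) * (K * ‖z‖) ^ n) := by
  have h1 := h f (List.replicate n i ++ l)
  rw [ana_word_replicate, List.length_append, List.length_replicate] at h1
  have h2 : ((n + l.length).factorial : ℝ) =
      ((n + l.length).choose l.length : ℕ) * (n.factorial * l.length.factorial) := by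
    have h3 := Nat.add_choose_mul_factorial_mul_factorial n l.length
    rw [← h3]
    push_cast
    ring
  have hn : (0 : ℝ) < n.factorial := by exact_mod_cast n.factorial_pos
  unfold tcW
  rw [norm_smul, norm_inv, Complex.norm_natCast, mul_pow]
  rw [h2] at h1
  have h4 : (n.factorial : ℝ)⁻¹ * ‖q ((d i)^[n] (word d l f))‖ ≤
      (n.factorial : ℝ)⁻¹ * (C f * (((n + l.length).choose l.length : ℕ) *
        (n.factorial * l.length.factorial)) * K ^ (n + l.length)) :=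
    mul_le_mul_of_nonneg_left h1 (by positivity)
  refine (mul_le_mul_of_nonneg_right h4 (by positivity)).trans (le_of_eq ?_)
  rw [pow_add]
  field_simp

omit [CommRing S] [Algebra ℂ S] [NormedAlgebra ℂ A] in
theorem ana_hasSum (C : S → ℝ) (hK : 0 ≤ K) (l : List κ) (f : S) (z : A)
    (hz : K * ‖z‖ ≤ 1 / 2) : HasSum (fun n : ℕ => C f * l.length.factorial * K ^ l.length *
      (((n + l.length).choose l.length : ℕ) * (K * ‖z‖) ^ n))
      (C f * l.length.factorial * K ^ l.length * (1 / (1 - K * ‖z‖) ^ (l.length + 1))) := by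
  have hr : ‖K * ‖z‖‖ < 1 := by
    rw [Real.norm_of_nonneg (by positivity)]
    linarith
  exact (hasSum_choose_mul_geometric_of_norm_lt_one l.length hr).mul_left _

theorem AnaGr.conv (h : AnaGr d q K C) (hK : 0 ≤ K) (i : κ) (l : List κ) (f : S) (z : A)
    (hz : K * ‖z‖ ≤ 1 / 2) : ConvW (d i) q z (word d l f) :=
  Summable.of_nonneg_of_le (fun n => by positivity) (fun n => h.term i l f n z)
    (ana_hasSum C hK l f z hz).summable

theorem AnaGr.step [NormOneClass A] [CompleteSpace A] (h : AnaGr d q K C) (hK : 0 ≤ K)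
    (hC : ∀ f, 0 ≤ C f) (i : κ) (z : A) (hz : K * ‖z‖ ≤ 1 / 2) :
    IsFlowW (d i) q z (fl (d i) q z) ∧ AnaGr d (fl (d i) q z) (2 * K) (fun f => 2 * C f) := by
  obtain ⟨q', hq'⟩ := exists_isFlowW (D := d i) (q := q) (t := z)
    (fun f => h.conv hK i [] f z hz)
  rw [fl_eq hq']
  refine ⟨hq', fun f l => ?_⟩
  rw [(hq' (word d l f)).2]
  unfold evW
  refine (tsum_of_norm_bounded (ana_hasSum C hK l f z hz)
    (fun n => (norm_term_le n).trans (h.term i l f n z))).trans ?_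
  have h1 : (1 : ℝ) / (1 - K * ‖z‖) ^ (l.length + 1) ≤ 2 ^ (l.length + 1) := by
    rw [div_le_iff₀ (pow_pos (by linarith) _), ← mul_pow]
    exact one_le_pow₀ (by linarith)
  have h2 : 0 ≤ C f * l.length.factorial * K ^ l.length := by
    have := hC f
    positivity
  refine (mul_le_mul_of_nonneg_left h1 h2).trans (le_of_eq ?_)
  rw [mul_pow (2 : ℝ) K, pow_succ]
  ring

end step

section families

variable {κ : Type} {d : κ → Derivation ℂ S S} {K : ℝ} {C : S → ℝ}

theorem ana_term_le {q : S →ₐ[ℂ] ℂ} (h : AnaGr d q K C) (hK : 0 ≤ K) (hC : ∀ f, 0 ≤ C f) (i : κ)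
    (f : S) (n : ℕ) (z : ℂ) (hz : K * ‖z‖ ≤ 1 / 2) :
    ‖tcW (d i) q f n * z ^ n‖ ≤ C f * (1 / 2) ^ n := by
  have h1 := h.term i [] f n z
  simp only [List.length_nil, Nat.factorial_zero, Nat.cast_one, mul_one, pow_zero, add_zero,
    Nat.choose_zero_right, one_mul] at h1
  refine ((norm_term_le n).trans h1).trans ?_
  exact mul_le_mul_of_nonneg_left (pow_le_pow_left₀ (by positivity) hz n) (hC f)

theorem ana_cont {X : Type} [TopologicalSpace X] {V : Set X} (q : X → S →ₐ[ℂ] ℂ) (z : X → ℂ)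
    (hK : 0 ≤ K) (hC : ∀ f, 0 ≤ C f)
    (hG : ∀ x ∈ V, AnaGr d (q x) K C) (hz : ∀ x ∈ V, K * ‖z x‖ ≤ 1 / 2)
    (hq : ∀ f, ContinuousOn (fun x => q x f) V) (hzc : ContinuousOn z V) (i : κ)
    (q' : X → S →ₐ[ℂ] ℂ) (hq' : ∀ x ∈ V, IsFlowW (d i) (q x) (z x) (q' x)) (f : S) :
    ContinuousOn (fun x => q' x f) V := by
  have hu : Summable (fun n : ℕ => C f * (1 / 2 : ℝ) ^ n) :=
    (summable_geometric_of_lt_one (by norm_num) (by norm_num)).mul_left _
  refine (continuousOn_tsum (f := fun n x => tcW (d i) (q x) f n * z x ^ n) (fun n => ?_) hu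
    (fun n x hx => ana_term_le (hG x hx) hK hC i f n (z x) (hz x hx))).congr
    (fun x hx => (hq' x hx f).2)
  exact ((hq ((d i)^[n] f)).const_smul ((n.factorial : ℂ)⁻¹)).mul (hzc.pow n)

theorem ana_diff {U : Set ℂ} (hU : IsOpen U) (q : ℂ → S →ₐ[ℂ] ℂ) (z : ℂ → ℂ)
    (hK : 0 ≤ K) (hC : ∀ f, 0 ≤ C f)
    (hG : ∀ x ∈ U, AnaGr d (q x) K C) (hz : ∀ x ∈ U, K * ‖z x‖ ≤ 1 / 2)
    (hq : ∀ f, DifferentiableOn ℂ (fun x => q x f) U) (hzc : DifferentiableOn ℂ z U) (i : κ)
    (q' : ℂ → S →ₐ[ℂ] ℂ) (hq' : ∀ x ∈ U, IsFlowW (d i) (q x) (z x) (q' x)) (f : S) :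
    DifferentiableOn ℂ (fun x => q' x f) U := by
  have hu : Summable (fun n : ℕ => C f * (1 / 2 : ℝ) ^ n) :=
    (summable_geometric_of_lt_one (by norm_num) (by norm_num)).mul_left _
  refine (Complex.differentiableOn_tsum_of_summable_norm
    (F := fun n x => tcW (d i) (q x) f n * z x ^ n) hu (fun n => ?_) hU
    (fun n x hx => ana_term_le (hG x hx) hK hC i f n (z x) (hz x hx))).congr
    (fun x hx => (hq' x hx f).2)
  exact ((hq ((d i)^[n] f)).const_smul ((n.factorial : ℂ)⁻¹)).mul (hzc.pow n)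

end families

open Classical in
/-- the chain of the points defining `pt` -/
noncomputable def anaQ {A : Type} [NormedCommRing A] [NormedAlgebra ℂ A] {n : ℕ}
    (dy : Fin n → Derivation ℂ S S) (p : S →ₐ[ℂ] ℂ) (a : Fin n → A) : ℕ → S →ₐ[ℂ] A
  | 0 => (Algebra.ofId ℂ A).comp p
  | i + 1 => if h : i < n then fl (dy ⟨i, h⟩) (anaQ dy p a i) (a ⟨i, h⟩) else anaQ dy p a i

theorem anaQ_succ {A : Type} [NormedCommRing A] [NormedAlgebra ℂ A] {n : ℕ}
    (dy : Fin n → Derivation ℂ S S) (p : S →ₐ[ℂ] ℂ) (a : Fin n → A) (i : Fin n) :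
    anaQ dy p a (i + 1) = fl (dy i) (anaQ dy p a i) (a i) := by
  rw [anaQ, dif_pos i.2]

theorem anaQ_gr {ι : Type} (e : ι → Derivation ℂ S S) {n : ℕ}
    (dy : Fin n → Derivation ℂ S S) (p : S →ₐ[ℂ] ℂ) {K : ℝ} {C : S → ℝ} (hK : 0 ≤ K)
    (hC : ∀ f, 0 ≤ C f) (A : Type) [NormedCommRing A] [NormedAlgebra ℂ A] [NormOneClass A]
    [CompleteSpace A]
    (h : AnaGr (Sum.elim dy e) ((Algebra.ofId ℂ A).comp p) K C) {ρ : ℝ} (hρ : 2 ^ n * K * ρ ≤ 1 / 2)
    (a : Fin n → A) (ha : ‖a‖ ≤ ρ) : ∀ i, i ≤ n →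
      AnaGr (Sum.elim dy e) (anaQ dy p a i) (2 ^ i * K) (fun f => 2 ^ i * C f) ∧
      ∀ j : Fin n, j < i → IsFlowW (dy j) (anaQ dy p a j) (a j) (anaQ dy p a (j + 1)) := by
  have hρ0 : 0 ≤ ρ := (norm_nonneg a).trans ha
  intro i
  induction i with
  | zero =>
    intro _
    refine ⟨?_, fun j hj => absurd hj (Nat.not_lt_zero _)⟩
    intro f l
    simpa [anaQ] using h f l
  | succ i ih =>
    intro hi
    obtain ⟨h1, h2⟩ := ih (Nat.le_of_succ_le hi)
    have hz : 2 ^ i * K * ‖a ⟨i, hi⟩‖ ≤ 1 / 2 := by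
      have h3 : ‖a ⟨i, hi⟩‖ ≤ ρ := (norm_le_pi_norm a _).trans ha
      have h4 : (2 : ℝ) ^ i ≤ 2 ^ n := pow_le_pow_right₀ (by norm_num) (Nat.le_of_succ_le hi)
      calc 2 ^ i * K * ‖a ⟨i, hi⟩‖ ≤ 2 ^ n * K * ρ := by gcongr
        _ ≤ 1 / 2 := hρ
    obtain ⟨h5, h6⟩ := h1.step (by positivity) (fun f => by have := hC f; positivity)
      (Sum.inl ⟨i, hi⟩) (a ⟨i, hi⟩) hz
    have h7 := anaQ_succ dy p a ⟨i, hi⟩
    change anaQ dy p a (i + 1) = fl (dy ⟨i, hi⟩) (anaQ dy p a i) (a ⟨i, hi⟩) at h7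
    refine ⟨?_, ?_⟩
    · rw [h7]
      intro f l
      refine (h6 f l).trans (le_of_eq ?_)
      rw [pow_succ]
      ring
    · intro j hj
      rcases Nat.lt_succ_iff_lt_or_eq.1 hj with hj' | hj'
      · exact h2 j hj'
      · obtain rfl : j = ⟨i, hi⟩ := Fin.ext hj'
        change IsFlowW _ (anaQ dy p a i) _ (anaQ dy p a (i + 1))
        rw [h7]
        exact h5

/-- `IsFlowW` with values in `ℂ` is `IsFlow` (both directions in `kc/BFlow.lean`). Continuity on an arbitrary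
set `V` and analyticity on an open set `U`, for points and flows with coordinates `a w` and time
`z w`. `unif_grow` and the uniform convergence of `∑ γ_w (D^n f) z(w)^n / n!`
(`differentiableOn_tsum_of_summable_norm`, `continuousOn_tsum`). Take `ρ` so small that all the flows
exist with room. -/
theorem ana {ι : Type} [Finite ι] (e : ι → Derivation ℂ S S) {n : ℕ}
    (dy : Fin n → Derivation ℂ S S)
    (G : Finset S) (hG : Algebra.adjoin ℂ (G : Set S) = ⊤) (p : S →ₐ[ℂ] ℂ) :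
    ∃ ρ : ℝ, 0 < ρ ∧
      (∀ a : Fin n → ℂ, ‖a‖ ≤ ρ → IsPt dy p a (pt dy p a) ∧ ∀ z : ℂ, ‖z‖ ≤ ρ → ∀ i,
        IsFlowW (e i) (pt dy p a) z (fl (e i) (pt dy p a) z)) ∧
      (∀ f : S, ∃ M : ℝ, ∀ a : Fin n → ℂ, ‖a‖ ≤ ρ → ‖pt dy p a f‖ ≤ M) ∧
      (∀ (U : Set ℂ), IsOpen U → ∀ (a : ℂ → Fin n → ℂ) (z : ℂ → ℂ),
        (∀ w ∈ U, ‖a w‖ ≤ ρ) → (∀ w ∈ U, ‖z w‖ ≤ ρ) → (∀ l, ∀ w ∈ U, AnalyticAt ℂ (fun w => a w l) w) →
        (∀ w ∈ U, AnalyticAt ℂ z w) → ∀ i f, ∀ w ∈ U, AnalyticAt ℂ (fun w => pt dy p (a w) f) w ∧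
          AnalyticAt ℂ (fun w => fl (e i) (pt dy p (a w)) (z w) f) w) ∧
      (∀ (X : Type) [TopologicalSpace X] (V : Set X) (a : X → Fin n → ℂ) (z : X → ℂ),
        (∀ w ∈ V, ‖a w‖ ≤ ρ) → (∀ w ∈ V, ‖z w‖ ≤ ρ) → ContinuousOn a V → ContinuousOn z V →
        ∀ i f, ContinuousOn (fun w => pt dy p (a w) f) V ∧
          ContinuousOn (fun w => fl (e i) (pt dy p (a w)) (z w) f) V) := by
  classical
  obtain ⟨M, hM⟩ : ∃ M : ℝ, ∀ g ∈ G, ‖p g‖ ≤ M := by
    refine ⟨∑ g ∈ G, ‖p g‖, fun g hg => ?_⟩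
    exact Finset.single_le_sum (f := fun g => ‖p g‖) (fun _ _ => norm_nonneg _) hg
  obtain ⟨K, hK, hgrow⟩ := unif_grow (Sum.elim dy e) G hG M
  choose C hC hgr using hgrow
  have h0 : AnaGr (Sum.elim dy e) ((Algebra.ofId ℂ ℂ).comp p) K C := by
    intro f l
    have h1 := hgr f ℂ p hM l
    simpa using h1
  obtain ⟨ρ, hρ⟩ : ∃ ρ : ℝ, ρ = 1 / (2 * (2 ^ n * K)) := ⟨_, rfl⟩
  have hρ0 : 0 < ρ := by rw [hρ]; positivity
  have hρ1 : 2 ^ n * K * ρ ≤ 1 / 2 := by
    rw [hρ]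
    refine le_of_eq ?_
    field_simp
  have hQ := fun (a : Fin n → ℂ) (ha : ‖a‖ ≤ ρ) =>
    anaQ_gr e dy p hK.le hC ℂ h0 hρ1 a ha
  have hpt : ∀ a : Fin n → ℂ, ‖a‖ ≤ ρ → IsPt dy p a (anaQ dy p a n) := by
    intro a ha
    exact ⟨anaQ dy p a, rfl, rfl, fun i => (hQ a ha n le_rfl).2 i i.2⟩
  have hpe : ∀ a : Fin n → ℂ, ‖a‖ ≤ ρ → pt dy p a = anaQ dy p a n := fun a ha => pt_eq (hpt a ha)
  have hfl : ∀ a : Fin n → ℂ, ‖a‖ ≤ ρ → ∀ z : ℂ, ‖z‖ ≤ ρ → ∀ i,
      IsFlowW (e i) (pt dy p a) z (fl (e i) (pt dy p a) z) := by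
    intro a ha z hz i
    rw [hpe a ha]
    have h1 : 2 ^ n * K * ‖z‖ ≤ 1 / 2 :=
      (mul_le_mul_of_nonneg_left hz (by positivity)).trans hρ1
    exact ((hQ a ha n le_rfl).1.step (by positivity) (fun f => by have := hC f; positivity)
      (Sum.inr i) z h1).1
  have hsmall : ∀ (i : ℕ), i ≤ n → ∀ z : ℂ, ‖z‖ ≤ ρ → 2 ^ i * K * ‖z‖ ≤ 1 / 2 := by
    intro i hi z hz
    have h4 : (2 : ℝ) ^ i ≤ 2 ^ n := pow_le_pow_right₀ (by norm_num) hi
    calc 2 ^ i * K * ‖z‖ ≤ 2 ^ n * K * ρ := by gcongr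
      _ ≤ 1 / 2 := hρ1
  refine ⟨ρ, hρ0, fun a ha => ⟨?_, hfl a ha⟩, fun f => ⟨2 ^ n * C f, fun a ha => ?_⟩, ?_, ?_⟩
  · rw [hpe a ha]
    exact hpt a ha
  · rw [hpe a ha]
    have h1 := (hQ a ha n le_rfl).1 f []
    simpa [word] using h1
  · intro U hU a z ha hz haa hza i f w hw
    have hzd : DifferentiableOn ℂ z U := fun w hw => (hza w hw).differentiableAt.differentiableWithinAt
    have hchain : ∀ j, j ≤ n → ∀ f, DifferentiableOn ℂ (fun w => anaQ dy p (a w) j f) U := by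
      intro j
      induction j with
      | zero => intro _ f; exact differentiableOn_const _
      | succ j ih =>
        intro hj f
        have hj' := Nat.le_of_succ_le hj
        refine ana_diff hU (fun w => anaQ dy p (a w) j) (fun w => a w ⟨j, hj⟩) (K := 2 ^ j * K)
          (C := fun f => 2 ^ j * C f) (d := Sum.elim dy e) (by positivity)
          (fun f => by have := hC f; positivity) (fun w hw => (hQ (a w) (ha w hw) j hj').1)
          (fun w hw => hsmall j hj' _ ((norm_le_pi_norm (a w) _).trans (ha w hw))) (ih hj')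
          (fun w hw => (haa ⟨j, hj⟩ w hw).differentiableAt.differentiableWithinAt) (Sum.inl ⟨j, hj⟩)
          (fun w => anaQ dy p (a w) (j + 1))
          (fun w hw => (hQ (a w) (ha w hw) n le_rfl).2 ⟨j, hj⟩ hj) f
    have hpd : ∀ f, DifferentiableOn ℂ (fun w => pt dy p (a w) f) U := by
      intro f
      refine (hchain n le_rfl f).congr fun w hw => ?_
      rw [hpe (a w) (ha w hw)]
    refine ⟨(hpd f).analyticAt (hU.mem_nhds hw), ?_⟩
    refine (ana_diff hU (fun w => pt dy p (a w)) z (K := 2 ^ n * K)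
          (C := fun f => 2 ^ n * C f) (d := Sum.elim dy e) (by positivity)
          (fun f => by have := hC f; positivity)
          (fun w hw => by rw [hpe (a w) (ha w hw)]; exact (hQ (a w) (ha w hw) n le_rfl).1)
          (fun w hw => hsmall n le_rfl _ (hz w hw)) hpd hzd (Sum.inr i)
          (fun w => fl (e i) (pt dy p (a w)) (z w))
          (fun w hw => hfl (a w) (ha w hw) (z w) (hz w hw) i) f).analyticAt (hU.mem_nhds hw)
  · intro X _ V a z ha hz hac hzc i f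
    have hchain : ∀ j, j ≤ n → ∀ f, ContinuousOn (fun w => anaQ dy p (a w) j f) V := by
      intro j
      induction j with
      | zero => intro _ f; exact continuousOn_const
      | succ j ih =>
        intro hj f
        have hj' := Nat.le_of_succ_le hj
        refine ana_cont (fun w => anaQ dy p (a w) j) (fun w => a w ⟨j, hj⟩) (K := 2 ^ j * K)
          (C := fun f => 2 ^ j * C f) (d := Sum.elim dy e) (by positivity)
          (fun f => by have := hC f; positivity) (fun w hw => (hQ (a w) (ha w hw) j hj').1)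
          (fun w hw => hsmall j hj' _ ((norm_le_pi_norm (a w) _).trans (ha w hw))) (ih hj')
          ((continuous_apply _).comp_continuousOn hac) (Sum.inl ⟨j, hj⟩)
          (fun w => anaQ dy p (a w) (j + 1))
          (fun w hw => (hQ (a w) (ha w hw) n le_rfl).2 ⟨j, hj⟩ hj) f
    have hpd : ∀ f, ContinuousOn (fun w => pt dy p (a w) f) V := by
      intro f
      refine (hchain n le_rfl f).congr fun w hw => ?_
      rw [hpe (a w) (ha w hw)]
    refine ⟨hpd f, ?_⟩
    exact ana_cont (fun w => pt dy p (a w)) z (K := 2 ^ n * K)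
          (C := fun f => 2 ^ n * C f) (d := Sum.elim dy e) (by positivity)
          (fun f => by have := hC f; positivity)
          (fun w hw => by rw [hpe (a w) (ha w hw)]; exact (hQ (a w) (ha w hw) n le_rfl).1)
          (fun w hw => hsmall n le_rfl _ (hz w hw)) hpd hzc (Sum.inr i)
          (fun w => fl (e i) (pt dy p (a w)) (z w))
          (fun w hw => hfl (a w) (ha w hw) (z w) (hz w hw) i) f

end Pool.Agent.Strip
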