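import Pool.Agent.Lib_MP_1209e6_st.LineCoef

/-!
# The base functions of the strips

For a profile `Φ` with `|Φ t|, |Φ' t| ≤ 2 exp (-t)` for `t ≥ 0` the function
`Φ (l cosh (a y))` on a vertical line is `(1 - c) g` with `g` in `l¹(ℤ)` of norm
`O(exp (-l / 2))`, where `c = (w - 1) / (w + 1)`.
-/

set_option autoImplicit false

open MeasureTheory Set
open scoped Real

noncomputable section

namespace Pool.Agent.Strips

open Complex (I)

theorem one_sub_cay (y : ℝ) : 1 - cay y = 2 / (I * y + 1) := by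
  have h := cay_den y
  unfold cay
  field_simp
  ring

theorem be_cube (t : ℝ) (ht : 0 ≤ t) : t ^ 3 * Real.exp (-t) ≤ 48 * Real.exp (-t / 2) := by
  have h1 : (t / 2) ^ 3 / (Nat.factorial 3 : ℝ) ≤ Real.exp (t / 2) :=
    Real.pow_div_factorial_le_exp _ (by linarith) 3
  have h2 : t ^ 3 ≤ 48 * Real.exp (t / 2) := by
    have : ((Nat.factorial 3 : ℕ) : ℝ) = 6 := by norm_num [Nat.factorial]
    rw [this] at h1
    have h3 : (t / 2) ^ 3 = t ^ 3 / 8 := by ring
    rw [h3] at h1
    linarith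
  calc t ^ 3 * Real.exp (-t) ≤ 48 * Real.exp (t / 2) * Real.exp (-t) :=
        mul_le_mul_of_nonneg_right h2 (Real.exp_pos _).le
    _ = 48 * Real.exp (-t / 2) := by
        rw [mul_assoc, ← Real.exp_add]
        congr 2
        ring

theorem be_cosh (x : ℝ) : 1 + x ^ 2 / 4 ≤ Real.cosh x := by
  rw [← Real.cosh_abs, Real.cosh_eq]
  have h1 := Real.quadratic_le_exp_of_nonneg (abs_nonneg x)
  have h2 := Real.add_one_le_exp (-|x|)
  have h3 := sq_abs x
  nlinarith

/-- The general estimate. -/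
theorem base_gen {Φ Φ' : ℝ → ℝ} (hd : ∀ t, HasDerivAt Φ (Φ' t) t) (hc : Continuous Φ')
    (h0 : ∀ t, 0 ≤ t → |Φ t| ≤ 2 * Real.exp (-t))
    (h1 : ∀ t, 0 ≤ t → |Φ' t| ≤ 2 * Real.exp (-t))
    {a ε : ℝ} (ha : 0 < a) (hε : 0 < ε) :
    ∃ l0 : ℝ, ∀ l : ℝ, l0 ≤ l → ∃ g : ℤ → ℂ, (Summable fun n => ‖g n‖) ∧
      ∑' n, ‖g n‖ ≤ ε ∧ ∀ y : ℝ, HasSum (fun n : ℤ => g n * cay y ^ n * (1 - cay y))
        ((Φ (l * Real.cosh (a * y)) : ℝ) : ℂ) := by
  obtain ⟨K, hK⟩ : ∃ K : ℝ, K = 2 + 4 / a ^ 2 := ⟨_, rfl⟩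
  have hK0 : 0 < K := by rw [hK]; positivity
  obtain ⟨C1, hC1⟩ : ∃ C1 : ℝ, C1 = K * (1 + K * a) := ⟨_, rfl⟩
  have hC10 : 0 < C1 := by rw [hC1]; positivity
  obtain ⟨C, hC⟩ : ∃ C : ℝ, C = K ^ 2 * 48 + fourK * (π * (C1 * 48)) := ⟨_, rfl⟩
  have hfK : 0 < fourK := lt_of_lt_of_le one_pos fourK_ge
  have hC0 : 0 < C := by rw [hC]; have := Real.pi_pos; positivity
  refine ⟨max 1 (2 * Real.log (C / ε)), fun l hl => ?_⟩
  have hl1 : 1 ≤ l := le_trans (le_max_left _ _) hl
  have hl2 : 2 * Real.log (C / ε) ≤ l := le_trans (le_max_right _ _) hl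
  have hexp : C * Real.exp (-l / 2) ≤ ε := by
    have h2 : Real.exp (-l / 2) ≤ ε / C := by
      rw [← Real.le_log_iff_exp_le (by positivity)]
      have h3 : Real.log (ε / C) = - Real.log (C / ε) := by
        rw [← Real.log_inv, inv_div]
      rw [h3]
      linarith
    calc C * Real.exp (-l / 2) ≤ C * (ε / C) := mul_le_mul_of_nonneg_left h2 hC0.le
      _ = ε := by field_simp
  -- the time and the elementary estimates
  have ht : ∀ y : ℝ, l ≤ l * Real.cosh (a * y) := fun y => by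
    have := Real.one_le_cosh (a * y)
    nlinarith
  have hy2 : ∀ y : ℝ, 1 + y ^ 2 ≤ K * (l * Real.cosh (a * y)) := fun y => by
    have h2 := be_cosh (a * y)
    have h3 := Real.one_le_cosh (a * y)
    have h4 : Real.cosh (a * y) ≤ l * Real.cosh (a * y) := by nlinarith
    have h5 : y ^ 2 ≤ 4 / a ^ 2 * Real.cosh (a * y) := by
      rw [div_mul_eq_mul_div, le_div_iff₀ (by positivity)]
      nlinarith
    have h6 : 4 / a ^ 2 * Real.cosh (a * y) ≤ 4 / a ^ 2 * (l * Real.cosh (a * y)) :=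
      mul_le_mul_of_nonneg_left h4 (by positivity)
    rw [hK]
    nlinarith
  have hy1 : ∀ y : ℝ, 1 + |y| ≤ K * (l * Real.cosh (a * y)) := fun y => by
    have h2 := be_cosh (a * y)
    have h3 := Real.one_le_cosh (a * y)
    have h4 : Real.cosh (a * y) ≤ l * Real.cosh (a * y) := by nlinarith
    have h5 : y ^ 2 ≤ 4 / a ^ 2 * Real.cosh (a * y) := by
      rw [div_mul_eq_mul_div, le_div_iff₀ (by positivity)]
      nlinarith
    have h6 : 4 / a ^ 2 * Real.cosh (a * y) ≤ 4 / a ^ 2 * (l * Real.cosh (a * y)) :=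
      mul_le_mul_of_nonneg_left h4 (by positivity)
    have h7 : |y| ≤ 1 + y ^ 2 := by
      rw [← sq_abs]
      nlinarith [abs_nonneg y, sq_nonneg (|y| - 1)]
    rw [hK]
    nlinarith
  -- the functions
  obtain ⟨F, hF⟩ : ∃ F : ℝ → ℂ, F = fun y => (I * y + 1) / 2 * (Φ (l * Real.cosh (a * y)) : ℂ) :=
    ⟨_, rfl⟩
  obtain ⟨D, hD⟩ : ∃ D : ℝ → ℝ, D = fun y => Φ' (l * Real.cosh (a * y)) * (l * (Real.sinh (a * y) * a)) :=
    ⟨_, rfl⟩
  obtain ⟨F', hF'⟩ : ∃ F' : ℝ → ℂ, F' = fun y => I / 2 * (Φ (l * Real.cosh (a * y)) : ℂ) +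
      (I * y + 1) / 2 * (D y : ℂ) := ⟨_, rfl⟩
  have hder : ∀ y : ℝ, HasDerivAt (fun y : ℝ => Φ (l * Real.cosh (a * y))) (D y) y := fun y => by
    have e1 : HasDerivAt (fun y : ℝ => a * y) a y := by
      simpa using (hasDerivAt_id y).const_mul a
    have e2 : HasDerivAt (fun y : ℝ => Real.cosh (a * y)) (Real.sinh (a * y) * a) y :=
      (Real.hasDerivAt_cosh (a * y)).comp y e1
    have e3 := e2.const_mul l
    rw [hD]
    exact (hd _).comp y e3
  have hderF : ∀ y : ℝ, HasDerivAt F (F' y) y := fun y => by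
    have e1 : HasDerivAt (fun y : ℝ => (I * y + 1) / 2) (I / 2) y := by
      have e0 : HasDerivAt (fun y : ℝ => (y : ℂ)) 1 y := Complex.ofRealCLM.hasDerivAt
      have := ((e0.const_mul I).add_const (1 : ℂ)).div_const 2
      simpa using this
    have e2 : HasDerivAt (fun y : ℝ => ((Φ (l * Real.cosh (a * y)) : ℝ) : ℂ)) (D y : ℂ) y :=
      (hder y).ofReal_comp
    rw [hF, hF']
    exact e1.mul e2
  have hI : ∀ y : ℝ, ‖(I * y + 1) / 2‖ ≤ (1 + |y|) / 2 := fun y => by
    rw [norm_div]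
    have : ‖(I * y + 1 : ℂ)‖ ≤ 1 + |y| := by
      refine (norm_add_le _ _).trans ?_
      rw [norm_mul, Complex.norm_I, one_mul, Complex.norm_real, Real.norm_eq_abs, norm_one]
      linarith
    have h2 : ‖(2 : ℂ)‖ = 2 := by simp
    rw [h2]
    linarith
  have hDb : ∀ y : ℝ, |D y| ≤ 2 * Real.exp (-(l * Real.cosh (a * y))) * (a * (l * Real.cosh (a * y))) :=
    fun y => by
    have hs : |Real.sinh (a * y)| ≤ Real.cosh (a * y) := by
      rw [abs_le]
      have e1 := Real.exp_pos (a * y)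
      have e2 := Real.exp_pos (-(a * y))
      rw [Real.sinh_eq, Real.cosh_eq]
      constructor <;> linarith
    have ht0 : 0 ≤ l * Real.cosh (a * y) := by have := ht y; linarith
    rw [hD]
    simp only [abs_mul]
    rw [abs_of_nonneg (by linarith : (0 : ℝ) ≤ l), abs_of_pos ha]
    refine mul_le_mul (h1 _ ht0) ?_ (by positivity) (by positivity)
    nlinarith [mul_le_mul_of_nonneg_left hs (by positivity : 0 ≤ l * a)]
  have hcube : ∀ y : ℝ, (l * Real.cosh (a * y)) ^ 3 * Real.exp (-(l * Real.cosh (a * y))) ≤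
      48 * Real.exp (-l / 2) := fun y => by
    have ht0 : 0 ≤ l * Real.cosh (a * y) := by have := ht y; linarith
    refine (be_cube _ ht0).trans ?_
    have := ht y
    have : Real.exp (-(l * Real.cosh (a * y)) / 2) ≤ Real.exp (-l / 2) :=
      Real.exp_le_exp.2 (by linarith)
    linarith
  have hB : ∀ y : ℝ, ‖F y‖ * (1 + |y|) ≤ K ^ 2 * (48 * Real.exp (-l / 2)) := fun y => by
    obtain ⟨t, ht'⟩ : ∃ t : ℝ, t = l * Real.cosh (a * y) := ⟨_, rfl⟩
    have a1 := ht y
    have a2 := hy1 y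
    have a3 := hcube y
    rw [← ht'] at a1 a2 a3
    have a4 := h0 t (by linarith)
    have hFy : ‖F y‖ ≤ (1 + |y|) / 2 * (2 * Real.exp (-t)) := by
      rw [hF]
      simp only [norm_mul, Complex.norm_real, Real.norm_eq_abs]
      rw [← ht']
      have := hI y
      exact mul_le_mul this a4 (abs_nonneg _) (by positivity)
    have hE := Real.exp_pos (-t)
    have ha0 : 0 ≤ 1 + |y| := by positivity
    have ht3 : t ^ 2 ≤ t ^ 3 := by nlinarith [sq_nonneg t]
    calc ‖F y‖ * (1 + |y|) ≤ (1 + |y|) / 2 * (2 * Real.exp (-t)) * (1 + |y|) :=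
          mul_le_mul_of_nonneg_right hFy ha0
      _ = (1 + |y|) ^ 2 * Real.exp (-t) := by ring
      _ ≤ (K * t) ^ 2 * Real.exp (-t) :=
          mul_le_mul_of_nonneg_right (pow_le_pow_left₀ ha0 a2 2) hE.le
      _ = K ^ 2 * (t ^ 2 * Real.exp (-t)) := by ring
      _ ≤ K ^ 2 * (t ^ 3 * Real.exp (-t)) :=
          mul_le_mul_of_nonneg_left (mul_le_mul_of_nonneg_right ht3 hE.le) (by positivity)
      _ ≤ K ^ 2 * (48 * Real.exp (-l / 2)) := mul_le_mul_of_nonneg_left a3 (by positivity)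
  have hM : ∀ y : ℝ, ‖F' y‖ * (1 + y ^ 2) ≤ C1 * (48 * Real.exp (-l / 2)) := fun y => by
    obtain ⟨t, ht'⟩ : ∃ t : ℝ, t = l * Real.cosh (a * y) := ⟨_, rfl⟩
    have a1 := ht y
    have a2 := hy1 y
    have a3 := hcube y
    have a5 := hy2 y
    have a6 := hDb y
    rw [← ht'] at a1 a2 a3 a5 a6
    have a4 := h0 t (by linarith)
    have hE := Real.exp_pos (-t)
    have ht0 : 0 ≤ t := by linarith
    have hFy : ‖F' y‖ ≤ Real.exp (-t) + (K * t) * (Real.exp (-t) * (a * t)) := by
      rw [hF']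
      refine (norm_add_le _ _).trans ?_
      refine add_le_add ?_ ?_
      · rw [norm_mul, norm_div, Complex.norm_I, Complex.norm_real, Real.norm_eq_abs, ← ht']
        have h2 : ‖(2 : ℂ)‖ = 2 := by simp
        rw [h2]
        linarith
      · rw [norm_mul, Complex.norm_real, Real.norm_eq_abs]
        have h3 := hI y
        calc ‖(I * y + 1) / 2‖ * |D y| ≤ (K * t) / 2 * (2 * Real.exp (-t) * (a * t)) :=
              mul_le_mul (h3.trans (by linarith)) a6 (abs_nonneg _) (by positivity)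
          _ = (K * t) * (Real.exp (-t) * (a * t)) := by ring
    have ht1 : 1 ≤ t := by linarith
    have ht3 : t ≤ t ^ 3 := by
      have : t * 1 ≤ t * t ^ 2 := mul_le_mul_of_nonneg_left (one_le_pow₀ ht1) ht0
      nlinarith
    calc ‖F' y‖ * (1 + y ^ 2)
        ≤ (Real.exp (-t) + (K * t) * (Real.exp (-t) * (a * t))) * (K * t) :=
          mul_le_mul hFy a5 (by positivity) (by positivity)
      _ = K * (t * Real.exp (-t)) + K * (K * a) * (t ^ 3 * Real.exp (-t)) := by ring
      _ ≤ K * (t ^ 3 * Real.exp (-t)) + K * (K * a) * (t ^ 3 * Real.exp (-t)) := by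
          have := mul_le_mul_of_nonneg_left (mul_le_mul_of_nonneg_right ht3 hE.le) hK0.le
          linarith
      _ = C1 * (t ^ 3 * Real.exp (-t)) := by rw [hC1]; ring
      _ ≤ C1 * (48 * Real.exp (-l / 2)) := mul_le_mul_of_nonneg_left a3 hC10.le
  have hM0 : 0 < C1 * (48 * Real.exp (-l / 2)) := by
    have := Real.exp_pos (-l / 2)
    positivity
  have hcF : Continuous F' := by
    have hΦ : Continuous Φ := continuous_iff_continuousAt.2 fun t => (hd t).continuousAt
    have c1 : Continuous fun y : ℝ => l * Real.cosh (a * y) := by fun_prop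
    have c2 : Continuous fun y : ℝ => Φ (l * Real.cosh (a * y)) := hΦ.comp c1
    have c3 : Continuous fun y : ℝ => Φ' (l * Real.cosh (a * y)) := hc.comp c1
    have c4 : Continuous D := by
      rw [hD]
      exact c3.mul (by fun_prop)
    rw [hF']
    have c5 := Complex.continuous_ofReal.comp c2
    have c6 := Complex.continuous_ofReal.comp c4
    exact (continuous_const.mul c5).add ((by fun_prop : Continuous fun y : ℝ => (I * y + 1) / 2).mul c6)
  obtain ⟨g, hg1, hg2, hg3⟩ := line_coef hM0 hB hderF hM hcF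
  refine ⟨g, hg1, hg2.trans ?_, fun y => ?_⟩
  · calc K ^ 2 * (48 * Real.exp (-l / 2)) + fourK * (π * (C1 * (48 * Real.exp (-l / 2))))
        = C * Real.exp (-l / 2) := by rw [hC]; ring
      _ ≤ ε := hexp
  · have h := (hg3 y).mul_right (1 - cay y)
    have e : F y * (1 - cay y) = ((Φ (l * Real.cosh (a * y)) : ℝ) : ℂ) := by
      have hden := cay_den y
      rw [one_sub_cay, hF]
      field_simp
    rw [e] at h
    exact h

/-- The base function on the left line. -/
theorem base_left {a ε : ℝ} (ha : 0 < a) (hε : 0 < ε) :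
    ∃ l0 : ℝ, ∀ l : ℝ, l0 ≤ l → ∃ g : ℤ → ℂ, (Summable fun n => ‖g n‖) ∧
      ∑' n, ‖g n‖ ≤ ε ∧ ∀ y : ℝ, HasSum (fun n : ℤ => g n * cay y ^ n * (1 - cay y))
        (1 - Complex.exp (-Complex.exp (-((l : ℂ) * Complex.cosh (a * y))))) := by
  have hd : ∀ t : ℝ, HasDerivAt (fun t : ℝ => 1 - Real.exp (-Real.exp (-t)))
      (-(Real.exp (-Real.exp (-t)) * Real.exp (-t))) t := fun t => by
    have e1 : HasDerivAt (fun t : ℝ => -t) (-1) t := hasDerivAt_neg t
    have e2 : HasDerivAt (fun t : ℝ => -Real.exp (-t)) (-(Real.exp (-t) * -1)) t := (e1.exp).neg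
    have e3 := (e2.exp).const_sub 1
    have e4 : -(Real.exp (-Real.exp (-t)) * -(Real.exp (-t) * -1)) =
        -(Real.exp (-Real.exp (-t)) * Real.exp (-t)) := by ring
    rw [e4] at e3
    exact e3
  obtain ⟨l0, h⟩ := base_gen (Φ := fun t : ℝ => 1 - Real.exp (-Real.exp (-t)))
    (Φ' := fun t : ℝ => -(Real.exp (-Real.exp (-t)) * Real.exp (-t))) hd (by fun_prop)
    (fun t _ => by
      have e := Real.exp_pos (-t)
      have h1 : 1 - Real.exp (-t) ≤ Real.exp (-Real.exp (-t)) := by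
        have := Real.add_one_le_exp (-Real.exp (-t)); linarith
      have h2 : Real.exp (-Real.exp (-t)) ≤ 1 := Real.exp_le_one_iff.2 (by linarith)
      rw [abs_of_nonneg (by linarith)]
      linarith)
    (fun t _ => by
      have e := Real.exp_pos (-t)
      have h2 : Real.exp (-Real.exp (-t)) ≤ 1 := Real.exp_le_one_iff.2 (by linarith)
      have h3 := Real.exp_pos (-Real.exp (-t))
      rw [abs_neg, abs_of_nonneg (by positivity)]
      nlinarith) ha hε
  refine ⟨l0, fun l hl => ?_⟩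
  obtain ⟨g, h1, h2, h3⟩ := h l hl
  refine ⟨g, h1, h2, fun y => ?_⟩
  have := h3 y
  push_cast at this
  exact this

/-- The base function on the right line. -/
theorem base_right {a ε : ℝ} (ha : 0 < a) (hε : 0 < ε) :
    ∃ l0 : ℝ, ∀ l : ℝ, l0 ≤ l → ∃ g : ℤ → ℂ, (Summable fun n => ‖g n‖) ∧
      ∑' n, ‖g n‖ ≤ ε ∧ ∀ y : ℝ, HasSum (fun n : ℤ => g n * cay y ^ n * (1 - cay y))
        (Complex.exp (-Complex.exp ((l : ℂ) * Complex.cosh (a * y)))) := by
  have hd : ∀ t : ℝ, HasDerivAt (fun t : ℝ => Real.exp (-Real.exp t))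
      (-(Real.exp (-Real.exp t) * Real.exp t)) t := fun t => by
    have e2 : HasDerivAt (fun t : ℝ => -Real.exp t) (-Real.exp t) t := (Real.hasDerivAt_exp t).neg
    have e3 := e2.exp
    have e4 : Real.exp (-Real.exp t) * -Real.exp t =
        -(Real.exp (-Real.exp t) * Real.exp t) := by ring
    rw [e4] at e3
    exact e3
  obtain ⟨l0, h⟩ := base_gen (Φ := fun t : ℝ => Real.exp (-Real.exp t))
    (Φ' := fun t : ℝ => -(Real.exp (-Real.exp t) * Real.exp t)) hd (by fun_prop)
    (fun t _ => by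
      have e := Real.exp_pos t
      have h1 : Real.exp t ≤ Real.exp (Real.exp t) := by
        have := Real.add_one_le_exp (Real.exp t)
        linarith
      have h2 : Real.exp (-Real.exp t) ≤ Real.exp (-t) := by
        refine Real.exp_le_exp.2 ?_
        have := Real.add_one_le_exp t
        linarith
      have h3 := Real.exp_pos (-Real.exp t)
      have h4 := Real.exp_pos (-t)
      rw [abs_of_pos h3]
      linarith)
    (fun t _ => by
      have e := Real.exp_pos t
      have h3 := Real.exp_pos (-Real.exp t)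
      have h4 := Real.exp_pos (-t)
      rw [abs_neg, abs_of_nonneg (by positivity)]
      have h5 : Real.exp t ^ 2 / 2 ≤ Real.exp (Real.exp t) := by
        have := Real.pow_div_factorial_le_exp (Real.exp t) e.le 2
        have h6 : ((Nat.factorial 2 : ℕ) : ℝ) = 2 := by norm_num [Nat.factorial]
        rw [h6] at this
        exact this
      have h7 : Real.exp (-Real.exp t) * Real.exp (Real.exp t) = 1 := by
        rw [← Real.exp_add]; simp
      have h8 : Real.exp (-t) * Real.exp t = 1 := by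
        rw [← Real.exp_add]; simp
      have h9 : Real.exp (-Real.exp t) * (Real.exp t ^ 2 / 2) ≤ 1 := by
        rw [← h7]
        exact mul_le_mul_of_nonneg_left h5 h3.le
      have h10 : Real.exp (-Real.exp t) * Real.exp t = Real.exp (-t) * (Real.exp (-Real.exp t) * Real.exp t ^ 2) := by
        rw [show Real.exp (-t) * (Real.exp (-Real.exp t) * Real.exp t ^ 2) =
          (Real.exp (-t) * Real.exp t) * (Real.exp (-Real.exp t) * Real.exp t) by ring, h8, one_mul]
      rw [h10]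
      nlinarith) ha hε
  refine ⟨l0, fun l hl => ?_⟩
  obtain ⟨g, h1, h2, h3⟩ := h l hl
  refine ⟨g, h1, h2, fun y => ?_⟩
  have := h3 y
  push_cast at this
  exact this

end Pool.Agent.Strips
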