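import Pool.Agent.Lib_MP_1209e6_st.Defs
import Pool.Agent.Lib_MP_1209e6_st.BaseEst

/-! PIECE BASE: the base functions in the Wiener algebra. -/

set_option autoImplicit false

open Filter Topology Pool.Agent.Lib_MP_1858fb_w

namespace Pool.Agent.Strip

/-- the element `(1 - c) g` -/
noncomputable def bsEl (g : ℤ → ℂ) (hg : Summable fun n => ‖g n‖) : WW :=
  (1 - W.mono ω1 1 1) * W.ofSeq g (by simpa only [ω1_w, mul_one] using hg)

theorem bsEl_norm (g : ℤ → ℂ) (hg : Summable fun n => ‖g n‖) :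
    ‖bsEl g hg‖ ≤ 2 * ∑' n, ‖g n‖ := by
  unfold bsEl
  refine (norm_mul_le _ _).trans ?_
  refine mul_le_mul ?_ ?_ (norm_nonneg _) (by norm_num)
  · refine (norm_sub_le _ _).trans ?_
    rw [W.norm_mono, norm_one, norm_one, ω1_w]
    norm_num
  · rw [W.norm_eq]
    simp only [W.co_ofSeq, ω1_w, mul_one, le_refl]

theorem bsEl_val (g : ℤ → ℂ) (hg : Summable fun n => ‖g n‖) {t : ℂ} (ht : ‖t‖ = 1) {v : ℂ}
    (h : HasSum (fun n : ℤ => g n * t ^ n * (1 - t)) v) : W.val t (bsEl g hg) = v := by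
  rw [← evc_apply t ht]
  unfold bsEl
  rw [map_mul, map_sub, map_one, evc_apply, evc_apply, W.val_mono, one_mul, zpow_one, mul_comm]
  rw [← h.tsum_eq, tsum_mul_right]
  unfold W.val
  simp only [W.co_ofSeq]

theorem bsEl_one (g : ℤ → ℂ) (hg : Summable fun n => ‖g n‖) : W.val 1 (bsEl g hg) = 0 := by
  refine bsEl_val g hg norm_one ?_
  simp only [sub_self, mul_zero]
  exact hasSum_zero

theorem bs_cay (y : ℝ) (k : ℕ) (w : ℂ) (h : w - 2 * k = Complex.I * y) :
    cay k w = Pool.Agent.Strips.cay y := by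
  unfold cay Pool.Agent.Strips.cay
  rw [h]

/-- BASE -/
theorem base (ε : ℝ) (hε : 0 < ε) : ∃ (lam : ℝ) (zL zR : WW), ‖zL‖ ≤ ε ∧ ‖zR - 1‖ ≤ ε ∧
    W.val 1 zL = 0 ∧ W.val 1 zR = 1 ∧
    (∀ (k : ℕ) (w : ℂ), w.re = 2 * k → W.val (cay k w) zL = Zb lam (w - 2 * k)) ∧
    (∀ (k : ℕ) (w : ℂ), w.re = 2 * k + 2 → W.val (cay (k + 1) w) zR = Zb lam (w - 2 * k)) := by
  have ha : 0 < Real.pi / 2 := by have := Real.pi_pos; positivity
  obtain ⟨l1, h1⟩ := Pool.Agent.Strips.base_left ha (half_pos hε)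
  obtain ⟨l2, h2⟩ := Pool.Agent.Strips.base_right ha (half_pos hε)
  obtain ⟨g, hg1, hg2, hg3⟩ := h1 (max l1 l2) (le_max_left _ _)
  obtain ⟨g', hg1', hg2', hg3'⟩ := h2 (max l1 l2) (le_max_right _ _)
  have hcos : ∀ y : ℝ, Complex.cos (Real.pi * (Complex.I * y) / 2) =
      Complex.cosh (((Real.pi / 2 : ℝ) : ℂ) * y) := fun y => by
    rw [← Complex.cos_mul_I]
    congr 1
    push_cast
    ring
  refine ⟨max l1 l2, bsEl g hg1, 1 - bsEl g' hg1', ?_, ?_, bsEl_one _ _, ?_, ?_, ?_⟩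
  · refine (bsEl_norm g hg1).trans ?_
    linarith
  · rw [sub_sub_cancel_left, norm_neg]
    refine (bsEl_norm g' hg1').trans ?_
    linarith
  · have e : W.val 1 (1 - bsEl g' hg1' : WW) = evc 1 norm_one (1 - bsEl g' hg1') := rfl
    rw [e, map_sub, map_one, evc_apply, bsEl_one, sub_zero]
  · intro k w hw
    have hy : w - 2 * k = Complex.I * (w.im : ℂ) := by
      apply Complex.ext
      · simp [hw]
      · simp
    rw [bs_cay w.im k w hy]
    refine bsEl_val g hg1 (Pool.Agent.Strips.cay_norm _) ?_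
    have := hg3 w.im
    unfold Zb
    rw [hy, hcos]
    exact this
  · intro k w hw
    have hy : w - 2 * ((k + 1 : ℕ) : ℂ) = Complex.I * (w.im : ℂ) := by
      apply Complex.ext
      · simp [hw]
        ring
      · simp
    have hy2 : w - 2 * k = Complex.I * (w.im : ℂ) + 2 := by
      rw [← hy]
      push_cast
      ring
    rw [bs_cay w.im (k + 1) w hy]
    have ht := Pool.Agent.Strips.cay_norm w.im
    have e : W.val (Pool.Agent.Strips.cay w.im) (1 - bsEl g' hg1' : WW) =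
      evc _ ht (1 - bsEl g' hg1') := rfl
    rw [e, map_sub, map_one, evc_apply, bsEl_val g' hg1' ht (hg3' w.im)]
    unfold Zb
    rw [hy2]
    have e2 : (Real.pi : ℂ) * (Complex.I * (w.im : ℂ) + 2) / 2 =
        Real.pi * (Complex.I * (w.im : ℂ)) / 2 + Real.pi := by ring
    rw [e2, Complex.cos_add_pi, hcos, mul_neg, neg_neg]

theorem analytic_Zb (lam : ℝ) (w : ℂ) : AnalyticAt ℂ (Zb lam) w := by
  have h : Differentiable ℂ (Zb lam) := by
    unfold Zb
    fun_prop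
  exact h.analyticAt w

end Pool.Agent.Strip
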