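import Mathlib

/-! PIECES FIX and CHAIN: the contraction. -/

set_option autoImplicit false

open Filter Topology

namespace Pool.Agent.Strip

/-- FIX: fixed point in a countable product, iteration from `x0`, each component is Cauchy. -/
theorem fix {I E : Type} [NormedAddCommGroup E] [CompleteSpace E] (K : I → Set E)
    (hK : ∀ i, IsClosed (K i)) (w : I → ℝ) (hw : ∀ i, 0 ≤ w i) (Φ : (I → E) → I → E)
    (hmap : ∀ x, (∀ i, x i ∈ K i) → ∀ i, Φ x i ∈ K i)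
    (hlip : ∀ x y, (∀ i, x i ∈ K i) → (∀ i, y i ∈ K i) → ∀ t : ℝ, 0 ≤ t →
      (∀ i, ‖x i - y i‖ ≤ t * w i) → ∀ i, ‖Φ x i - Φ y i‖ ≤ t / 2 * w i)
    (x0 : I → E) (hx0 : ∀ i, x0 i ∈ K i) (t0 : ℝ) (h0 : ∀ i, ‖x0 i - Φ x0 i‖ ≤ t0 * w i) :
    ∃ x, (∀ i, x i ∈ K i) ∧ Φ x = x := by
  obtain ⟨X, hX0, hX⟩ : ∃ X : ℕ → I → E, X 0 = x0 ∧ ∀ n, X (n + 1) = Φ (X n) :=
    ⟨fun n => Φ^[n] x0, rfl, fun n => Function.iterate_succ_apply' Φ n x0⟩
  have hXK : ∀ n i, X n i ∈ K i := by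
    intro n
    induction n with
    | zero => rw [hX0]; exact hx0
    | succ n ih => rw [hX]; exact hmap _ ih
  have hd : ∀ n i, ‖X n i - X (n + 1) i‖ ≤ |t0| / 2 ^ n * w i := by
    intro n
    induction n with
    | zero =>
      intro i
      rw [hX 0, hX0, pow_zero, div_one]
      exact (h0 i).trans (mul_le_mul_of_nonneg_right (le_abs_self t0) (hw i))
    | succ n ih =>
      intro i
      have h1 := hlip (X n) (X (n + 1)) (hXK n) (hXK (n + 1)) (|t0| / 2 ^ n) (by positivity) ih i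
      rw [← hX n, ← hX (n + 1)] at h1
      refine h1.trans (le_of_eq ?_)
      rw [pow_succ]
      ring
  have hc : ∀ i n, dist (X n i) (X (n + 1) i) ≤ (2 * |t0| * w i) / 2 / 2 ^ n := by
    intro i n
    rw [dist_eq_norm]
    refine (hd n i).trans (le_of_eq ?_)
    ring
  have hlim : ∀ i, ∃ x, Tendsto (fun n => X n i) atTop (𝓝 x) := fun i =>
    cauchySeq_tendsto_of_complete (cauchySeq_of_le_geometric_two (hc i))
  choose x hx using hlim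
  have hxK : ∀ i, x i ∈ K i := fun i =>
    (hK i).mem_of_tendsto (hx i) (Eventually.of_forall fun n => hXK n i)
  refine ⟨x, hxK, ?_⟩
  have hdist : ∀ n i, ‖X n i - x i‖ ≤ 2 * |t0| / 2 ^ n * w i := by
    intro n i
    have h1 := dist_le_of_le_geometric_two_of_tendsto (hc i) (hx i) n
    rw [dist_eq_norm] at h1
    refine h1.trans (le_of_eq ?_)
    ring
  funext i
  have h1 : Tendsto (fun n => X (n + 1) i) atTop (𝓝 (x i)) := (hx i).comp (tendsto_add_atTop_nat 1)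
  have h2 : Tendsto (fun n => X (n + 1) i) atTop (𝓝 (Φ x i)) := by
    rw [tendsto_iff_norm_sub_tendsto_zero]
    have h3 : ∀ n, ‖X (n + 1) i - Φ x i‖ ≤ |t0| * w i * (1 / 2) ^ n := by
      intro n
      have h4 := hlip (X n) x (hXK n) hxK (2 * |t0| / 2 ^ n) (by positivity) (hdist n) i
      rw [← hX n] at h4
      refine h4.trans (le_of_eq ?_)
      rw [one_div, inv_pow]
      ring
    have h5 : Tendsto (fun n : ℕ => |t0| * w i * (1 / 2) ^ n) atTop (𝓝 0) := by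
      have := (tendsto_pow_atTop_nhds_zero_of_lt_one (r := (1 / 2 : ℝ)) (by norm_num)
        (by norm_num)).const_mul (|t0| * w i)
      rwa [mul_zero] at this
    exact squeeze_zero (fun n => norm_nonneg _) h3 h5
  exact tendsto_nhds_unique h2 h1

/-- CHAIN: `bp k` = wave of the node `k` moving right, `bm k` = wave of the node `k` moving left.
Fixed point of `bp (k+1) = Tp (bp k) + Pp Γ`, `bm (k+1) = Tm (bm (k+2)) - Pm Γ`; balls
`‖bp k‖ ≤ u/4 (1 - 2^{-k})`, `‖bm k‖ ≤ u/4 8^{-k}`; weights of the metric `8^k` and `8^{-k}`. -/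
theorem chain {E : Type} [NormedAddCommGroup E] [NormedSpace ℂ E] [CompleteSpace E]
    (Tp Tm Pp Pm : E →L[ℂ] E) (hTp : ∀ x, ‖Tp x‖ ≤ ‖x‖) (hTm : ∀ x, ‖Tm x‖ ≤ ‖x‖)
    (hPp : ∀ x, ‖Pp x‖ ≤ 3 * ‖x‖) (hPm : ∀ x, ‖Pm x‖ ≤ 3 * ‖x‖) (hP : ∀ x, Pp x + Pm x = x)
    (Kp Km K0 : Submodule ℂ E) (hKp : IsClosed (Kp : Set E)) (hKm : IsClosed (Km : Set E))
    (hKp0 : Kp ≤ K0) (hKm0 : Km ≤ K0) (hTpK : ∀ x ∈ Kp, Tp x ∈ Kp) (hTmK : ∀ x ∈ Km, Tm x ∈ Km)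
    (hPpK : ∀ x ∈ K0, Pp x ∈ Kp) (hPmK : ∀ x ∈ K0, Pm x ∈ Km) (u : ℝ) (hu : 0 < u)
    (Γ : ℕ → E → E → E)
    (hΓ0 : ∀ k, ∀ p ∈ K0, ∀ q ∈ K0, ‖p‖ ≤ u → ‖q‖ ≤ u →
      Γ k p q ∈ K0 ∧ ‖Γ k p q‖ ≤ u / (1000 * 64 ^ k))
    (hΓ1 : ∀ k, ∀ p ∈ K0, ∀ q ∈ K0, ∀ p' ∈ K0, ∀ q' ∈ K0, ‖p‖ ≤ u → ‖q‖ ≤ u → ‖p'‖ ≤ u → ‖q'‖ ≤ u →
      ‖Γ k p q - Γ k p' q'‖ ≤ (‖p - p'‖ + ‖q - q'‖) / (1000 * 64 ^ k)) :
    ∃ bp bm : ℕ → E, (∀ k, bp k ∈ Kp ∧ bm k ∈ Km ∧ ‖bp k‖ ≤ u / 4 ∧ ‖bm k‖ ≤ u / 4) ∧ bp 0 = 0 ∧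
      ∀ k, bp (k + 1) - bm (k + 1) = Tp (bp k) - Tm (bm (k + 2)) +
        Γ k (Tp (bp k) + bm (k + 1)) (bp (k + 1) + Tm (bm (k + 2))) := by
  -- the nonlinear term at the step `k`
  let g : (ℕ ⊕ ℕ → E) → ℕ → E := fun x k =>
    Γ k (Tp (x (Sum.inl k)) + x (Sum.inr (k + 1)))
      (x (Sum.inl (k + 1)) + Tm (x (Sum.inr (k + 2))))
  let F : (ℕ ⊕ ℕ → E) → ℕ ⊕ ℕ → E := fun x i => match i with
    | Sum.inl 0 => 0
    | Sum.inl (k + 1) => Tp (x (Sum.inl k)) + Pp (g x k)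
    | Sum.inr 0 => 0
    | Sum.inr (k + 1) => Tm (x (Sum.inr (k + 2))) - Pm (g x k)
  let K : ℕ ⊕ ℕ → Set E := fun i => match i with
    | Sum.inl k => {x | x ∈ Kp ∧ ‖x‖ ≤ u / 4 * (1 - (1 / 2) ^ k)}
    | Sum.inr k => {x | x ∈ Km ∧ ‖x‖ ≤ u / 4 * (1 / 8) ^ k}
  let w : ℕ ⊕ ℕ → ℝ := fun i => match i with
    | Sum.inl k => 8 ^ k
    | Sum.inr k => (1 / 8) ^ k
  have hp2 : ∀ k : ℕ, (0 : ℝ) < (1 / 2) ^ k := fun k => by positivity
  have hp2' : ∀ k : ℕ, ((1 / 2 : ℝ)) ^ k ≤ 1 := fun k => pow_le_one₀ (by norm_num) (by norm_num)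
  have hp8 : ∀ k : ℕ, (0 : ℝ) < (1 / 8) ^ k := fun k => by positivity
  have hp8' : ∀ k : ℕ, ((1 / 8 : ℝ)) ^ k ≤ 1 := fun k => pow_le_one₀ (by norm_num) (by norm_num)
  -- bounds for an admissible family
  have hin : ∀ x : ℕ ⊕ ℕ → E, (∀ i, x i ∈ K i) → ∀ k, x (Sum.inl k) ∈ Kp ∧ ‖x (Sum.inl k)‖ ≤ u / 4 ∧
      x (Sum.inr k) ∈ Km ∧ ‖x (Sum.inr k)‖ ≤ u / 4 := by
    intro x hx k
    have h1 : x (Sum.inl k) ∈ Kp ∧ ‖x (Sum.inl k)‖ ≤ u / 4 * (1 - (1 / 2) ^ k) := hx (Sum.inl k)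
    have h2 : x (Sum.inr k) ∈ Km ∧ ‖x (Sum.inr k)‖ ≤ u / 4 * (1 / 8) ^ k := hx (Sum.inr k)
    refine ⟨h1.1, h1.2.trans ?_, h2.1, h2.2.trans ?_⟩
    · have := hp2 k
      nlinarith
    · have := hp8' k
      nlinarith
  have hargs : ∀ x : ℕ ⊕ ℕ → E, (∀ i, x i ∈ K i) → ∀ k,
      Tp (x (Sum.inl k)) + x (Sum.inr (k + 1)) ∈ K0 ∧
      x (Sum.inl (k + 1)) + Tm (x (Sum.inr (k + 2))) ∈ K0 ∧
      ‖Tp (x (Sum.inl k)) + x (Sum.inr (k + 1))‖ ≤ u ∧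
      ‖x (Sum.inl (k + 1)) + Tm (x (Sum.inr (k + 2)))‖ ≤ u := by
    intro x hx k
    obtain ⟨a1, a2, -, -⟩ := hin x hx k
    obtain ⟨b1, b2, b3, b4⟩ := hin x hx (k + 1)
    obtain ⟨-, -, c3, c4⟩ := hin x hx (k + 2)
    refine ⟨K0.add_mem (hKp0 (hTpK _ a1)) (hKm0 b3), K0.add_mem (hKp0 b1) (hKm0 (hTmK _ c3)),
      ?_, ?_⟩
    · have := hTp (x (Sum.inl k))
      exact (norm_add_le _ _).trans (by linarith)
    · have := hTm (x (Sum.inr (k + 2)))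
      exact (norm_add_le _ _).trans (by linarith)
  have hg : ∀ x : ℕ ⊕ ℕ → E, (∀ i, x i ∈ K i) → ∀ k, g x k ∈ K0 ∧ ‖g x k‖ ≤ u / (1000 * 64 ^ k) := by
    intro x hx k
    obtain ⟨h1, h2, h3, h4⟩ := hargs x hx k
    exact hΓ0 k _ h1 _ h2 h3 h4
  have hs : ∀ k : ℕ, u / (1000 * 64 ^ k) = u / 1000 * ((1 / 8) ^ k * (1 / 8) ^ k) := by
    intro k
    rw [← mul_pow, show (1 / 8 : ℝ) * (1 / 8) = 1 / 64 by norm_num, one_div_pow]
    field_simp
  have hs' : ∀ k : ℕ, ∀ t : ℝ, t / (1000 * 64 ^ k) = t / 1000 * ((1 / 8) ^ k * (1 / 8) ^ k) := by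
    intro k t
    rw [← mul_pow, show (1 / 8 : ℝ) * (1 / 8) = 1 / 64 by norm_num, one_div_pow]
    field_simp
  have h82 : ∀ k : ℕ, ((1 / 8 : ℝ)) ^ k ≤ (1 / 2) ^ k := fun k =>
    pow_le_pow_left₀ (by norm_num) (by norm_num) k
  have h88 : ∀ k : ℕ, (8 : ℝ) ^ k * (1 / 8) ^ k = 1 := fun k => by
    rw [← mul_pow]; norm_num
  have hmaps : ∀ x : ℕ ⊕ ℕ → E, (∀ i, x i ∈ K i) → ∀ i, F x i ∈ K i := by
    rintro x hx (k | k)
    · cases k with
      | zero =>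
        refine ⟨Kp.zero_mem, ?_⟩
        show ‖(0 : E)‖ ≤ _
        rw [norm_zero, pow_zero, sub_self, mul_zero]
      | succ k =>
        obtain ⟨h1, h2⟩ := hg x hx k
        have h3 : x (Sum.inl k) ∈ Kp ∧ ‖x (Sum.inl k)‖ ≤ u / 4 * (1 - (1 / 2) ^ k) :=
          hx (Sum.inl k)
        refine ⟨Kp.add_mem (hTpK _ h3.1) (hPpK _ h1), ?_⟩
        show ‖Tp (x (Sum.inl k)) + Pp (g x k)‖ ≤ u / 4 * (1 - (1 / 2) ^ (k + 1))
        have h4 := hTp (x (Sum.inl k))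
        have h5 := hPp (g x k)
        refine (norm_add_le _ _).trans ?_
        rw [hs] at h2
        have h6 : (1 / 8 : ℝ) ^ k * (1 / 8) ^ k ≤ (1 / 2) ^ k := by
          calc (1 / 8 : ℝ) ^ k * (1 / 8) ^ k ≤ (1 / 2) ^ k * 1 :=
                mul_le_mul (h82 k) (hp8' k) (hp8 k).le (hp2 k).le
            _ = _ := mul_one _
        have h7 : u / 1000 * ((1 / 8) ^ k * (1 / 8) ^ k) ≤ u / 1000 * (1 / 2) ^ k :=
          mul_le_mul_of_nonneg_left h6 (by positivity)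
        have h8 := mul_pos hu (hp2 k)
        rw [pow_succ]
        nlinarith
    · cases k with
      | zero =>
        refine ⟨Km.zero_mem, ?_⟩
        show ‖(0 : E)‖ ≤ _
        rw [norm_zero]
        positivity
      | succ k =>
        obtain ⟨h1, h2⟩ := hg x hx k
        have h3 : x (Sum.inr (k + 2)) ∈ Km ∧ ‖x (Sum.inr (k + 2))‖ ≤ u / 4 * (1 / 8) ^ (k + 2) :=
          hx (Sum.inr (k + 2))
        refine ⟨Km.sub_mem (hTmK _ h3.1) (hPmK _ h1), ?_⟩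
        show ‖Tm (x (Sum.inr (k + 2))) - Pm (g x k)‖ ≤ u / 4 * (1 / 8) ^ (k + 1)
        have h4 := hTm (x (Sum.inr (k + 2)))
        have h5 := hPm (g x k)
        have h3' := h3.2
        refine (norm_sub_le _ _).trans ?_
        rw [hs] at h2
        have h6 : (1 / 8 : ℝ) ^ k * (1 / 8) ^ k ≤ (1 / 8) ^ k := by
          calc (1 / 8 : ℝ) ^ k * (1 / 8) ^ k ≤ (1 / 8) ^ k * 1 :=
                mul_le_mul_of_nonneg_left (hp8' k) (hp8 k).le
            _ = _ := mul_one _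
        have h7 : u / 1000 * ((1 / 8) ^ k * (1 / 8) ^ k) ≤ u / 1000 * (1 / 8) ^ k :=
          mul_le_mul_of_nonneg_left h6 (by positivity)
        have h8 := mul_pos hu (hp8 k)
        rw [pow_add] at h3'
        rw [pow_succ]
        nlinarith
  have hzero : ∀ i, (fun _ : ℕ ⊕ ℕ => (0 : E)) i ∈ K i := by
    rintro (k | k)
    · refine ⟨Kp.zero_mem, ?_⟩
      show ‖(0 : E)‖ ≤ u / 4 * (1 - (1 / 2) ^ k)
      rw [norm_zero]
      have := hp2' k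
      apply mul_nonneg (by positivity)
      linarith
    · refine ⟨Km.zero_mem, ?_⟩
      show ‖(0 : E)‖ ≤ u / 4 * (1 / 8) ^ k
      rw [norm_zero]
      positivity
  have hclosed : ∀ i, IsClosed (K i) := by
    rintro (k | k)
    · exact hKp.inter (isClosed_le continuous_norm continuous_const)
    · exact hKm.inter (isClosed_le continuous_norm continuous_const)
  have hw : ∀ i, 0 ≤ w i := by
    rintro (k | k)
    · show (0 : ℝ) ≤ 8 ^ k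
      positivity
    · exact (hp8 k).le
  have hlip : ∀ x y : ℕ ⊕ ℕ → E, (∀ i, x i ∈ K i) → (∀ i, y i ∈ K i) → ∀ t : ℝ, 0 ≤ t →
      (∀ i, ‖x i - y i‖ ≤ t * w i) → ∀ i, ‖F x i - F y i‖ ≤ t / 2 * w i := by
    intro x y hx hy t ht hxy
    have hl : ∀ k, ‖x (Sum.inl k) - y (Sum.inl k)‖ ≤ t * 8 ^ k := fun k => hxy (Sum.inl k)
    have hr : ∀ k, ‖x (Sum.inr k) - y (Sum.inr k)‖ ≤ t * (1 / 8) ^ k := fun k => hxy (Sum.inr k)
    have hTpd : ∀ a b : E, ‖Tp a - Tp b‖ ≤ ‖a - b‖ := fun a b => by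
      rw [← map_sub]; exact hTp _
    have hTmd : ∀ a b : E, ‖Tm a - Tm b‖ ≤ ‖a - b‖ := fun a b => by
      rw [← map_sub]; exact hTm _
    have hPpd : ∀ a b : E, ‖Pp a - Pp b‖ ≤ 3 * ‖a - b‖ := fun a b => by
      rw [← map_sub]; exact hPp _
    have hPmd : ∀ a b : E, ‖Pm a - Pm b‖ ≤ 3 * ‖a - b‖ := fun a b => by
      rw [← map_sub]; exact hPm _
    have hgd : ∀ k, ‖g x k - g y k‖ ≤ t * (11 / 1000) * (1 / 8) ^ k := by
      intro k
      obtain ⟨h1, h2, h3, h4⟩ := hargs x hx k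
      obtain ⟨h1', h2', h3', h4'⟩ := hargs y hy k
      have h5 := hΓ1 k _ h1 _ h2 _ h1' _ h2' h3 h4 h3' h4'
      refine h5.trans ?_
      have e1 : ‖Tp (x (Sum.inl k)) + x (Sum.inr (k + 1)) -
          (Tp (y (Sum.inl k)) + y (Sum.inr (k + 1)))‖ ≤ t * 8 ^ k + t * (1 / 8) ^ (k + 1) := by
        rw [add_sub_add_comm]
        exact (norm_add_le _ _).trans (add_le_add ((hTpd _ _).trans (hl k)) (hr (k + 1)))
      have e2 : ‖x (Sum.inl (k + 1)) + Tm (x (Sum.inr (k + 2))) -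
          (y (Sum.inl (k + 1)) + Tm (y (Sum.inr (k + 2))))‖ ≤
          t * 8 ^ (k + 1) + t * (1 / 8) ^ (k + 2) := by
        rw [add_sub_add_comm]
        exact (norm_add_le _ _).trans (add_le_add (hl (k + 1)) ((hTmd _ _).trans (hr (k + 2))))
      have e3 : t * 8 ^ k + t * (1 / 8) ^ (k + 1) + (t * 8 ^ (k + 1) + t * (1 / 8) ^ (k + 2)) ≤
          11 * t * 8 ^ k := by
        have f1 : (1 / 8 : ℝ) ^ (k + 1) ≤ 8 ^ k := (hp8' _).trans (one_le_pow₀ (by norm_num))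
        have f2 : (1 / 8 : ℝ) ^ (k + 2) ≤ 8 ^ k := (hp8' _).trans (one_le_pow₀ (by norm_num))
        have f3 := mul_le_mul_of_nonneg_left f1 ht
        have f4 := mul_le_mul_of_nonneg_left f2 ht
        have f5 : t * 8 ^ (k + 1) = 8 * (t * 8 ^ k) := by rw [pow_succ]; ring
        rw [f5]
        linarith
      calc _ ≤ (11 * t * 8 ^ k) / (1000 * 64 ^ k) := by
            apply div_le_div_of_nonneg_right _ (by positivity)
            linarith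
        _ = t * (11 / 1000) * ((8 : ℝ) ^ k * (1 / 8) ^ k) * (1 / 8) ^ k := by
            rw [hs']; ring
        _ = _ := by rw [h88, mul_one]
    have ht8 : ∀ k : ℕ, t * (1 / 8) ^ k ≤ t * 8 ^ k := fun k =>
      mul_le_mul_of_nonneg_left ((hp8' k).trans (one_le_pow₀ (by norm_num))) ht
    rintro (k | k)
    · cases k with
      | zero =>
        show ‖(0 : E) - 0‖ ≤ t / 2 * 8 ^ 0
        rw [sub_self, norm_zero]
        positivity
      | succ k =>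
        show ‖Tp (x (Sum.inl k)) + Pp (g x k) - (Tp (y (Sum.inl k)) + Pp (g y k))‖ ≤
          t / 2 * 8 ^ (k + 1)
        rw [add_sub_add_comm]
        have h1 := (hTpd _ _).trans (hl k)
        have h2 := (hPpd (g x k) (g y k)).trans (mul_le_mul_of_nonneg_left (hgd k) (by norm_num))
        have h3 := ht8 k
        have h4 : 0 ≤ t * 8 ^ k := by positivity
        refine (norm_add_le _ _).trans ((add_le_add h1 h2).trans ?_)
        rw [pow_succ]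
        nlinarith
    · cases k with
      | zero =>
        show ‖(0 : E) - 0‖ ≤ t / 2 * (1 / 8) ^ 0
        rw [sub_self, norm_zero]
        positivity
      | succ k =>
        show ‖Tm (x (Sum.inr (k + 2))) - Pm (g x k) -
          (Tm (y (Sum.inr (k + 2))) - Pm (g y k))‖ ≤ t / 2 * (1 / 8) ^ (k + 1)
        rw [sub_sub_sub_comm]
        have h1 := (hTmd (x (Sum.inr (k + 2))) (y (Sum.inr (k + 2)))).trans (hr (k + 2))
        have h2 := (hPmd (g x k) (g y k)).trans (mul_le_mul_of_nonneg_left (hgd k) (by norm_num))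
        have h4 : 0 ≤ t * (1 / 8) ^ k := mul_nonneg ht (hp8 k).le
        have e1 : (1 / 8 : ℝ) ^ (k + 2) = (1 / 8) ^ k * (1 / 64) := by
          rw [pow_add]
          norm_num
        have e2 : (1 / 8 : ℝ) ^ (k + 1) = (1 / 8) ^ k * (1 / 8) := pow_succ _ _
        refine (norm_sub_le _ _).trans ((add_le_add h1 h2).trans ?_)
        rw [e1, e2]
        nlinarith
  have h0 : ∀ i, ‖(fun _ : ℕ ⊕ ℕ => (0 : E)) i - F (fun _ => 0) i‖ ≤ u / 4 * w i := by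
    intro i
    have h1 := hmaps _ hzero i
    rw [zero_sub, norm_neg]
    rcases i with k | k
    · have h2 : ‖F (fun _ => 0) (Sum.inl k)‖ ≤ u / 4 * (1 - (1 / 2) ^ k) := h1.2
      refine h2.trans (mul_le_mul_of_nonneg_left ?_ (by positivity))
      show (1 : ℝ) - (1 / 2) ^ k ≤ 8 ^ k
      have h3 := hp2 k
      have h4 : (1 : ℝ) ≤ 8 ^ k := one_le_pow₀ (by norm_num)
      linarith
    · exact h1.2
  obtain ⟨x, hxK, hx⟩ := fix K hclosed w hw F hmaps hlip (fun _ => 0) hzero (u / 4) h0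
  refine ⟨fun k => x (Sum.inl k), fun k => x (Sum.inr k), fun k => ?_, ?_, fun k => ?_⟩
  · obtain ⟨h1, h2, h3, h4⟩ := hin x hxK k
    exact ⟨h1, h3, h2, h4⟩
  · exact (congrFun hx (Sum.inl 0)).symm
  · have h1 : Tp (x (Sum.inl k)) + Pp (g x k) = x (Sum.inl (k + 1)) :=
      congrFun hx (Sum.inl (k + 1))
    have h2 : Tm (x (Sum.inr (k + 2))) - Pm (g x k) = x (Sum.inr (k + 1)) :=
      congrFun hx (Sum.inr (k + 1))
    have h3 := hP (g x k)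
    show x (Sum.inl (k + 1)) - x (Sum.inr (k + 1)) =
      Tp (x (Sum.inl k)) - Tm (x (Sum.inr (k + 2))) + g x k
    rw [← h1, ← h2]
    calc Tp (x (Sum.inl k)) + Pp (g x k) - (Tm (x (Sum.inr (k + 2))) - Pm (g x k))
        = Tp (x (Sum.inl k)) - Tm (x (Sum.inr (k + 2))) + (Pp (g x k) + Pm (g x k)) := by abel
      _ = _ := by rw [h3]

end Pool.Agent.Strip
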