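import Pool.Agent.Lib_MP_1858fb_w.Wiener
import Pool.Agent.Lib_MP_1209e6_kc.BGrow

/-!
# Line S of MP_1209e6_ag: the chain of strips, definitions

Lines `Re w = 2k`, tube `k` on the strip between the lines `2k` and `2k+2` (tube `0` on the half plane
`Re w ≤ 2`).
-/

set_option autoImplicit false

open Filter Topology Pool.Agent.CampanaFlow Pool.Agent.CampanaB Pool.Agent.Lib_MP_1858fb_w

namespace Pool.Agent.Strip

/-- the weight `1` -/
noncomputable def ω1 : Wt := Wt.rad 1 one_pos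

theorem ω1_w (k : ℤ) : ω1.w k = 1 := one_zpow k

/-- the Wiener algebra of the circle -/
abbrev WW : Type := W ω1

theorem zpow_le_ω1 {t : ℂ} (ht : ‖t‖ = 1) (k : ℤ) : ‖t ^ k‖ ≤ ω1.w k := by
  rw [norm_zpow, ht, one_zpow, ω1_w]

/-- value at a point of the circle, an algebra homomorphism -/
noncomputable def evc (t : ℂ) (ht : ‖t‖ = 1) : WW →ₐ[ℂ] ℂ :=
  W.ev t (fun h => by rw [h, norm_zero] at ht; exact zero_ne_one ht) (zpow_le_ω1 ht)

theorem evc_apply (t : ℂ) (ht : ‖t‖ = 1) (f : WW) : evc t ht f = W.val t f := rfl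

theorem norm_evc_le (t : ℂ) (ht : ‖t‖ = 1) (f : WW) : ‖evc t ht f‖ ≤ ‖f‖ :=
  W.norm_ev_le t _ (zpow_le_ω1 ht) f

/-- Cayley coordinate of the line `Re w = 2k`: `‖cay k w‖ ≤ 1` for `Re w ≥ 2k`, `= 1` on the line,
`w = ∞` corresponds to `1`. -/
noncomputable def cay (k : ℕ) (w : ℂ) : ℂ := (w - 2 * k - 1) / (w - 2 * k + 1)

/-- open strip of the tube `k` -/
def strip (k : ℕ) : Set ℂ := {w | (k = 0 ∨ 2 * (k : ℝ) < w.re) ∧ w.re < 2 * k + 2}

/-- closed strip of the tube `k` -/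
def cstrip (k : ℕ) : Set ℂ := {w | (k = 0 ∨ 2 * (k : ℝ) ≤ w.re) ∧ w.re ≤ 2 * k + 2}

/-- base function: small on `Re w = 0`, near `1` on `Re w = 2` -/
noncomputable def Zb (lam : ℝ) (w : ℂ) : ℂ :=
  1 - Complex.exp (-Complex.exp (-(lam * Complex.cos (Real.pi * w / 2))))

section pt

variable {S : Type} [CommRing S] [Algebra ℂ S]
variable {A : Type} [NormedCommRing A] [NormedAlgebra ℂ A]

/-- `q = p ∘ exp (a_1 ∂_1) ∘ … ∘ exp (a_n ∂_n)`, an `A`-valued point of `S` -/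
def IsPt {n : ℕ} (dy : Fin n → Derivation ℂ S S) (p : S →ₐ[ℂ] ℂ) (a : Fin n → A)
    (q : S →ₐ[ℂ] A) : Prop :=
  ∃ Q : ℕ → S →ₐ[ℂ] A, Q 0 = (Algebra.ofId ℂ A).comp p ∧ Q n = q ∧
    ∀ i : Fin n, IsFlowW (dy i) (Q i) (a i) (Q (i + 1))

open Classical in
/-- the point with coordinates `y(p) + a` near `p` -/
noncomputable def pt {n : ℕ} (dy : Fin n → Derivation ℂ S S) (p : S →ₐ[ℂ] ℂ) (a : Fin n → A) :
    S →ₐ[ℂ] A :=
  if h : ∃ q, IsPt dy p a q then h.choose else (Algebra.ofId ℂ A).comp p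

open Classical in
/-- the flow of the point `q` during the time `z` -/
noncomputable def fl (D : Derivation ℂ S S) (q : S →ₐ[ℂ] A) (z : A) : S →ₐ[ℂ] A :=
  if h : ∃ q', IsFlowW D q z q' then h.choose else q

/-- displacement of the coordinates `y` by the flow of `D` during the time `z`, at the point with
coordinates `y(p) + a` -/
noncomputable def disp {n : ℕ} (dy : Fin n → Derivation ℂ S S) (y : Fin n → S) (p : S →ₐ[ℂ] ℂ)
    (D : Derivation ℂ S S) (a : Fin n → A) (z : A) (l : Fin n) : A :=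
  fl D (pt dy p a) z (y l) - pt dy p a (y l)

theorem IsPt.unique [NormOneClass A] [CompleteSpace A] {n : ℕ} {dy : Fin n → Derivation ℂ S S}
    {p : S →ₐ[ℂ] ℂ} {a : Fin n → A} {q q' : S →ₐ[ℂ] A} (h : IsPt dy p a q) (h' : IsPt dy p a q') :
    q = q' := by
  obtain ⟨Q, h0, h1, h2⟩ := h
  obtain ⟨Q', h0', h1', h2'⟩ := h'
  have key : ∀ i, i ≤ n → Q i = Q' i := by
    intro i
    induction i with
    | zero => intro _; rw [h0, h0']
    | succ i ih =>
      intro hi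
      have h3 := h2 ⟨i, hi⟩
      have h4 := h2' ⟨i, hi⟩
      have h5 := ih (Nat.le_of_succ_le hi)
      change IsFlowW (dy ⟨i, hi⟩) (Q i) (a ⟨i, hi⟩) (Q (i + 1)) at h3
      change IsFlowW (dy ⟨i, hi⟩) (Q' i) (a ⟨i, hi⟩) (Q' (i + 1)) at h4
      rw [h5] at h3
      exact h3.unique h4
  rw [← h1, ← h1', key n le_rfl]

theorem pt_eq [NormOneClass A] [CompleteSpace A] {n : ℕ} {dy : Fin n → Derivation ℂ S S}
    {p : S →ₐ[ℂ] ℂ} {a : Fin n → A} {q : S →ₐ[ℂ] A} (h : IsPt dy p a q) : pt dy p a = q := by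
  have hex : ∃ q, IsPt dy p a q := ⟨q, h⟩
  unfold pt
  rw [dif_pos hex]
  exact hex.choose_spec.unique h

theorem fl_eq [NormOneClass A] [CompleteSpace A] {D : Derivation ℂ S S} {q : S →ₐ[ℂ] A} {z : A}
    {q' : S →ₐ[ℂ] A} (h : IsFlowW D q z q') : fl D q z = q' := by
  have hex : ∃ q', IsFlowW D q z q' := ⟨q', h⟩
  unfold fl
  rw [dif_pos hex]
  exact hex.choose_spec.unique h

end pt

end Pool.Agent.Strip
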