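import Pool.Agent.Lib_MP_1209e6_st.Univ

/-!
# Power series on multiples of a fixed element

For `u` in a commutative Banach algebra and a power series `F` of order at least two, `F (u g)` is
`u` times an element which depends on `g` with a small Lipschitz constant, as soon as `u g` is small.
-/

set_option autoImplicit false

open scoped BigOperators
open Finset

noncomputable section

namespace Pool.Agent.NTU

section list

variable {ι : Type*} {W : Type*} [NormedCommRing W] [NormOneClass W]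

omit [NormOneClass W] in
theorem list_mul (u : W) (g : ι → W) (l : List ι) :
    u ^ l.length * (l.map g).prod = (l.map fun i => u * g i).prod := by
  induction l with
  | nil => simp
  | cons a l ih =>
    rw [List.length_cons, List.map_cons, List.prod_cons, List.map_cons, List.prod_cons, ← ih,
      pow_succ]
    ring

theorem list_norm {X : ι → W} {r : ℝ} (hX : ∀ i, ‖X i‖ ≤ r) (l : List ι) :
    ‖(l.map X).prod‖ ≤ r ^ l.length := by
  induction l with
  | nil => simp
  | cons a l ih =>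
    rw [List.length_cons, List.map_cons, List.prod_cons, pow_succ, mul_comm (r ^ _)]
    exact (norm_mul_le _ _).trans (mul_le_mul (hX a) ih (norm_nonneg _)
      ((norm_nonneg _).trans (hX a)))

theorem list_sub {u : W} {g h : ι → W} {r δ : ℝ} (hr : 0 ≤ r) (hδ : 0 ≤ δ)
    (hg : ∀ i, ‖u * g i‖ ≤ r)
    (hh : ∀ i, ‖u * h i‖ ≤ r) (hd : ∀ i, ‖g i - h i‖ ≤ δ) (l : List ι) :
    ‖u ^ (l.length - 1) * ((l.map g).prod - (l.map h).prod)‖ ≤
      l.length * r ^ (l.length - 1) * δ := by
  induction l with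
  | nil => simp
  | cons a l ih =>
    have e1 : u ^ ((a :: l).length - 1) * (((a :: l).map g).prod - ((a :: l).map h).prod) =
        (g a - h a) * (u ^ l.length * (l.map g).prod) +
          u ^ l.length * (h a * ((l.map g).prod - (l.map h).prod)) := by
      rw [List.length_cons, Nat.add_sub_cancel, List.map_cons, List.prod_cons, List.map_cons,
        List.prod_cons]
      ring
    have h1 : ‖(g a - h a) * (u ^ l.length * (l.map g).prod)‖ ≤ δ * r ^ l.length := by
      rw [list_mul]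
      exact (norm_mul_le _ _).trans (mul_le_mul (hd a) (list_norm hg l) (norm_nonneg _) hδ)
    have h2 : ‖u ^ l.length * (h a * ((l.map g).prod - (l.map h).prod))‖ ≤
        l.length * r ^ l.length * δ := by
      rcases Nat.eq_zero_or_pos l.length with h0 | h0
      · have hl : l = [] := List.length_eq_zero_iff.1 h0
        rw [hl]
        simp
      · obtain ⟨k, hk⟩ := Nat.exists_eq_succ_of_ne_zero h0.ne'
        have e2 : u ^ l.length * (h a * ((l.map g).prod - (l.map h).prod)) =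
            (u * h a) * (u ^ (l.length - 1) * ((l.map g).prod - (l.map h).prod)) := by
          rw [hk, Nat.succ_sub_one, pow_succ]
          ring
        rw [e2]
        refine (norm_mul_le _ _).trans ((mul_le_mul (hh a) ih (norm_nonneg _) hr).trans ?_)
        rw [hk, Nat.succ_sub_one, pow_succ]
        exact le_of_eq (by ring)
    rw [e1]
    refine (norm_add_le _ _).trans ((add_le_add h1 h2).trans ?_)
    rw [List.length_cons, Nat.add_sub_cancel]
    push_cast
    exact le_of_eq (by ring)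

end list

section mon

variable {n : ℕ} {W : Type*} [NormedCommRing W] [NormOneClass W]

/-- the list of indices of a monomial -/
def idx (α : Fin n → ℕ) : List (Fin n) :=
  (Finset.univ : Finset (Fin n)).toList.flatMap fun i => List.replicate (α i) i

theorem idx_length (α : Fin n → ℕ) : (idx α).length = dg α := by
  unfold idx dg
  rw [List.length_flatMap, ← Finset.sum_map_toList]
  simp

omit [NormOneClass W] in
theorem idx_prod (α : Fin n → ℕ) (X : Fin n → W) : ((idx α).map X).prod = mon X α := by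
  unfold idx mon
  rw [← Finset.prod_map_toList]
  generalize (Finset.univ : Finset (Fin n)).toList = L
  induction L with
  | nil => simp
  | cons a L ih =>
    rw [List.flatMap_cons, List.map_append, List.prod_append, ih, List.map_cons, List.prod_cons,
      List.map_replicate, List.prod_replicate]

omit [NormOneClass W] in
theorem mon_mul (u : W) (g : Fin n → W) (α : Fin n → ℕ) :
    u ^ dg α * mon g α = mon (fun i => u * g i) α := by
  rw [← idx_length, ← idx_prod, ← idx_prod, list_mul]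

theorem monE_sub_le {u : W} {g h : Fin n → W} {r δ : ℝ} (hr : 0 ≤ r) (hδ : 0 ≤ δ)
    (hg : ∀ i, ‖u * g i‖ ≤ r)
    (hh : ∀ i, ‖u * h i‖ ≤ r) (hd : ∀ i, ‖g i - h i‖ ≤ δ) (α : Fin n → ℕ) :
    ‖u ^ (dg α - 1) * mon g α - u ^ (dg α - 1) * mon h α‖ ≤ dg α * r ^ (dg α - 1) * δ := by
  rw [← mul_sub, ← idx_length, ← idx_prod, ← idx_prod]
  exact list_sub hr hδ hg hh hd _

end mon

namespace U

variable {n : ℕ} {W : Type*} [NormedCommRing W] [NormOneClass W] [NormedAlgebra ℂ W]
  [CompleteSpace W]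

/-- `F (u g) / u` for `F` of order at least one -/
def evE (u : W) (g : Fin n → W) (F : U n) : W :=
  ∑' α : Fin n →₀ ℕ, F.co α • (u ^ (dg (α : Fin n → ℕ) - 1) * mon g α)

theorem two_pow_bound {r : ℝ} (hr0 : 0 ≤ r) (hr : 2 * r ≤ 1) {m : ℕ} (hm : 2 ≤ m) :
    (m : ℝ) * r ^ (m - 1) ≤ 2 * r := by
  obtain ⟨k, hk⟩ := Nat.exists_eq_add_of_le hm
  rw [hk]
  have h4 : ∀ k : ℕ, (k + 2 : ℝ) ≤ 2 * 2 ^ k := by
    intro k
    induction k with
    | zero => norm_num
    | succ k ih =>
      push_cast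
      rw [pow_succ]
      have : (1 : ℝ) ≤ 2 ^ k := one_le_pow₀ (by norm_num)
      nlinarith
  have h5 : (2 * r) ^ k ≤ 1 := pow_le_one₀ (by positivity) hr
  have e : 2 + k - 1 = k + 1 := by omega
  rw [e, pow_succ]
  push_cast
  calc (2 + (k : ℝ)) * (r ^ k * r) ≤ (2 * 2 ^ k) * (r ^ k * r) :=
        mul_le_mul_of_nonneg_right (by linarith [h4 k]) (by positivity)
    _ = 2 * r * (2 * r) ^ k := by rw [mul_pow]; ring
    _ ≤ 2 * r * 1 := mul_le_mul_of_nonneg_left h5 (by positivity)
    _ = 2 * r := by ring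

omit [CompleteSpace W] in
theorem evE_term_sub {u : W} {g h : Fin n → W} {r δ : ℝ} (hr0 : 0 ≤ r) (hr : 2 * r ≤ 1)
    (hδ : 0 ≤ δ) (hg : ∀ i, ‖u * g i‖ ≤ r)
    (hh : ∀ i, ‖u * h i‖ ≤ r) (hd : ∀ i, ‖g i - h i‖ ≤ δ) (F : U n) (α : Fin n →₀ ℕ) :
    ‖(tail F).co α • (u ^ (dg (α : Fin n → ℕ) - 1) * mon g α) -
      (tail F).co α • (u ^ (dg (α : Fin n → ℕ) - 1) * mon h α)‖ ≤ (2 * r * δ) * ‖F.co α‖ := by
  rw [← smul_sub, norm_smul, co_tail]
  by_cases h2 : 2 ≤ dg (α : Fin n → ℕ)
  · rw [if_pos h2, mul_comm]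
    refine mul_le_mul_of_nonneg_right ((monE_sub_le hr0 hδ hg hh hd _).trans ?_) (norm_nonneg _)
    exact mul_le_mul_of_nonneg_right (two_pow_bound hr0 hr h2) hδ
  · rw [if_neg h2, norm_zero, zero_mul]
    positivity

omit [CompleteSpace W] in
theorem evE_norm_summ {u : W} {g : Fin n → W} {r : ℝ} (hr0 : 0 ≤ r) (hr : 2 * r ≤ 1)
    (hg : ∀ i, ‖u * g i‖ ≤ r) (F : U n) :
    Summable fun α : Fin n →₀ ℕ =>
      ‖(tail F).co α • (u ^ (dg (α : Fin n → ℕ) - 1) * mon g α)‖ := by
  obtain ⟨ρ, hρ⟩ : ∃ ρ : ℝ, ∀ i, ‖g i‖ ≤ ρ := by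
    refine ⟨∑ i, ‖g i‖, fun i => ?_⟩
    exact Finset.single_le_sum (f := fun i => ‖g i‖) (fun j _ => norm_nonneg _)
      (Finset.mem_univ i)
  have hρ0 : 0 ≤ |ρ| := abs_nonneg ρ
  have hs : Summable fun α => (2 * r * |ρ|) * ‖F.co α‖ := F.summ.mul_left _
  refine Summable.of_nonneg_of_le (fun _ => norm_nonneg _) (fun α => ?_) hs
  have h := evE_term_sub (u := u) (g := g) (h := fun _ => 0) hr0 hr hρ0 hg
    (fun i => by rw [mul_zero, norm_zero]; exact hr0)
    (fun i => by rw [sub_zero]; exact (hρ i).trans (le_abs_self ρ)) F α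
  by_cases h2 : 2 ≤ dg (α : Fin n → ℕ)
  · have e : mon (fun _ : Fin n => (0 : W)) (α : Fin n → ℕ) = 0 := by
      unfold mon
      have : ∃ i, (α : Fin n → ℕ) i ≠ 0 := by
        by_contra hcon
        push Not at hcon
        unfold dg at h2
        rw [Finset.sum_eq_zero (fun i _ => hcon i)] at h2
        omega
      obtain ⟨i, hi⟩ := this
      exact Finset.prod_eq_zero (Finset.mem_univ i) (zero_pow hi)
    rw [e, mul_zero, smul_zero, sub_zero] at h
    exact h
  · rw [co_tail, if_neg h2, zero_smul, norm_zero]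
    positivity

/-- `u` times the quotient is the value -/
theorem mul_evE {u : W} {g : Fin n → W} {r : ℝ} (hr0 : 0 ≤ r) (hr : 2 * r ≤ 1)
    (hg : ∀ i, ‖u * g i‖ ≤ r) (F : U n) :
    u * evE u g (tail F) = ev (fun i => u * g i) (tail F) := by
  unfold evE ev
  rw [← (evE_norm_summ hr0 hr hg F).of_norm.tsum_mul_left]
  refine tsum_congr fun α => ?_
  by_cases h2 : 2 ≤ dg (α : Fin n → ℕ)
  · obtain ⟨k, hk⟩ := Nat.exists_eq_add_of_le h2
    rw [mul_smul_comm, ← mul_assoc, ← pow_succ', ← mon_mul,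
      show dg (α : Fin n → ℕ) - 1 + 1 = dg (α : Fin n → ℕ) by omega]
  · rw [co_tail, if_neg h2, zero_smul, zero_smul, mul_zero]

/-- Lipschitz estimate -/
theorem evE_sub_le {u : W} {g h : Fin n → W} {r δ : ℝ} (hr0 : 0 ≤ r) (hr : 2 * r ≤ 1)
    (hδ : 0 ≤ δ) (hg : ∀ i, ‖u * g i‖ ≤ r)
    (hh : ∀ i, ‖u * h i‖ ≤ r) (hd : ∀ i, ‖g i - h i‖ ≤ δ) (F : U n) :
    ‖evE u g (tail F) - evE u h (tail F)‖ ≤ 2 * r * ‖F‖ * δ := by
  have hb := evE_term_sub hr0 hr hδ hg hh hd F
  have hs : Summable fun α => (2 * r * δ) * ‖F.co α‖ := F.summ.mul_left _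
  have hsn : Summable fun α : Fin n →₀ ℕ =>
      ‖(tail F).co α • (u ^ (dg (α : Fin n → ℕ) - 1) * mon g α) -
      (tail F).co α • (u ^ (dg (α : Fin n → ℕ) - 1) * mon h α)‖ :=
    Summable.of_nonneg_of_le (fun _ => norm_nonneg _) hb hs
  have e : evE u g (tail F) - evE u h (tail F) = ∑' α : Fin n →₀ ℕ,
      ((tail F).co α • (u ^ (dg (α : Fin n → ℕ) - 1) * mon g α) -
      (tail F).co α • (u ^ (dg (α : Fin n → ℕ) - 1) * mon h α)) :=
    ((evE_norm_summ hr0 hr hg F).of_norm.tsum_sub (evE_norm_summ hr0 hr hh F).of_norm).symm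
  rw [e]
  refine (norm_tsum_le_tsum_norm hsn).trans ((hsn.tsum_le_tsum hb hs).trans ?_)
  rw [tsum_mul_left, norm_eq]
  exact le_of_eq (by ring)

/-- bound of the quotient -/
theorem norm_evE_le {u : W} {g : Fin n → W} {r ρ : ℝ} (hr0 : 0 ≤ r) (hr : 2 * r ≤ 1)
    (hρ : 0 ≤ ρ) (hg : ∀ i, ‖u * g i‖ ≤ r) (hg' : ∀ i, ‖g i‖ ≤ ρ) (F : U n) :
    ‖evE u g (tail F)‖ ≤ 2 * r * ‖F‖ * ρ := by
  have h := evE_sub_le (u := u) (g := g) (h := fun _ => 0) hr0 hr hρ hg
    (fun i => by rw [mul_zero, norm_zero]; exact hr0)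
    (fun i => by rw [sub_zero]; exact hg' i) F
  have e : evE u (fun _ : Fin n => (0 : W)) (tail F) = 0 := by
    unfold evE
    refine (tsum_congr (g := fun _ : Fin n →₀ ℕ => (0 : W)) fun α => ?_).trans tsum_zero
    by_cases h2 : 2 ≤ dg (α : Fin n → ℕ)
    · have : ∃ i, (α : Fin n → ℕ) i ≠ 0 := by
        by_contra hcon
        push Not at hcon
        unfold dg at h2
        rw [Finset.sum_eq_zero (fun i _ => hcon i)] at h2
        omega
      obtain ⟨i, hi⟩ := this
      have e : mon (fun _ : Fin n => (0 : W)) (α : Fin n → ℕ) = 0 :=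
        Finset.prod_eq_zero (Finset.mem_univ i) (zero_pow hi)
      rw [e, mul_zero, smul_zero]
    · rw [co_tail, if_neg h2, zero_smul]
  rw [e, sub_zero] at h
  exact h

end U

end Pool.Agent.NTU
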