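import Mathlib

/-!
# The coefficients of a `C^1` function on the circle are absolutely summable
-/

set_option autoImplicit false

open MeasureTheory Set intervalIntegral
open scoped Real Interval

noncomputable section

namespace Pool.Agent.Strips

/-- an absolute constant -/
def fourK : ℝ := 1 + ∑' n : ℤ, 1 / (n : ℝ) ^ 2

theorem fourK_ge : 1 ≤ fourK := by
  unfold fourK
  have : 0 ≤ ∑' n : ℤ, 1 / (n : ℝ) ^ 2 := tsum_nonneg fun n => by positivity
  linarith

/-- `C^1` functions on the circle: coefficients. -/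
theorem four {g g' : ℝ → ℂ} {B M : ℝ} (hM : 0 < M) (hB : ∀ x ∈ Icc (0 : ℝ) 1, ‖g x‖ ≤ B)
    (hc : ContinuousOn g (Icc 0 1)) (hp : g 0 = g 1)
    (hd : ∀ x ∈ Ioo (0 : ℝ) 1, HasDerivAt g (g' x) x)
    (hb : ∀ x ∈ Ioo (0 : ℝ) 1, ‖g' x‖ ≤ M) (hm : ContinuousOn g' (Ioo 0 1)) :
    ∃ a : ℤ → ℂ, (Summable fun n => ‖a n‖) ∧ ∑' n, ‖a n‖ ≤ B + fourK * M ∧
      ∀ x ∈ Icc (0 : ℝ) 1, HasSum (fun n : ℤ => a n * Complex.exp (2 * π * Complex.I * n * x)) (g x) := by
  have hT : Fact ((0 : ℝ) < 1) := ⟨one_pos⟩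
  have hab : (0 : ℝ) < 0 + 1 := by norm_num
  have e1 : (0 : ℝ) + 1 - 0 = 1 := by norm_num
  have h01 : (0 : ℝ) + 1 = 1 := by norm_num
  have hasm : AEStronglyMeasurable g' (volume.restrict (Ioc (0 : ℝ) (0 + 1))) := by
    rw [h01, ← restrict_Ioo_eq_restrict_Ioc]
    exact hm.aestronglyMeasurable measurableSet_Ioo
  have hbd : ∀ᵐ x ∂(volume.restrict (Ioc (0 : ℝ) (0 + 1))), ‖g' x‖ ≤ M := by
    rw [h01, ← restrict_Ioo_eq_restrict_Ioc]
    exact (ae_restrict_iff' measurableSet_Ioo).2 (Filter.Eventually.of_forall hb)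
  have hL2 : MemLp g' 2 (volume.restrict (Ioc (0 : ℝ) (0 + 1))) := MemLp.of_bound hasm M hbd
  have hint : IntervalIntegrable g' volume 0 (0 + 1) := by
    rw [intervalIntegrable_iff_integrableOn_Ioc_of_le hab.le]
    exact (hL2.mono_exponent (by norm_num)).integrable le_rfl
  have hpar := hasSum_sq_fourierCoeffOn hab hL2
  have hint2 : ((0 : ℝ) + 1 - 0)⁻¹ • ∫ x in (0 : ℝ)..(0 + 1), ‖g' x‖ ^ 2 ≤ M ^ 2 := by
    rw [e1, inv_one, one_smul, intervalIntegral.integral_of_le hab.le]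
    calc ∫ x in Ioc (0 : ℝ) (0 + 1), ‖g' x‖ ^ 2 ≤ ∫ x in Ioc (0 : ℝ) (0 + 1), M ^ 2 := by
          refine integral_mono_ae ?_ (integrable_const _) ?_
          · exact hL2.integrable_norm_pow (by norm_num)
          · filter_upwards [hbd] with x hx
            exact pow_le_pow_left₀ (norm_nonneg _) hx 2
      _ = M ^ 2 := by simp
  have hcoef : ∀ n : ℤ, n ≠ 0 → ‖fourierCoeffOn hab g n‖ ≤
      1 / 2 * (‖fourierCoeffOn hab g' n‖ ^ 2 / M + M * (1 / (n : ℝ) ^ 2)) := by
    intro n hn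
    have h := fourierCoeffOn_of_hasDerivAt_Ioo hab (f := g) (f' := g') hn
      (by rw [uIcc_of_le hab.le, h01]; exact hc)
      (by
        intro x hx
        rw [min_eq_left hab.le, max_eq_right hab.le, h01] at hx
        exact hd x hx) hint
    have e8 : g (0 + 1) = g 0 := by rw [h01, hp]
    rw [e8, sub_self, mul_zero, zero_sub] at h
    have hn0 : (0 : ℝ) < |(n : ℝ)| := abs_pos.2 (by exact_mod_cast hn)
    have h3 : ‖fourierCoeffOn hab g n‖ ≤ ‖fourierCoeffOn hab g' n‖ * |(n : ℝ)|⁻¹ := by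
      rw [h, norm_mul, norm_neg, norm_mul, norm_div, norm_mul, norm_mul, norm_mul]
      have e2 : ‖(((0 : ℝ) + 1 : ℝ) : ℂ) - ((0 : ℝ) : ℂ)‖ = 1 := by simp
      have e3 : ‖(-2 : ℂ)‖ = 2 := by simp
      have e4 : ‖(π : ℂ)‖ = π := by
        rw [Complex.norm_real, Real.norm_of_nonneg Real.pi_pos.le]
      have e5 : ‖(n : ℂ)‖ = |(n : ℝ)| := by
        rw [Complex.norm_intCast]
      rw [e2, e3, e4, e5, Complex.norm_I, norm_one, one_mul, mul_one, mul_comm]
      refine mul_le_mul_of_nonneg_left ?_ (norm_nonneg _)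
      rw [one_div]
      refine inv_anti₀ hn0 ?_
      have : (1 : ℝ) ≤ 2 * π := by linarith [Real.pi_gt_three]
      nlinarith
    refine h3.trans ?_
    set X := ‖fourierCoeffOn hab g' n‖ with hX
    have hX0 : 0 ≤ X := norm_nonneg _
    have e6 : (1 : ℝ) / (n : ℝ) ^ 2 = (|(n : ℝ)|⁻¹) ^ 2 := by
      rw [one_div, inv_pow, sq_abs]
    rw [e6]
    set Y := |(n : ℝ)|⁻¹
    have h7 : X ^ 2 / M + M * Y ^ 2 - 2 * (X * Y) = (X - M * Y) ^ 2 / M := by
      field_simp
      ring
    have h8 : 0 ≤ (X - M * Y) ^ 2 / M := by positivity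
    linarith
  have hsq : Summable fun n : ℤ => 1 / (n : ℝ) ^ 2 :=
    Real.summable_one_div_int_pow.2 (by norm_num)
  have hS : Summable fun n : ℤ => 1 / 2 * (‖fourierCoeffOn hab g' n‖ ^ 2 / M + M * (1 / (n : ℝ) ^ 2)) :=
    ((hpar.summable.div_const M).add (hsq.mul_left M)).mul_left _
  have hB0 : 0 ≤ B := (norm_nonneg _).trans (hB 0 (by simp))
  have h0 : ‖fourierCoeffOn hab g 0‖ ≤ B := by
    rw [fourierCoeffOn_eq_integral, e1]
    rw [div_one, one_smul]
    refine (intervalIntegral.norm_integral_le_of_norm_le_const (C := B) ?_).trans ?_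
    · intro x hx
      rw [uIoc_of_le hab.le, h01] at hx
      rw [neg_zero, fourier_zero, one_smul]
      exact hB x ⟨hx.1.le, hx.2⟩
    · rw [e1, abs_one, mul_one]
  have hle : ∀ n : ℤ, ‖fourierCoeffOn hab g n‖ ≤ (if n = 0 then B else 0) +
      1 / 2 * (‖fourierCoeffOn hab g' n‖ ^ 2 / M + M * (1 / (n : ℝ) ^ 2)) := by
    intro n
    by_cases hn : n = 0
    · rw [if_pos hn]
      have h11 : ‖fourierCoeffOn hab g n‖ ≤ B := by
        rw [hn]
        exact h0
      exact h11.trans (le_add_of_nonneg_right (by positivity))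
    · rw [if_neg hn]
      exact (hcoef n hn).trans (le_of_eq (zero_add _).symm)
  have hS2 : Summable fun n : ℤ => (if n = 0 then B else 0) +
      1 / 2 * (‖fourierCoeffOn hab g' n‖ ^ 2 / M + M * (1 / (n : ℝ) ^ 2)) :=
    (summable_of_ne_finset_zero (s := {0}) (fun n hn => by
      rw [if_neg (by simpa using hn)])).add hS
  have hsum : Summable fun n : ℤ => ‖fourierCoeffOn hab g n‖ :=
    Summable.of_nonneg_of_le (fun _ => norm_nonneg _) hle hS2
  refine ⟨fun n => fourierCoeffOn hab g n, hsum, ?_, ?_⟩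
  · refine (hsum.tsum_le_tsum hle hS2).trans ?_
    rw [Summable.tsum_add (summable_of_ne_finset_zero (s := {0}) (fun n hn => by
      rw [if_neg (by simpa using hn)])) hS, tsum_ite_eq, tsum_mul_left,
      Summable.tsum_add (hpar.summable.div_const M) (hsq.mul_left M), tsum_mul_left, tsum_div_const,
      hpar.tsum_eq]
    have h9 : (((0 : ℝ) + 1 - 0)⁻¹ • ∫ x in (0 : ℝ)..(0 + 1), ‖g' x‖ ^ 2) / M ≤ M := by
      rw [div_le_iff₀ hM]
      nlinarith [hint2]
    have h10 : 0 ≤ ∑' n : ℤ, 1 / (n : ℝ) ^ 2 := tsum_nonneg fun n => by positivity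
    unfold fourK
    nlinarith
  · intro x hx
    have hcont : Continuous (AddCircle.liftIco (1 : ℝ) 0 g) :=
      AddCircle.liftIco_continuous (by rw [h01]; exact hp) (by rw [h01]; exact hc)
    let G : C(AddCircle (1 : ℝ), ℂ) := ⟨AddCircle.liftIco (1 : ℝ) 0 g, hcont⟩
    have hco : fourierCoeff G = fun n => fourierCoeffOn hab g n := by
      funext n
      exact fourierCoeff_liftIco_eq g n
    have hsG : Summable (fourierCoeff G) := by
      rw [hco]
      exact hsum.of_norm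
    have hG := has_pointwise_sum_fourier_series_of_summable hsG (x : AddCircle (1 : ℝ))
    rw [hco] at hG
    have hGx : G (x : AddCircle (1 : ℝ)) = g x := by
      rcases eq_or_lt_of_le hx.2 with h | h
      · have e7 : (x : AddCircle (1 : ℝ)) = ((0 : ℝ) : AddCircle (1 : ℝ)) := by
          rw [h]
          have := AddCircle.coe_add_period (1 : ℝ) 0
          rw [zero_add] at this
          rw [this]
        rw [e7, h, ← hp]
        exact AddCircle.liftIco_coe_apply (by simp)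
      · exact AddCircle.liftIco_coe_apply (by rw [h01]; exact ⟨hx.1, h⟩)
    rw [hGx] at hG
    refine hG.congr_fun ?_
    intro n
    rw [fourier_coe_apply, smul_eq_mul]
    simp

end Pool.Agent.Strips
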