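import Pool.Agent.Lib_MP_1209e6_st.Four

/-!
# Absolutely convergent expansions on a line in the variable `(w - 1) / (w + 1)`
-/

set_option autoImplicit false

open MeasureTheory Set
open scoped Real

noncomputable section

namespace Pool.Agent.Strips

open Complex (I)

/-- the coordinate of the point `y i` of the imaginary axis -/
def cay (y : ℝ) : ℂ := (I * y - 1) / (I * y + 1)

theorem cay_den (y : ℝ) : (I * y + 1 : ℂ) ≠ 0 := by
  intro h
  have := congrArg Complex.re h
  simp at this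

theorem cay_norm (y : ℝ) : ‖cay y‖ = 1 := by
  unfold cay
  rw [norm_div, div_eq_one_iff_eq (norm_ne_zero_iff.2 (cay_den y))]
  have h1 : (I * y - 1 : ℂ) = -(starRingEnd ℂ) (I * y + 1) := by
    rw [map_add, map_mul, Complex.conj_I, Complex.conj_ofReal, map_one]
    ring
  rw [h1, norm_neg, Complex.norm_conj]

/-- the cotangent parametrisation -/
def ct (x : ℝ) : ℝ := Real.cos (π * x) / Real.sin (π * x)

theorem sin_pos' {x : ℝ} (hx : x ∈ Ioo (0 : ℝ) 1) : 0 < Real.sin (π * x) := by
  refine Real.sin_pos_of_pos_of_lt_pi (by have := Real.pi_pos; have := hx.1; positivity) ?_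
  have := Real.pi_pos
  nlinarith [hx.2]

theorem ct_sq {x : ℝ} (hx : x ∈ Ioo (0 : ℝ) 1) : 1 + ct x ^ 2 = 1 / Real.sin (π * x) ^ 2 := by
  have h := sin_pos' hx
  unfold ct
  field_simp
  exact Real.sin_sq_add_cos_sq _

theorem ct_abs {x : ℝ} (hx : x ∈ Ioo (0 : ℝ) 1) : 1 ≤ (1 + |ct x|) * Real.sin (π * x) := by
  have h := sin_pos' hx
  unfold ct
  rw [abs_div, abs_of_pos h, add_mul, div_mul_cancel₀ _ h.ne', one_mul]
  have h1 := Real.sin_sq_add_cos_sq (π * x)
  have h2 := Real.sin_le_one (π * x)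
  have h3 : |Real.cos (π * x)| ≤ 1 := Real.abs_cos_le_one _
  have h4 := sq_abs (Real.cos (π * x))
  nlinarith [abs_nonneg (Real.cos (π * x))]

theorem ct_deriv {x : ℝ} (hx : x ∈ Ioo (0 : ℝ) 1) :
    HasDerivAt ct (-(π * (1 + ct x ^ 2))) x := by
  have h := sin_pos' hx
  have h1 : HasDerivAt (fun x : ℝ => π * x) π x := by
    simpa using (hasDerivAt_id x).const_mul π
  have h2 : HasDerivAt (fun x : ℝ => Real.cos (π * x)) (-Real.sin (π * x) * π) x :=
    (Real.hasDerivAt_cos (π * x)).comp x h1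
  have h3 : HasDerivAt (fun x : ℝ => Real.sin (π * x)) (Real.cos (π * x) * π) x :=
    (Real.hasDerivAt_sin (π * x)).comp x h1
  have h4 := h2.div h3 h.ne'
  refine h4.congr_deriv ?_
  rw [ct_sq hx]
  have h5 := Real.sin_sq_add_cos_sq (π * x)
  field_simp
  linear_combination (-1) * h5

theorem ct_exp {x : ℝ} (hx : x ∈ Ioo (0 : ℝ) 1) :
    Complex.exp (2 * π * I * x) = cay (ct x) := by
  have h := sin_pos' hx
  have h0 : (Real.sin (π * x) : ℂ) ≠ 0 := by exact_mod_cast h.ne'
  have hd := cay_den (ct x)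
  have e1 : Complex.exp (2 * π * I * x) = Complex.exp ((π * x : ℝ) * I) ^ 2 := by
    rw [← Complex.exp_nat_mul]
    congr 1
    push_cast
    ring
  rw [e1, Complex.exp_mul_I]
  unfold cay
  rw [eq_div_iff hd]
  unfold ct
  rw [Complex.ofReal_div, ← Complex.ofReal_cos, ← Complex.ofReal_sin]
  have h1 : (Real.sin (π * x) : ℂ) ^ 2 + (Real.cos (π * x) : ℂ) ^ 2 = 1 := by
    exact_mod_cast Real.sin_sq_add_cos_sq (π * x)
  set s : ℂ := (Real.sin (π * x) : ℂ)
  set c : ℂ := (Real.cos (π * x) : ℂ)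
  have hI : I ^ 2 = -1 := Complex.I_sq
  field_simp
  have h2 : (c + s * I) * (c - s * I) = 1 := by
    linear_combination h1 - s ^ 2 * hI
  linear_combination (I * (c + s * I)) * h2 + (c + s * I) ^ 2 * s * hI + s * hI

/-- Absolutely convergent expansion of a function with `C^1` decay on the imaginary axis. -/
theorem line_coef {F F' : ℝ → ℂ} {B M : ℝ} (hM : 0 < M) (hF : ∀ y, ‖F y‖ * (1 + |y|) ≤ B)
    (hd : ∀ y, HasDerivAt F (F' y) y) (hF' : ∀ y, ‖F' y‖ * (1 + y ^ 2) ≤ M) (hc : Continuous F') :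
    ∃ a : ℤ → ℂ, (Summable fun n => ‖a n‖) ∧ ∑' n, ‖a n‖ ≤ B + fourK * (π * M) ∧
      ∀ y : ℝ, HasSum (fun n : ℤ => a n * cay y ^ n) (F y) := by
  have hB0 : 0 ≤ B := (by positivity : 0 ≤ ‖F 0‖ * (1 + |(0 : ℝ)|)).trans (hF 0)
  have hFc : Continuous F := continuous_iff_continuousAt.2 fun y => (hd y).continuousAt
  let g : ℝ → ℂ := fun x => if x ∈ Ioo (0 : ℝ) 1 then F (ct x) else 0
  let g' : ℝ → ℂ := fun x => ((-(π * (1 + ct x ^ 2)) : ℝ) : ℂ) * F' (ct x)
  have hgin : ∀ {x : ℝ}, x ∈ Ioo (0 : ℝ) 1 → g x = F (ct x) := fun {x} hx => if_pos hx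
  have hgout : ∀ {x : ℝ}, x ∉ Ioo (0 : ℝ) 1 → g x = 0 := fun {x} hx => if_neg hx
  have hctc : ∀ x ∈ Ioo (0 : ℝ) 1, ContinuousAt ct x := fun x hx => (ct_deriv hx).continuousAt
  have hgd : ∀ x ∈ Ioo (0 : ℝ) 1, HasDerivAt g (g' x) x := by
    intro x hx
    have h1 : HasDerivAt (fun x => F (ct x)) (g' x) x := by
      have := (hd (ct x)).scomp x (ct_deriv hx)
      rw [Complex.real_smul] at this
      exact this
    refine h1.congr_of_eventuallyEq ?_
    filter_upwards [isOpen_Ioo.mem_nhds hx] with z hz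
    exact hgin hz
  have hgs : ∀ x, ‖g x‖ ≤ B * |Real.sin (π * x)| := by
    intro x
    by_cases hx : x ∈ Ioo (0 : ℝ) 1
    · rw [hgin hx, abs_of_pos (sin_pos' hx)]
      have h1 := ct_abs hx
      have h2 := hF (ct x)
      have h3 := sin_pos' hx
      calc ‖F (ct x)‖ = ‖F (ct x)‖ * 1 := (mul_one _).symm
        _ ≤ ‖F (ct x)‖ * ((1 + |ct x|) * Real.sin (π * x)) :=
            mul_le_mul_of_nonneg_left h1 (norm_nonneg _)
        _ = (‖F (ct x)‖ * (1 + |ct x|)) * Real.sin (π * x) := by ring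
        _ ≤ B * Real.sin (π * x) := mul_le_mul_of_nonneg_right h2 h3.le
    · rw [hgout hx, norm_zero]
      positivity
  have hg0 : g 0 = 0 := hgout (by simp)
  have hg1 : g 1 = 0 := hgout (by simp)
  have hcont : Continuous g ∨ True := Or.inr trivial
  have hend : ∀ x : ℝ, Real.sin (π * x) = 0 → g x = 0 → ContinuousAt g x := by
    intro x hx hgx
    unfold ContinuousAt
    rw [hgx]
    refine squeeze_zero_norm hgs ?_
    have : Filter.Tendsto (fun z : ℝ => B * |Real.sin (π * z)|) (nhds x)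
        (nhds (B * |Real.sin (π * x)|)) := by
      have h : Continuous fun z : ℝ => B * |Real.sin (π * z)| := by fun_prop
      exact h.tendsto x
    rwa [hx, abs_zero, mul_zero] at this
  have hcon : ContinuousOn g (Icc 0 1) := by
    intro x hx
    refine ContinuousAt.continuousWithinAt ?_
    rcases eq_or_lt_of_le hx.1 with h | h
    · subst h
      exact hend 0 (by simp) hg0
    · rcases eq_or_lt_of_le hx.2 with h' | h'
      · subst h'
        exact hend 1 (by simp) hg1
      · exact (hgd x ⟨h, h'⟩).continuousAt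
  obtain ⟨a, ha, hab, hs⟩ := four (g := g) (g' := g') (B := B) (M := π * M)
    (mul_pos Real.pi_pos hM)
    (fun x _ => (hgs x).trans (by
      have := Real.abs_sin_le_one (π * x)
      nlinarith))
    hcon (hg0.trans hg1.symm) hgd
    (by
      intro x hx
      show ‖((-(π * (1 + ct x ^ 2)) : ℝ) : ℂ) * F' (ct x)‖ ≤ π * M
      rw [norm_mul, Complex.norm_real, Real.norm_eq_abs, abs_neg,
        abs_of_nonneg (by positivity)]
      have := hF' (ct x)
      have hp := Real.pi_pos
      nlinarith)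
    (by
      intro x hx
      refine ContinuousAt.continuousWithinAt ?_
      have h1 := hctc x hx
      have h2 : ContinuousAt (fun x => F' (ct x)) x := hc.continuousAt.comp h1
      refine ContinuousAt.mul ?_ h2
      exact Complex.continuous_ofReal.continuousAt.comp (by fun_prop))
  refine ⟨a, ha, hab, fun y => ?_⟩
  have hpi := Real.pi_pos
  set x : ℝ := 1 / 2 - Real.arctan y / π with hxd
  have hx : x ∈ Ioo (0 : ℝ) 1 := by
    have h1 := Real.arctan_lt_pi_div_two y
    have h2 := Real.neg_pi_div_two_lt_arctan y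
    constructor
    · rw [hxd, sub_pos, div_lt_iff₀ hpi]
      linarith
    · rw [hxd]
      have : -(1 / 2) < Real.arctan y / π := by
        rw [lt_div_iff₀ hpi]
        linarith
      linarith
  have hpx : π * x = π / 2 - Real.arctan y := by
    rw [hxd]
    field_simp
  have hct : ct x = y := by
    unfold ct
    rw [hpx, Real.cos_pi_div_two_sub, Real.sin_pi_div_two_sub, ← Real.tan_eq_sin_div_cos,
      Real.tan_arctan]
  have h1 := hs x ⟨hx.1.le, hx.2.le⟩
  rw [hgin hx, hct] at h1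
  refine h1.congr_fun ?_
  intro n
  rw [← hct, ← ct_exp hx, ← Complex.exp_int_mul]
  congr 2
  ring

end Pool.Agent.Strips
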