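import Pool.Agent.Lib_MP_1209e6_st.Defs
import Pool.Agent.Lib_MP_1209e6_st.LineCoef

/-!
# FOUR: `C^1` functions of `y` with decay are in the Wiener algebra of the circle
-/

set_option autoImplicit false

open Filter Topology Pool.Agent.Lib_MP_1858fb_w

namespace Pool.Agent.Strip

theorem fourK_le : Strips.fourK ≤ 5 := by
  have h1 : HasSum (fun n : ℕ => 1 / (((n : ℤ) : ℝ)) ^ 2) (Real.pi ^ 2 / 6) := by
    simpa using hasSum_zeta_two
  have h2 : HasSum (fun n : ℕ => 1 / (((-(n : ℤ) : ℤ) : ℝ)) ^ 2) (Real.pi ^ 2 / 6) := by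
    simpa using hasSum_zeta_two
  have h := HasSum.of_nat_of_neg (f := fun n : ℤ => 1 / (n : ℝ) ^ 2) h1 h2
  unfold Strips.fourK
  rw [h.tsum_eq]
  have hp : Real.pi < 3.15 := Real.pi_lt_d2
  have hp0 := Real.pi_pos
  have : Real.pi ^ 2 ≤ 3.15 ^ 2 := pow_le_pow_left₀ hp0.le hp.le 2
  norm_num
  norm_num at this
  linarith

theorem tendsto_cay : Tendsto (fun y : ℝ => Strips.cay y) atTop (𝓝 1) := by
  have h1 : ∀ y : ℝ, Strips.cay y = 1 - 2 / (Complex.I * y + 1) := by
    intro y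
    unfold Strips.cay
    have := Strips.cay_den y
    field_simp
    ring
  have h2 : Tendsto (fun y : ℝ => (2 : ℂ) / (Complex.I * y + 1)) atTop (𝓝 0) := by
    rw [tendsto_zero_iff_norm_tendsto_zero]
    have h3 : ∀ y : ℝ, 0 < y → ‖(2 : ℂ) / (Complex.I * y + 1)‖ ≤ 2 / y := by
      intro y hy
      rw [norm_div, Complex.norm_ofNat]
      have h4 : y ≤ ‖(Complex.I * y + 1 : ℂ)‖ := by
        have h5 := Complex.abs_im_le_norm (Complex.I * y + 1 : ℂ)
        have h6 : (Complex.I * y + 1 : ℂ).im = y := by simp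
        rw [h6] at h5
        exact (le_abs_self y).trans h5
      exact div_le_div_of_nonneg_left (by norm_num) hy h4
    refine squeeze_zero' (Eventually.of_forall fun y => norm_nonneg _)
      ((eventually_gt_atTop 0).mono h3) ?_
    exact tendsto_const_nhds.div_atTop tendsto_id
  have h3 := (tendsto_const_nhds (x := (1 : ℂ))).sub h2
  rw [sub_zero] at h3
  exact h3.congr fun y => (h1 y).symm

/-- FOUR -/
theorem four_w {f f' : ℝ → ℂ} (hf : ∀ y, HasDerivAt f (f' y) y) (hf' : Continuous f') {ε : ℝ}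
    (h0 : ∀ y, ‖f y‖ * (1 + y ^ 2) ^ 2 ≤ ε) (h1 : ∀ y, ‖f' y‖ * (1 + y ^ 2) ^ 2 ≤ ε) :
    ∃ g : WW, ‖g‖ ≤ 100 * ε ∧ W.val 1 g = 0 ∧
      ∀ y : ℝ, W.val ((y * Complex.I - 1) / (y * Complex.I + 1)) g = f y := by
  have hε : 0 ≤ ε := (by positivity : 0 ≤ ‖f 0‖ * (1 + (0 : ℝ) ^ 2) ^ 2).trans (h0 0)
  have hsq : ∀ y : ℝ, 1 + y ^ 2 ≤ (1 + y ^ 2) ^ 2 := fun y => by nlinarith [sq_nonneg y]
  rcases eq_or_lt_of_le hε with h | hpos
  · subst h
    have hz : ∀ y, f y = 0 := by
      intro y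
      have h2 := h0 y
      have h3 : 0 < (1 + y ^ 2) ^ 2 := by positivity
      have h4 : ‖f y‖ ≤ 0 := by
        by_contra h5
        rw [not_le] at h5
        nlinarith [mul_pos h5 h3]
      exact norm_le_zero_iff.1 h4
    refine ⟨0, by simp, ?_, fun y => ?_⟩
    · simp [W.val]
    · rw [hz y]
      simp [W.val]
  obtain ⟨a, ha, hab, hs⟩ := Strips.line_coef (F := f) (F' := f') (B := 2 * ε) (M := ε) hpos
    (fun y => by
      have h2 := h0 y
      have h3 : 1 + |y| ≤ 2 * (1 + y ^ 2) ^ 2 := by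
        have h4 := hsq y
        have h5 : |y| ≤ 1 + y ^ 2 := by
          rw [← sq_abs y]
          nlinarith [sq_nonneg (|y| - 1), abs_nonneg y]
        nlinarith [sq_nonneg y]
      calc ‖f y‖ * (1 + |y|) ≤ ‖f y‖ * (2 * (1 + y ^ 2) ^ 2) :=
            mul_le_mul_of_nonneg_left h3 (norm_nonneg _)
        _ = 2 * (‖f y‖ * (1 + y ^ 2) ^ 2) := by ring
        _ ≤ 2 * ε := by linarith)
    hf
    (fun y => (mul_le_mul_of_nonneg_left (hsq y) (norm_nonneg _)).trans (h1 y)) hf'
  have hw : Summable fun k => ‖a k‖ * ω1.w k := by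
    simpa [ω1_w] using ha
  set g : WW := W.ofSeq a hw with hg
  have hval : ∀ y : ℝ, W.val (Strips.cay y) g = f y := by
    intro y
    rw [← (hs y).tsum_eq]
    exact tsum_congr fun k => by rw [hg, W.co_ofSeq]
  have hcay : ∀ y : ℝ, ((y : ℂ) * Complex.I - 1) / (y * Complex.I + 1) = Strips.cay y := by
    intro y
    unfold Strips.cay
    rw [mul_comm (y : ℂ)]
  refine ⟨g, ?_, ?_, fun y => by rw [hcay, hval]⟩
  · rw [W.norm_eq]
    have h2 : (∑' k, ‖g.co k‖ * ω1.w k) = ∑' k, ‖a k‖ :=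
      tsum_congr fun k => by rw [hg, W.co_ofSeq, ω1_w, mul_one]
    rw [h2]
    refine hab.trans ?_
    have h3 := fourK_le
    have h4 := Strips.fourK_ge
    have hp : Real.pi < 3.15 := Real.pi_lt_d2
    have hp0 := Real.pi_pos
    have h5 : Strips.fourK * (Real.pi * ε) ≤ 5 * (3.15 * ε) :=
      mul_le_mul h3 (mul_le_mul_of_nonneg_right hp.le hpos.le) (by positivity) (by norm_num)
    norm_num at h5 ⊢
    linarith
  · -- the value at `1` is the limit
    have h2 : Tendsto (fun y : ℝ => f y) atTop (𝓝 0) := by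
      rw [tendsto_zero_iff_norm_tendsto_zero]
      have h3 : ∀ y : ℝ, 0 < y → ‖f y‖ ≤ ε / y := by
        intro y hy
        rw [le_div_iff₀ hy]
        have h4 : y ≤ (1 + y ^ 2) ^ 2 := by
          have := hsq y
          nlinarith [sq_nonneg (y - 1)]
        exact (mul_le_mul_of_nonneg_left h4 (norm_nonneg _)).trans (h0 y)
      refine squeeze_zero' (Eventually.of_forall fun y => norm_nonneg _)
        ((eventually_gt_atTop 0).mono h3) ?_
      exact tendsto_const_nhds.div_atTop tendsto_id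
    have h3 : Tendsto (fun y : ℝ => W.val (Strips.cay y) g) atTop (𝓝 (W.val 1 g)) := by
      unfold W.val
      refine tendsto_tsum_of_dominated_convergence (bound := fun k => ‖g.co k‖)
        (by simpa [ω1_w] using g.summ) ?_ ?_
      · intro k
        have h4 : ContinuousAt (fun z : ℂ => z ^ k) 1 := continuousAt_zpow₀ _ _ (Or.inl one_ne_zero)
        exact (h4.tendsto.comp tendsto_cay).const_mul _
      · refine Eventually.of_forall fun y k => ?_
        rw [norm_mul, norm_zpow, Strips.cay_norm, one_zpow, mul_one]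
    have h4 : Tendsto (fun y : ℝ => W.val (Strips.cay y) g) atTop (𝓝 0) :=
      h2.congr fun y => (hval y).symm
    exact tendsto_nhds_unique h3 h4

end Pool.Agent.Strip
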