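import Pool.Agent.Lib_MP_1209e6_st.Defs

/-! PIECE GERM: points near `p` and their flows, with values in Banach algebras. -/

set_option autoImplicit false

open Filter Topology Pool.Agent.CampanaFlow Pool.Agent.CampanaB

namespace Pool.Agent.Strip

variable {S : Type} [CommRing S] [Algebra ℂ S]

/-- naturality -/
theorem pt_map {A A' : Type} [NormedCommRing A] [NormedAlgebra ℂ A] [NormOneClass A]
    [CompleteSpace A] [NormedCommRing A'] [NormedAlgebra ℂ A'] [NormOneClass A'] [CompleteSpace A']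
    (φ : A →ₐ[ℂ] A') (hφ : ∀ x, ‖φ x‖ ≤ ‖x‖) {n : ℕ} (dy : Fin n → Derivation ℂ S S)
    (p : S →ₐ[ℂ] ℂ) (a : Fin n → A) (h : ∃ q, IsPt dy p a q) :
    IsPt dy p (fun l => φ (a l)) (φ.comp (pt dy p a)) ∧
      pt dy p (fun l => φ (a l)) = φ.comp (pt dy p a) := by
  sorry

/-- GERM: existence, size and Lipschitz estimates, uniform in the Banach algebra -/
theorem germ {ι : Type} [Finite ι] (e : ι → Derivation ℂ S S) {n : ℕ}
    (dy : Fin n → Derivation ℂ S S) (y : Fin n → S) (hy : ∀ i l, dy i (y l) = if i = l then 1 else 0)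
    (G : Finset S) (hG : Algebra.adjoin ℂ (G : Set S) = ⊤) (p : S →ₐ[ℂ] ℂ) (δ : ℝ) (hδ : 0 < δ) :
    ∃ ρ C : ℝ, 0 < ρ ∧ 0 ≤ C ∧ ∀ (A : Type) [NormedCommRing A] [NormedAlgebra ℂ A] [NormOneClass A]
      [CompleteSpace A],
      (∀ a : Fin n → A, ‖a‖ ≤ ρ → IsPt dy p a (pt dy p a) ∧
        (∀ l, pt dy p a (y l) = algebraMap ℂ A (p (y l)) + a l) ∧
        ∀ g ∈ G, ‖pt dy p a g - algebraMap ℂ A (p g)‖ ≤ δ) ∧
      (∀ a : Fin n → A, ‖a‖ ≤ ρ → ∀ z : A, ‖z‖ ≤ ρ → ∀ i,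
        IsFlowW (e i) (pt dy p a) z (fl (e i) (pt dy p a) z) ∧
        ∀ g ∈ G, ‖fl (e i) (pt dy p a) z g - algebraMap ℂ A (p g)‖ ≤ δ) ∧
      (∀ a a' : Fin n → A, ‖a‖ ≤ ρ → ‖a'‖ ≤ ρ → ∀ z z' : A, ‖z‖ ≤ ρ → ‖z'‖ ≤ ρ → ∀ i l,
        ‖disp dy y p (e i) a z l - disp dy y p (e i) a' z l‖ ≤ C * ‖z‖ * ‖a - a'‖ ∧
        ‖disp dy y p (e i) a z l - disp dy y p (e i) a z' l‖ ≤ C * ‖z - z'‖) := by
  sorry

end Pool.Agent.Strip
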