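import Mathlib

/-! Painlevé: a continuous function which is holomorphic off a vertical line is holomorphic. -/

set_option autoImplicit false

open Complex MeasureTheory Metric Set Topology Filter
open scoped Interval

namespace Pool.Agent.StripPainleve

/-- the boundary integral of a rectangle -/
noncomputable def bd (f : ℂ → ℂ) (z w : ℂ) : ℂ :=
  (∫ x : ℝ in z.re..w.re, f (x + z.im * I)) - (∫ x : ℝ in z.re..w.re, f (x + w.im * I)) +
    I • (∫ y : ℝ in z.im..w.im, f (w.re + y * I)) - I • ∫ y : ℝ in z.im..w.im, f (z.re + y * I)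

theorem bd_zero {f : ℂ → ℂ} {z w : ℂ} {x : ℝ} (hx : x ∉ Ioo (min z.re w.re) (max z.re w.re))
    (hc : ContinuousOn f ([[z.re, w.re]] ×ℂ [[z.im, w.im]]))
    (hd : ∀ u ∈ [[z.re, w.re]] ×ℂ [[z.im, w.im]], u.re ≠ x → DifferentiableAt ℂ f u) :
    bd f z w = 0 := by
  refine integral_boundary_rect_eq_zero_of_continuousOn_of_differentiableOn f z w hc ?_
  intro u hu
  refine (hd u ?_ ?_).differentiableWithinAt
  · exact ⟨Ioo_subset_Icc_self hu.1, Ioo_subset_Icc_self hu.2⟩
  · intro h
    exact hx (h ▸ hu.1)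

theorem bd_split {f : ℂ → ℂ} {z w : ℂ} {x : ℝ} (hx : x ∈ Ioo (min z.re w.re) (max z.re w.re))
    (hc : ContinuousOn f ([[z.re, w.re]] ×ℂ [[z.im, w.im]])) :
    bd f z w = bd f z (x + w.im * I) + bd f (x + z.im * I) w := by
  have hxm : x ∈ [[z.re, w.re]] := Ioo_subset_Icc_self hx
  have hi : ∀ t : ℝ, t ∈ [[z.im, w.im]] → ∀ a b : ℝ, a ∈ [[z.re, w.re]] → b ∈ [[z.re, w.re]] →
      IntervalIntegrable (fun s : ℝ => f (s + t * I)) volume a b := by
    intro t ht a b ha hb
    refine ContinuousOn.intervalIntegrable ?_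
    refine hc.comp (by fun_prop) ?_
    intro s hs
    refine ⟨?_, ?_⟩
    · show ((s : ℂ) + t * I).re ∈ [[z.re, w.re]]
      rw [show ((s : ℂ) + t * I).re = s by simp]
      exact uIcc_subset_uIcc ha hb hs
    · show ((s : ℂ) + t * I).im ∈ [[z.im, w.im]]
      rw [show ((s : ℂ) + t * I).im = t by simp]
      exact ht
  have hz : z.im ∈ [[z.im, w.im]] := left_mem_uIcc
  have hw : w.im ∈ [[z.im, w.im]] := right_mem_uIcc
  have h1 := intervalIntegral.integral_add_adjacent_intervals
    (hi z.im hz z.re x left_mem_uIcc hxm) (hi z.im hz x w.re hxm right_mem_uIcc)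
  have h2 := intervalIntegral.integral_add_adjacent_intervals
    (hi w.im hw z.re x left_mem_uIcc hxm) (hi w.im hw x w.re hxm right_mem_uIcc)
  unfold bd
  have e1 : ((x : ℂ) + w.im * I).re = x := by simp
  have e2 : ((x : ℂ) + w.im * I).im = w.im := by simp
  have e3 : ((x : ℂ) + z.im * I).re = x := by simp
  have e4 : ((x : ℂ) + z.im * I).im = z.im := by simp
  rw [e1, e2, e3, e4, ← h1, ← h2]
  ring

/-- Painlevé's theorem for a vertical line -/
theorem painleve {U : Set ℂ} (hU : IsOpen U) {f : ℂ → ℂ} (hc : ContinuousOn f U) {x : ℝ}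
    (hd : ∀ u ∈ U, u.re ≠ x → DifferentiableAt ℂ f u) : DifferentiableOn ℂ f U := by
  intro z₀ hz₀
  obtain ⟨r, hr, hsub⟩ := Metric.isOpen_iff.1 hU z₀ hz₀
  have hcons : IsConservativeOn f (ball z₀ r) := by
    intro z w hzw
    rw [← add_eq_zero_iff_eq_neg, wedgeIntegral_add_wedgeIntegral_eq]
    show bd f z w = 0
    have hR : ([[z.re, w.re]] ×ℂ [[z.im, w.im]]) ⊆ U := hzw.trans hsub
    have hcR := hc.mono hR
    by_cases hx : x ∈ Ioo (min z.re w.re) (max z.re w.re)
    · have hxm : x ∈ [[z.re, w.re]] := Ioo_subset_Icc_self hx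
      have e1 : ((x : ℂ) + w.im * I).re = x := by simp
      have e2 : ((x : ℂ) + w.im * I).im = w.im := by simp
      have e3 : ((x : ℂ) + z.im * I).re = x := by simp
      have e4 : ((x : ℂ) + z.im * I).im = z.im := by simp
      have hs1 : ([[z.re, ((x : ℂ) + w.im * I).re]] ×ℂ [[z.im, ((x : ℂ) + w.im * I).im]]) ⊆
          ([[z.re, w.re]] ×ℂ [[z.im, w.im]]) := by
        rw [e1, e2]
        exact fun u hu => ⟨uIcc_subset_uIcc left_mem_uIcc hxm hu.1, hu.2⟩
      have hs2 : ([[((x : ℂ) + z.im * I).re, w.re]] ×ℂ [[((x : ℂ) + z.im * I).im, w.im]]) ⊆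
          ([[z.re, w.re]] ×ℂ [[z.im, w.im]]) := by
        rw [e3, e4]
        exact fun u hu => ⟨uIcc_subset_uIcc hxm right_mem_uIcc hu.1, hu.2⟩
      rw [bd_split hx hcR, bd_zero (x := x) _ (hcR.mono hs1) fun u hu => hd u (hR (hs1 hu)),
        bd_zero (x := x) _ (hcR.mono hs2) fun u hu => hd u (hR (hs2 hu)), add_zero]
      · rw [e3]
        intro h
        rcases le_total x w.re with h1 | h1
        · rw [min_eq_left h1] at h
          exact lt_irrefl _ h.1
        · rw [max_eq_left h1] at h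
          exact lt_irrefl _ h.2
      · rw [e1]
        intro h
        rcases le_total z.re x with h1 | h1
        · rw [max_eq_right h1] at h
          exact lt_irrefl _ h.2
        · rw [min_eq_right h1] at h
          exact lt_irrefl _ h.1
    · exact bd_zero hx hcR fun u hu => hd u (hR hu)
  have h1 := (hcons.isExactOn_ball (hc.mono hsub)).differentiableOn isOpen_ball
  exact ((h1 z₀ (mem_ball_self hr)).differentiableAt (ball_mem_nhds z₀ hr)).differentiableWithinAt

theorem painleve_analytic {U : Set ℂ} (hU : IsOpen U) {f : ℂ → ℂ} (hc : ContinuousOn f U) {x : ℝ}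
    (hd : ∀ u ∈ U, u.re ≠ x → DifferentiableAt ℂ f u) {z : ℂ} (hz : z ∈ U) : AnalyticAt ℂ f z :=
  (painleve hU hc hd).analyticAt (hU.mem_nhds hz)

/-- Gluing along a vertical line: two functions, continuous up to the line and equal there. -/
theorem glue_line {U : Set ℂ} (hU : IsOpen U) {f g : ℂ → ℂ} {x : ℝ}
    (hf : ContinuousOn f (U ∩ {w | w.re ≤ x})) (hg : ContinuousOn g (U ∩ {w | x ≤ w.re}))
    (hfd : ∀ u ∈ U, u.re < x → DifferentiableAt ℂ f u)
    (hgd : ∀ u ∈ U, x < u.re → DifferentiableAt ℂ g u)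
    (he : ∀ u ∈ U, u.re = x → f u = g u) {z : ℂ} (hz : z ∈ U) :
    AnalyticAt ℂ (fun w => if w.re ≤ x then f w else g w) z := by
  classical
  refine painleve_analytic hU (x := x) ?_ ?_ hz
  · have h1 : ContinuousOn (fun w : ℂ => if w.re ≤ x then f w else g w) (U ∩ {w | w.re ≤ x}) :=
      hf.congr fun w hw => if_pos hw.2
    have h2 : ContinuousOn (fun w : ℂ => if w.re ≤ x then f w else g w) (U ∩ {w | x ≤ w.re}) := by
      refine hg.congr fun w hw => ?_
      by_cases h : w.re ≤ x
      · have h3 : w.re = x := le_antisymm h hw.2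
        show (if w.re ≤ x then f w else g w) = g w
        rw [if_pos h, he w hw.1 h3]
      · exact if_neg h
    intro w hw
    have hcov : U = (U ∩ {w | w.re ≤ x}) ∪ (U ∩ {w | x ≤ w.re}) := by
      rw [← inter_union_distrib_left]
      refine (inter_eq_left.2 fun u _ => ?_).symm
      exact le_total u.re x
    rw [hcov]
    rcases lt_trichotomy w.re x with h | h | h
    · have hopen : IsOpen {w : ℂ | w.re < x} := isOpen_lt continuous_re continuous_const
      have h3 : U ∩ {w | w.re ≤ x} ∈ 𝓝 w :=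
        inter_mem (hU.mem_nhds hw) (mem_of_superset (hopen.mem_nhds h)
          fun (u : ℂ) (hu : u.re < x) => (le_of_lt hu : u.re ≤ x))
      exact ((h1 w ⟨hw, le_of_lt h⟩).continuousAt h3).continuousWithinAt
    · exact (h1 w ⟨hw, h.le⟩).union (h2 w ⟨hw, h.ge⟩)
    · have hopen : IsOpen {w : ℂ | x < w.re} := isOpen_lt continuous_const continuous_re
      have h3 : U ∩ {w | x ≤ w.re} ∈ 𝓝 w :=
        inter_mem (hU.mem_nhds hw) (mem_of_superset (hopen.mem_nhds h)
          fun (u : ℂ) (hu : x < u.re) => (le_of_lt hu : x ≤ u.re))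
      exact ((h2 w ⟨hw, le_of_lt h⟩).continuousAt h3).continuousWithinAt
  · intro u hu hux
    rcases lt_or_gt_of_ne hux with h | h
    · have hopen : IsOpen {w : ℂ | w.re < x} := isOpen_lt continuous_re continuous_const
      refine (hfd u hu h).congr_of_eventuallyEq ?_
      filter_upwards [hopen.mem_nhds h] with w hw
      exact if_pos (le_of_lt hw)
    · have hopen : IsOpen {w : ℂ | x < w.re} := isOpen_lt continuous_const continuous_re
      refine (hgd u hu h).congr_of_eventuallyEq ?_
      filter_upwards [hopen.mem_nhds h] with w hw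
      exact if_neg (not_le.2 hw)

end Pool.Agent.StripPainleve
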