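import Pool.Agent.Lib_MP_1209e6_st.Defs
import Pool.Agent.Lib_MP_1209e6_st.Painleve
import Pool.Agent.Lib_MP_1209e6_kc.U0

/-! PIECE GLUE: gluing the curves on the strips along the lines. -/

set_option autoImplicit false

open Filter Topology Pool.Agent.CampanaFlow

namespace Pool.Agent.Strip

theorem isOpen_strip (k : ℕ) : IsOpen (strip k) := by
  have h1 : IsOpen {w : ℂ | w.re < 2 * (k : ℝ) + 2} :=
    isOpen_lt Complex.continuous_re continuous_const
  have h2 : IsOpen {w : ℂ | 2 * (k : ℝ) < w.re} :=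
    isOpen_lt continuous_const Complex.continuous_re
  by_cases hk : k = 0
  · have : strip k = {w : ℂ | w.re < 2 * (k : ℝ) + 2} := by
      ext w
      exact ⟨fun h => h.2, fun h => ⟨Or.inl hk, h⟩⟩
    rw [this]
    exact h1
  · have : strip k = {w : ℂ | 2 * (k : ℝ) < w.re} ∩ {w : ℂ | w.re < 2 * (k : ℝ) + 2} := by
      ext w
      exact ⟨fun h => ⟨h.1.resolve_left hk, h.2⟩, fun h => ⟨Or.inr h.1, h.2⟩⟩
    rw [this]
    exact h2.inter h1

/-- different strips are disjoint -/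
theorem strip_inj {j k : ℕ} {w : ℂ} (hj : w ∈ strip j) (hk : w ∈ strip k) : j = k := by
  have key : ∀ j k : ℕ, j < k → w ∈ strip j → w ∈ strip k → False := by
    intro j k hjk h1 h2
    have h3 : 2 * (k : ℝ) < w.re := h2.1.resolve_left (by omega)
    have h4 : (j : ℝ) + 1 ≤ k := by exact_mod_cast hjk
    have h5 := h1.2
    linarith
  rcases Nat.lt_trichotomy j k with h | h | h
  · exact (key j k h hj hk).elim
  · exact h
  · exact (key k j h hk hj).elim

theorem ball_re {w w₀ : ℂ} {r : ℝ} (hr : r ≤ 1) (h : w ∈ Metric.ball w₀ r) :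
    |w.re - w₀.re| < 1 := by
  have h1 : |(w - w₀).re| ≤ ‖w - w₀‖ := Complex.abs_re_le_norm _
  rw [Complex.sub_re] at h1
  have h2 : ‖w - w₀‖ < r := by rwa [Metric.mem_ball, dist_eq_norm] at h
  linarith

/-- `FL k` = formula of the tube `k` near its right line `Re w = 2k + 2`; `FR k` = formula of the tube `k + 1` near
its left line, the same line. -/
theorem glue_strips {R : Type} [CommRing R] [Algebra ℂ R] (γ : ℕ → ℂ → R →ₐ[ℂ] ℂ) (B : ℕ → Set ℂ)
    (hγ : ∀ k, IsCurve (strip k) (γ k) (B k)) (FL FR : ℕ → ℂ → R →ₐ[ℂ] ℂ)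
    (hL : ∀ (k : ℕ) (w₀ : ℂ), w₀.re = 2 * k + 2 → ∃ r : ℝ, 0 < r ∧
      (∀ w ∈ Metric.ball w₀ r, w.re < 2 * k + 2 → w ∉ B k ∧ γ k w = FL k w) ∧
      ∀ f, ContinuousOn (fun w => FL k w f) (Metric.ball w₀ r ∩ {w | w.re ≤ 2 * k + 2}))
    (hR : ∀ (k : ℕ) (w₀ : ℂ), w₀.re = 2 * k + 2 → ∃ r : ℝ, 0 < r ∧
      (∀ w ∈ Metric.ball w₀ r, 2 * (k : ℝ) + 2 < w.re → w ∉ B (k + 1) ∧ γ (k + 1) w = FR k w) ∧
      ∀ f, ContinuousOn (fun w => FR k w f) (Metric.ball w₀ r ∩ {w | 2 * (k : ℝ) + 2 ≤ w.re}))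
    (hLR : ∀ (k : ℕ) (w : ℂ), w.re = 2 * k + 2 → FL k w = FR k w) :
    ∃ (γ' : ℂ → R →ₐ[ℂ] ℂ) (E : Set ℂ), IsCurve Set.univ γ' E ∧
      ∀ (k : ℕ) (w : ℂ), w.re = 2 * k + 2 → w ∉ E ∧ γ' w = FR k w := by
  classical
  let J : Type := {p : ℕ × ℂ // p.2.re = 2 * (p.1 : ℝ) + 2}
  have hex : ∀ p : J, ∃ r : ℝ, 0 < r ∧ r ≤ 1 ∧
      (∀ w ∈ Metric.ball p.1.2 r, w.re < 2 * (p.1.1 : ℝ) + 2 →
        w ∉ B p.1.1 ∧ γ p.1.1 w = FL p.1.1 w) ∧
      (∀ w ∈ Metric.ball p.1.2 r, 2 * (p.1.1 : ℝ) + 2 < w.re →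
        w ∉ B (p.1.1 + 1) ∧ γ (p.1.1 + 1) w = FR p.1.1 w) ∧
      (∀ f, ContinuousOn (fun w => FL p.1.1 w f)
        (Metric.ball p.1.2 r ∩ {w | w.re ≤ 2 * (p.1.1 : ℝ) + 2})) ∧
      (∀ f, ContinuousOn (fun w => FR p.1.1 w f)
        (Metric.ball p.1.2 r ∩ {w | 2 * (p.1.1 : ℝ) + 2 ≤ w.re})) := by
    rintro ⟨⟨k, w₀⟩, hp⟩
    obtain ⟨r1, hr1, h1, h2⟩ := hL k w₀ hp
    obtain ⟨r2, hr2, h3, h4⟩ := hR k w₀ hp
    have hs1 : Metric.ball w₀ (min (min r1 r2) 1) ⊆ Metric.ball w₀ r1 :=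
      Metric.ball_subset_ball ((min_le_left _ _).trans (min_le_left _ _))
    have hs2 : Metric.ball w₀ (min (min r1 r2) 1) ⊆ Metric.ball w₀ r2 :=
      Metric.ball_subset_ball ((min_le_left _ _).trans (min_le_right _ _))
    refine ⟨min (min r1 r2) 1, lt_min (lt_min hr1 hr2) one_pos, min_le_right _ _,
      fun w hw => h1 w (hs1 hw), fun w hw => h3 w (hs2 hw), fun f => (h2 f).mono ?_,
      fun f => (h4 f).mono ?_⟩
    · exact Set.inter_subset_inter_left _ hs1
    · exact Set.inter_subset_inter_left _ hs2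
  choose r hr0 hr1 hL1 hR1 hcL hcR using hex
  let U : ℕ ⊕ J → Set ℂ := fun i => match i with
    | Sum.inl k => strip k
    | Sum.inr p => Metric.ball p.1.2 (r p)
  let δ : ℕ ⊕ J → ℂ → R →ₐ[ℂ] ℂ := fun i => match i with
    | Sum.inl k => γ k
    | Sum.inr p => fun w => if w.re ≤ 2 * (p.1.1 : ℝ) + 2 then FL p.1.1 w else FR p.1.1 w
  let E : ℕ ⊕ J → Set ℂ := fun i => match i with
    | Sum.inl k => B k
    | Sum.inr _ => ∅
  have hU : ∀ i, IsOpen (U i) := by
    rintro (k | p)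
    · exact isOpen_strip k
    · exact Metric.isOpen_ball
  -- the points of a ball left or right of the line are in the strips
  have hstL : ∀ (p : J) (w : ℂ), w ∈ Metric.ball p.1.2 (r p) → w.re < 2 * (p.1.1 : ℝ) + 2 →
      w ∈ strip p.1.1 := by
    intro p w hw h
    have h1 := ball_re (hr1 p) hw
    have h2 := p.2
    rw [h2] at h1
    have h3 := (abs_lt.1 h1).1
    exact ⟨Or.inr (by linarith), h⟩
  have hstR : ∀ (p : J) (w : ℂ), w ∈ Metric.ball p.1.2 (r p) → 2 * (p.1.1 : ℝ) + 2 < w.re →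
      w ∈ strip (p.1.1 + 1) := by
    intro p w hw h
    have h1 := ball_re (hr1 p) hw
    have h2 := p.2
    rw [h2] at h1
    have h3 := (abs_lt.1 h1).2
    refine ⟨Or.inr ?_, ?_⟩
    · push_cast
      linarith
    · push_cast
      linarith
  have hcurve : ∀ i, IsCurve (U i) (δ i) (E i) := by
    rintro (k | p)
    · exact hγ k
    · have hana : ∀ f, ∀ z ∈ Metric.ball p.1.2 (r p), AnalyticAt ℂ (fun w =>
          (if w.re ≤ 2 * (p.1.1 : ℝ) + 2 then FL p.1.1 w else FR p.1.1 w) f) z := by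
        intro f z hz
        have h1 := StripPainleve.glue_line (U := Metric.ball p.1.2 (r p)) Metric.isOpen_ball
          (f := fun w => FL p.1.1 w f) (g := fun w => FR p.1.1 w f)
          (x := 2 * (p.1.1 : ℝ) + 2) (hcL p f) (hcR p f) ?_ ?_ ?_ hz
        · refine h1.congr (Filter.Eventually.of_forall fun w => ?_)
          show (if w.re ≤ 2 * (p.1.1 : ℝ) + 2 then FL p.1.1 w f else FR p.1.1 w f) =
            (if w.re ≤ 2 * (p.1.1 : ℝ) + 2 then FL p.1.1 w else FR p.1.1 w) f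
          by_cases h : w.re ≤ 2 * (p.1.1 : ℝ) + 2
          · rw [if_pos h, if_pos h]
          · rw [if_neg h, if_neg h]
        · intro u hu hux
          have h2 := (hγ p.1.1).ana f u (hstL p u hu hux) (hL1 p u hu hux).1
          have hopen : IsOpen (Metric.ball p.1.2 (r p) ∩ {w : ℂ | w.re < 2 * (p.1.1 : ℝ) + 2}) :=
            Metric.isOpen_ball.inter (isOpen_lt Complex.continuous_re continuous_const)
          refine h2.differentiableAt.congr_of_eventuallyEq ?_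
          filter_upwards [hopen.mem_nhds ⟨hu, hux⟩] with w hw
          show FL p.1.1 w f = γ p.1.1 w f
          rw [(hL1 p w hw.1 hw.2).2]
        · intro u hu hux
          have h2 := (hγ (p.1.1 + 1)).ana f u (hstR p u hu hux) (hR1 p u hu hux).1
          have hopen : IsOpen (Metric.ball p.1.2 (r p) ∩ {w : ℂ | 2 * (p.1.1 : ℝ) + 2 < w.re}) :=
            Metric.isOpen_ball.inter (isOpen_lt continuous_const Complex.continuous_re)
          refine h2.differentiableAt.congr_of_eventuallyEq ?_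
          filter_upwards [hopen.mem_nhds ⟨hu, hux⟩] with w hw
          show FR p.1.1 w f = γ (p.1.1 + 1) w f
          rw [(hR1 p w hw.1 hw.2).2]
        · intro u _ hux
          show FL p.1.1 u f = FR p.1.1 u f
          rw [hLR p.1.1 u hux]
      exact ⟨fun z _ => Filter.Eventually.of_forall fun w => Set.notMem_empty w,
        fun f z hz _ => hana f z hz, fun f z hz => (hana f z hz).meromorphicAt⟩
  -- agreement of strips and balls
  have hag : ∀ (k : ℕ) (p : J) (z : ℂ), z ∈ strip k → z ∈ Metric.ball p.1.2 (r p) →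
      δ (Sum.inl k) z = δ (Sum.inr p) z := by
    intro k p z hz1 hz2
    show γ k z = if z.re ≤ 2 * (p.1.1 : ℝ) + 2 then FL p.1.1 z else FR p.1.1 z
    rcases lt_trichotomy z.re (2 * (p.1.1 : ℝ) + 2) with h | h | h
    · have hk : k = p.1.1 := strip_inj hz1 (hstL p z hz2 h)
      rw [if_pos h.le, hk]
      exact (hL1 p z hz2 h).2
    · exfalso
      rcases Nat.lt_or_ge p.1.1 k with h1 | h1
      · have h2 := hz1.1.resolve_left (by omega)
        have h3 : (p.1.1 : ℝ) + 1 ≤ k := by exact_mod_cast h1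
        rw [h] at h2
        linarith
      · have h2 := hz1.2
        have h3 : (k : ℝ) ≤ p.1.1 := by exact_mod_cast h1
        rw [h] at h2
        linarith
    · have hk : k = p.1.1 + 1 := strip_inj hz1 (hstR p z hz2 h)
      rw [if_neg (not_le.2 h), hk]
      exact (hR1 p z hz2 h).2
  have he : ∀ i j, ∀ z ∈ U i, z ∈ U j → z ∉ E i → z ∉ E j → δ i z = δ j z := by
    rintro (k | p) (l | q) z hz1 hz2 - -
    · rw [strip_inj hz1 hz2]
    · exact hag k q z hz1 hz2
    · exact (hag l p z hz2 hz1).symm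
    · have hk : p.1.1 = q.1.1 := by
        have h1 := ball_re (hr1 p) hz1
        have h2 := ball_re (hr1 q) hz2
        rw [p.2] at h1
        rw [q.2] at h2
        have h3 := abs_lt.1 h1
        have h4 := abs_lt.1 h2
        have h5 : (p.1.1 : ℝ) < q.1.1 + 1 := by linarith [h3.1, h4.2]
        have h6 : (q.1.1 : ℝ) < p.1.1 + 1 := by linarith [h3.2, h4.1]
        have h7 : p.1.1 < q.1.1 + 1 := by exact_mod_cast h5
        have h8 : q.1.1 < p.1.1 + 1 := by exact_mod_cast h6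
        omega
      show (if z.re ≤ 2 * (p.1.1 : ℝ) + 2 then FL p.1.1 z else FR p.1.1 z) =
        if z.re ≤ 2 * (q.1.1 : ℝ) + 2 then FL q.1.1 z else FR q.1.1 z
      rw [hk]
  obtain ⟨γ', B', hc, hv⟩ := CampanaK.glue_family U hU δ E hcurve (FR 0 0) he
  have hcov : (⋃ i, U i) = Set.univ := by
    refine Set.eq_univ_of_forall fun w => Set.mem_iUnion.2 ?_
    by_cases h2 : w.re < 2
    · exact ⟨Sum.inl 0, Or.inl rfl, by push_cast; linarith⟩
    · push Not at h2
      by_cases hl : ∃ k : ℕ, w.re = 2 * (k : ℝ) + 2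
      · obtain ⟨k, hk⟩ := hl
        exact ⟨Sum.inr ⟨(k, w), hk⟩, Metric.mem_ball_self (hr0 _)⟩
      · push Not at hl
        have h0 : 0 ≤ w.re / 2 := by linarith
        have h3 := Nat.floor_le h0
        have h4 := Nat.lt_floor_add_one (w.re / 2)
        refine ⟨Sum.inl ⌊w.re / 2⌋₊, Or.inr ?_, by linarith⟩
        have h5 : 2 * ((⌊w.re / 2⌋₊ : ℕ) : ℝ) ≤ w.re := by linarith
        rcases h5.lt_or_eq with h6 | h6
        · exact h6
        · exfalso
          have h7 : 1 ≤ ⌊w.re / 2⌋₊ := Nat.le_floor (by push_cast; linarith)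
          refine hl (⌊w.re / 2⌋₊ - 1) ?_
          rw [Nat.cast_sub h7]
          push_cast
          linarith
  rw [hcov] at hc
  refine ⟨γ', B', hc, fun k w hw => ?_⟩
  obtain ⟨h1, h2⟩ := hv (Sum.inr ⟨(k, w), hw⟩) w (Metric.mem_ball_self (hr0 _))
    (Set.notMem_empty w)
  refine ⟨h1, h2.trans ?_⟩
  show (if w.re ≤ 2 * (k : ℝ) + 2 then FL k w else FR k w) = FR k w
  rw [if_pos hw.le, hLR k w hw]

end Pool.Agent.Strip
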