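import Pool.Agent.Lib_MP_1209e6_st.Defs
import Mathlib.Analysis.Complex.LocallyUniformLimit

/-! Values of one-sided elements of the Wiener algebra of the circle. -/

set_option autoImplicit false

open Filter Topology Pool.Agent.Lib_MP_1858fb_w

namespace Pool.Agent.Strip

theorem hv_pow_le {t : ℂ} (ht : ‖t‖ ≤ 1) {k : ℤ} (hk : 0 ≤ k) : ‖t ^ k‖ ≤ 1 := by
  obtain ⟨n, rfl⟩ := Int.eq_ofNat_of_zero_le hk
  rw [zpow_natCast, norm_pow]
  exact pow_le_one₀ (norm_nonneg _) ht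

theorem hv_norm {f : WW} (hf : W.Supp {n : ℤ | 0 ≤ n} f) {t : ℂ} (ht : ‖t‖ ≤ 1) :
    ‖W.val t f‖ ≤ ‖f‖ :=
  W.norm_val_le (S := {n : ℤ | 0 ≤ n}) (fun i hi => by rw [ω1_w]; exact hv_pow_le ht hi) hf

theorem hv_term {f : WW} (hf : W.Supp {n : ℤ | 0 ≤ n} f) {t : ℂ} (ht : ‖t‖ ≤ 1) (k : ℤ) :
    ‖f.co k * t ^ k‖ ≤ ‖f.co k‖ := by
  by_cases hk : 0 ≤ k
  · rw [norm_mul]
    exact mul_le_of_le_one_right (norm_nonneg _) (hv_pow_le ht hk)
  · rw [hf k hk, zero_mul]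

theorem hv_summable (f : WW) : Summable fun n : ℤ => ‖f.co n‖ := by
  have h := W.summ f
  simpa only [ω1_w, mul_one] using h

theorem hv_termDiff {f : WW} (hf : W.Supp {n : ℤ | 0 ≤ n} f) (k : ℤ) :
    Differentiable ℂ (fun t : ℂ => f.co k * t ^ k) := by
  by_cases hk : 0 ≤ k
  · obtain ⟨n, rfl⟩ := Int.eq_ofNat_of_zero_le hk
    simp only [zpow_natCast]
    exact (differentiable_const _).mul (differentiable_pow n)
  · simp only [hf k hk, zero_mul]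
    exact differentiable_const _

theorem hv_cont {f : WW} (hf : W.Supp {n : ℤ | 0 ≤ n} f) :
    ContinuousOn (fun t => W.val t f) {t : ℂ | ‖t‖ ≤ 1} := by
  unfold W.val
  exact continuousOn_tsum (fun k => (hv_termDiff hf k).continuous.continuousOn) (hv_summable f)
    (fun k t ht => hv_term hf ht k)

theorem hv_diff {f : WW} (hf : W.Supp {n : ℤ | 0 ≤ n} f) :
    DifferentiableOn ℂ (fun t => W.val t f) {t : ℂ | ‖t‖ < 1} := by
  unfold W.val
  exact Complex.differentiableOn_tsum_of_summable_norm (hv_summable f)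
    (fun k => (hv_termDiff hf k).differentiableOn) (isOpen_lt continuous_norm continuous_const)
    (fun k t ht => hv_term hf (le_of_lt ht) k)

theorem hv_flip {f : WW} (hf : W.Supp {n : ℤ | n ≤ 0} f) :
    ∃ g : WW, W.Supp {n : ℤ | 0 ≤ n} g ∧ ‖g‖ = ‖f‖ ∧ ∀ t : ℂ, W.val t f = W.val t⁻¹ g := by
  have hs : Summable fun k : ℤ => ‖f.co (-k)‖ * ω1.w k := by
    have h := (Equiv.neg ℤ).summable_iff.mpr (hv_summable f)
    simp only [ω1_w, mul_one]
    exact h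
  refine ⟨W.ofSeq (fun k => f.co (-k)) hs, ?_, ?_, ?_⟩
  · intro k hk
    rw [W.co_ofSeq]
    refine hf _ ?_
    intro h
    have h1 : -k ≤ 0 := h
    exact hk (neg_nonpos.mp h1)
  · rw [W.norm_eq, W.norm_eq]
    simp only [W.co_ofSeq, ω1_w, mul_one]
    exact (Equiv.neg ℤ).tsum_eq (fun k => ‖f.co k‖)
  · intro t
    unfold W.val
    simp only [W.co_ofSeq]
    rw [← (Equiv.neg ℤ).tsum_eq (fun k => f.co k * t ^ k)]
    refine tsum_congr fun k => ?_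
    rw [Equiv.neg_apply, inv_zpow']

theorem hv_sq (k : ℕ) (w : ℂ) :
    ‖w - 2 * k + 1‖ ^ 2 - ‖w - 2 * k - 1‖ ^ 2 = 4 * (w.re - 2 * k) := by
  rw [Complex.sq_norm, Complex.sq_norm, Complex.normSq_apply, Complex.normSq_apply]
  simp
  ring

theorem hv_le (k : ℕ) {w : ℂ} (hw : 2 * (k : ℝ) ≤ w.re) :
    ‖w - 2 * k - 1‖ ≤ ‖w - 2 * k + 1‖ := by
  have h := hv_sq k w
  exact (pow_le_pow_iff_left₀ (norm_nonneg _) (norm_nonneg _) two_ne_zero).mp (by linarith)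

theorem hv_lt (k : ℕ) {w : ℂ} (hw : 2 * (k : ℝ) < w.re) :
    ‖w - 2 * k - 1‖ < ‖w - 2 * k + 1‖ := by
  have h := hv_sq k w
  exact (pow_lt_pow_iff_left₀ (norm_nonneg _) (norm_nonneg _) two_ne_zero).mp (by linarith)

theorem hv_le' (k : ℕ) {w : ℂ} (hw : w.re ≤ 2 * (k : ℝ)) :
    ‖w - 2 * k + 1‖ ≤ ‖w - 2 * k - 1‖ := by
  have h := hv_sq k w
  exact (pow_le_pow_iff_left₀ (norm_nonneg _) (norm_nonneg _) two_ne_zero).mp (by linarith)

theorem hv_lt' (k : ℕ) {w : ℂ} (hw : w.re < 2 * (k : ℝ)) :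
    ‖w - 2 * k + 1‖ < ‖w - 2 * k - 1‖ := by
  have h := hv_sq k w
  exact (pow_lt_pow_iff_left₀ (norm_nonneg _) (norm_nonneg _) two_ne_zero).mp (by linarith)

theorem hv_ne (k : ℕ) {w : ℂ} (hw : 2 * (k : ℝ) ≤ w.re) : w - 2 * k + 1 ≠ 0 := by
  intro h
  have h1 := congrArg Complex.re h
  simp at h1
  linarith

theorem hv_ne' (k : ℕ) {w : ℂ} (hw : w.re ≤ 2 * (k : ℝ)) : w - 2 * k - 1 ≠ 0 := by
  intro h
  have h1 := congrArg Complex.re h
  simp at h1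
  linarith

/-- on the right of the line -/
theorem hv_plus (k : ℕ) {f : WW} (hf : W.Supp {n : ℤ | 0 ≤ n} f) :
    (∀ w : ℂ, 2 * (k : ℝ) ≤ w.re → ‖W.val (cay k w) f‖ ≤ ‖f‖) ∧
    ContinuousOn (fun w => W.val (cay k w) f) {w : ℂ | 2 * (k : ℝ) ≤ w.re} ∧
    (∀ w : ℂ, 2 * (k : ℝ) < w.re → AnalyticAt ℂ (fun w => W.val (cay k w) f) w) := by
  have h1 : ∀ w : ℂ, 2 * (k : ℝ) ≤ w.re → ‖cay k w‖ ≤ 1 := by
    intro w hw
    unfold cay
    rw [norm_div]
    exact div_le_one_of_le₀ (hv_le k hw) (norm_nonneg _)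
  have h2 : ∀ w : ℂ, 2 * (k : ℝ) < w.re → ‖cay k w‖ < 1 := by
    intro w hw
    unfold cay
    rw [norm_div]
    exact (div_lt_one (norm_pos_iff.mpr (hv_ne k hw.le))).mpr (hv_lt k hw)
  refine ⟨fun w hw => hv_norm hf (h1 w hw), ?_, ?_⟩
  · refine (hv_cont hf).comp (t := {t : ℂ | ‖t‖ ≤ 1}) (f := cay k) ?_ (fun w hw => h1 w hw)
    intro w hw
    refine ContinuousAt.continuousWithinAt ?_
    unfold cay
    exact ContinuousAt.div (by fun_prop) (by fun_prop) (hv_ne k hw)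
  · intro w hw
    have h3 : AnalyticAt ℂ (fun t => W.val t f) (cay k w) :=
      (hv_diff hf).analyticAt ((isOpen_lt continuous_norm continuous_const).mem_nhds (h2 w hw))
    have h4 : AnalyticAt ℂ (cay k) w := by
      unfold cay
      exact AnalyticAt.div (by fun_prop) (by fun_prop) (hv_ne k hw.le)
    exact h3.comp h4

/-- on the left of the line -/
theorem hv_minus (k : ℕ) {f : WW} (hf : W.Supp {n : ℤ | n ≤ 0} f) :
    (∀ w : ℂ, w.re ≤ 2 * k → ‖W.val (cay k w) f‖ ≤ ‖f‖) ∧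
    ContinuousOn (fun w => W.val (cay k w) f) {w : ℂ | w.re ≤ 2 * k} ∧
    (∀ w : ℂ, w.re < 2 * k → AnalyticAt ℂ (fun w => W.val (cay k w) f) w) := by
  obtain ⟨g, hg, hn, hv⟩ := hv_flip hf
  have h0 : (fun w => W.val (cay k w) f) = fun w => W.val ((w - 2 * k + 1) / (w - 2 * k - 1)) g := by
    funext w
    rw [hv]
    unfold cay
    rw [inv_div]
  have h1 : ∀ w : ℂ, w.re ≤ 2 * (k : ℝ) → ‖(w - 2 * k + 1) / (w - 2 * k - 1)‖ ≤ 1 := by
    intro w hw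
    rw [norm_div]
    exact div_le_one_of_le₀ (hv_le' k hw) (norm_nonneg _)
  have h2 : ∀ w : ℂ, w.re < 2 * (k : ℝ) → ‖(w - 2 * k + 1) / (w - 2 * k - 1)‖ < 1 := by
    intro w hw
    rw [norm_div]
    exact (div_lt_one (norm_pos_iff.mpr (hv_ne' k hw.le))).mpr (hv_lt' k hw)
  refine ⟨fun w hw => ?_, ?_, ?_⟩
  · have h3 := hv_norm hg (h1 w hw)
    rw [hn] at h3
    have h4 := congrFun h0 w
    rw [h4]
    exact h3
  · rw [h0]
    refine (hv_cont hg).comp (t := {t : ℂ | ‖t‖ ≤ 1})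
      (f := fun w : ℂ => (w - 2 * k + 1) / (w - 2 * k - 1)) ?_ (fun w hw => h1 w hw)
    intro w hw
    refine ContinuousAt.continuousWithinAt ?_
    exact ContinuousAt.div (by fun_prop) (by fun_prop) (hv_ne' k hw)
  · intro w hw
    rw [h0]
    have h3 : AnalyticAt ℂ (fun t => W.val t g) ((w - 2 * k + 1) / (w - 2 * k - 1)) :=
      (hv_diff hg).analyticAt ((isOpen_lt continuous_norm continuous_const).mem_nhds (h2 w hw))
    have h4 : AnalyticAt ℂ (fun w : ℂ => (w - 2 * k + 1) / (w - 2 * k - 1)) w :=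
      AnalyticAt.div (by fun_prop) (by fun_prop) (hv_ne' k hw.le)
    exact AnalyticAt.comp (g := fun t => W.val t g)
      (f := fun w : ℂ => (w - 2 * k + 1) / (w - 2 * k - 1)) h3 h4

end Pool.Agent.Strip
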