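import Pool.Agent.Lib_MP_1209e6_st.Defs
import Pool.Agent.Lib_MP_1209e6_st.HalfSide

/-! PIECE HALF: functions of the Wiener algebra of the circle on the half planes; splitting. -/

set_option autoImplicit false

open Filter Topology Pool.Agent.Lib_MP_1858fb_w

namespace Pool.Agent.Strip

theorem hf_val_one (f : WW) : W.val 1 f = evc 1 norm_one f := rfl

theorem hf_val_add (f g : WW) : W.val 1 (f + g) = W.val 1 f + W.val 1 g := by
  rw [hf_val_one, map_add, ← hf_val_one, ← hf_val_one]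

theorem hf_val_sub (f g : WW) : W.val 1 (f - g) = W.val 1 f - W.val 1 g := by
  rw [hf_val_one, map_sub, ← hf_val_one, ← hf_val_one]

theorem hf_val_zero : W.val 1 (0 : WW) = 0 := by
  rw [hf_val_one, map_zero]

/-- nonnegative powers of the Cayley coordinate, value `0` at infinity -/
def Kp : Submodule ℂ WW where
  carrier := {f | W.Supp {n | 0 ≤ n} f ∧ W.val 1 f = 0}
  add_mem' := fun ha hb => ⟨ha.1.add hb.1, by rw [hf_val_add, ha.2, hb.2, add_zero]⟩
  zero_mem' := ⟨W.supp_zero _, hf_val_zero⟩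
  smul_mem' := fun c _ hf => ⟨hf.1.smul c, by rw [W.val_smul, hf.2, mul_zero]⟩

/-- nonpositive powers, value `0` at infinity -/
def Km : Submodule ℂ WW where
  carrier := {f | W.Supp {n | n ≤ 0} f ∧ W.val 1 f = 0}
  add_mem' := fun ha hb => ⟨ha.1.add hb.1, by rw [hf_val_add, ha.2, hb.2, add_zero]⟩
  zero_mem' := ⟨W.supp_zero _, hf_val_zero⟩
  smul_mem' := fun c _ hf => ⟨hf.1.smul c, by rw [W.val_smul, hf.2, mul_zero]⟩

/-- value `0` at infinity -/
def K0 : Submodule ℂ WW where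
  carrier := {f | W.val 1 f = 0}
  add_mem' := fun {a b} ha hb => by
    change W.val 1 (a + b) = 0
    change W.val 1 a = 0 at ha
    change W.val 1 b = 0 at hb
    rw [hf_val_add, ha, hb, add_zero]
  zero_mem' := hf_val_zero
  smul_mem' := fun c f hf => by
    change W.val 1 (c • f) = 0
    change W.val 1 f = 0 at hf
    rw [W.val_smul, hf, mul_zero]

theorem mem_Kp {f : WW} : f ∈ Kp ↔ W.Supp {n | 0 ≤ n} f ∧ W.val 1 f = 0 := Iff.rfl
theorem mem_Km {f : WW} : f ∈ Km ↔ W.Supp {n | n ≤ 0} f ∧ W.val 1 f = 0 := Iff.rfl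
theorem mem_K0 {f : WW} : f ∈ K0 ↔ W.val 1 f = 0 := Iff.rfl

theorem hf_continuous_evc (t : ℂ) (ht : ‖t‖ = 1) : Continuous (evc t ht) :=
  AddMonoidHomClass.continuous_of_bound (evc t ht) 1
    (fun f => by rw [one_mul]; exact norm_evc_le t ht f)

theorem hf_isClosed_zero : IsClosed {f : WW | W.val 1 f = 0} :=
  isClosed_eq (hf_continuous_evc 1 norm_one) continuous_const

theorem isClosed_Kp : IsClosed (Kp : Set WW) :=
  (W.isClosed_supp (ω := ω1) {n | 0 ≤ n}).inter hf_isClosed_zero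

theorem isClosed_Km : IsClosed (Km : Set WW) :=
  (W.isClosed_supp (ω := ω1) {n | n ≤ 0}).inter hf_isClosed_zero

theorem Kp_le : Kp ≤ K0 := fun _ h => h.2
theorem Km_le : Km ≤ K0 := fun _ h => h.2

/-- the value at `1` as a continuous linear map -/
noncomputable def hfL : WW →L[ℂ] ℂ :=
  ⟨(evc 1 norm_one).toLinearMap, hf_continuous_evc 1 norm_one⟩

theorem hfL_apply (f : WW) : hfL f = W.val 1 f := rfl

/-- the projection to the left side -/
noncomputable def hfPm : WW →L[ℂ] WW :=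
  W.proj {n : ℤ | n < 0} - (hfL.comp (W.proj {n : ℤ | n < 0})).smulRight (1 : WW)

theorem hfPm_apply (f : WW) :
    hfPm f = W.proj {n : ℤ | n < 0} f - W.val 1 (W.proj {n : ℤ | n < 0} f) • (1 : WW) := rfl

theorem hf_norm_Pm (f : WW) : ‖hfPm f‖ ≤ 2 * ‖f‖ := by
  rw [hfPm_apply]
  have h1 : ‖W.proj {n : ℤ | n < 0} f‖ ≤ ‖f‖ := W.norm_proj_le _ f
  have h2 : ‖W.val 1 (W.proj {n : ℤ | n < 0} f) • (1 : WW)‖ ≤ ‖f‖ := by
    rw [norm_smul, norm_one, mul_one]
    exact (norm_evc_le 1 norm_one _).trans h1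
  calc _ ≤ ‖W.proj {n : ℤ | n < 0} f‖ + ‖W.val 1 (W.proj {n : ℤ | n < 0} f) • (1 : WW)‖ :=
        norm_sub_le _ _
    _ ≤ ‖f‖ + ‖f‖ := add_le_add h1 h2
    _ = 2 * ‖f‖ := by ring

theorem hf_val_Pm (f : WW) : W.val 1 (hfPm f) = 0 := by
  rw [hfPm_apply, hf_val_sub, W.val_smul, W.val_one, mul_one, sub_self]

theorem hf_supp_Pm (f : WW) : W.Supp {n : ℤ | n ≤ 0} (hfPm f) := by
  rw [hfPm_apply]
  refine W.Supp.sub (W.Supp.mono_set ?_ (W.supp_proj _ f)) (W.Supp.smul _ (W.supp_one ?_))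
  · intro n hn
    have hn' : n < 0 := hn
    exact hn'.le
  · exact le_refl (0 : ℤ)

theorem hf_supp_Pp (f : WW) : W.Supp {n : ℤ | 0 ≤ n} (f - hfPm f) := by
  have h : f - hfPm f = W.proj {n : ℤ | n < 0}ᶜ f
      + W.val 1 (W.proj {n : ℤ | n < 0} f) • (1 : WW) := by
    have h1 := W.proj_add_compl (ω := ω1) {n : ℤ | n < 0} f
    rw [hfPm_apply]
    nth_rewrite 1 [← h1]
    abel
  rw [h]
  refine W.Supp.add (W.Supp.mono_set ?_ (W.supp_proj _ f)) (W.Supp.smul _ (W.supp_one ?_))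
  · intro n hn
    have hn' : ¬ n < 0 := hn
    exact not_lt.mp hn'
  · exact le_refl (0 : ℤ)

/-- the splitting: `Pm f = f_(<0) - f_(<0)(1)`, `Pp f = f - Pm f` -/
theorem exists_proj : ∃ Pp Pm : WW →L[ℂ] WW, (∀ x, ‖Pp x‖ ≤ 3 * ‖x‖) ∧ (∀ x, ‖Pm x‖ ≤ 3 * ‖x‖) ∧
    (∀ x, Pp x + Pm x = x) ∧ (∀ x ∈ K0, Pp x ∈ Kp) ∧ (∀ x ∈ K0, Pm x ∈ Km) := by
  refine ⟨ContinuousLinearMap.id ℂ WW - hfPm, hfPm, ?_, ?_, ?_, ?_, ?_⟩
  · intro x
    change ‖x - hfPm x‖ ≤ 3 * ‖x‖
    have h1 := norm_sub_le x (hfPm x)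
    have h2 := hf_norm_Pm x
    linarith
  · intro x
    have h2 := hf_norm_Pm x
    have h3 := norm_nonneg x
    linarith
  · intro x
    change x - hfPm x + hfPm x = x
    abel
  · intro x hx
    change x - hfPm x ∈ Kp
    have hx' : W.val 1 x = 0 := hx
    exact ⟨hf_supp_Pp x, by rw [hf_val_sub, hf_val_Pm, hx', sub_zero]⟩
  · intro x _
    exact ⟨hf_supp_Pm x, hf_val_Pm x⟩

/-- on the right of the line -/
theorem plus_side (k : ℕ) {f : WW} (hf : f ∈ Kp) :
    (∀ w : ℂ, 2 * (k : ℝ) ≤ w.re → ‖W.val (cay k w) f‖ ≤ ‖f‖) ∧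
    ContinuousOn (fun w => W.val (cay k w) f) {w : ℂ | 2 * (k : ℝ) ≤ w.re} ∧
    (∀ w : ℂ, 2 * (k : ℝ) < w.re → AnalyticAt ℂ (fun w => W.val (cay k w) f) w) :=
  hv_plus k hf.1

/-- on the left of the line; in the pole `w = 2k - 1` of `cay k` Lean's conventions give the right
value `f.co 0`: use the coordinate `(w - 2k + 1) / (w - 2k - 1)` -/
theorem minus_side (k : ℕ) {f : WW} (hf : f ∈ Km) :
    (∀ w : ℂ, w.re ≤ 2 * k → ‖W.val (cay k w) f‖ ≤ ‖f‖) ∧
    ContinuousOn (fun w => W.val (cay k w) f) {w : ℂ | w.re ≤ 2 * k} ∧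
    (∀ w : ℂ, w.re < 2 * k → AnalyticAt ℂ (fun w => W.val (cay k w) f) w) :=
  hv_minus k hf.1

theorem norm_cay (k : ℕ) {w : ℂ} (hw : w.re = 2 * k) : ‖cay k w‖ = 1 := by
  unfold cay
  have h2 : ‖w - 2 * k + 1‖ ^ 2 = w.im ^ 2 + 1 := by
    rw [Complex.sq_norm, Complex.normSq_apply]
    simp [hw]
    ring
  have h1 : ‖w - 2 * k - 1‖ ^ 2 = w.im ^ 2 + 1 := by
    rw [Complex.sq_norm, Complex.normSq_apply]
    simp [hw]
    ring
  have h3 : ‖w - 2 * k - 1‖ = ‖w - 2 * k + 1‖ := by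
    have h4 : ‖w - 2 * k - 1‖ ^ 2 = ‖w - 2 * k + 1‖ ^ 2 := by rw [h1, h2]
    exact (pow_left_inj₀ (norm_nonneg _) (norm_nonneg _) two_ne_zero).mp h4
  have h5 : ‖w - 2 * k + 1‖ ≠ 0 := by
    intro h
    rw [h] at h2
    nlinarith [sq_nonneg w.im]
  rw [norm_div, h3, div_self h5]

theorem hf_tendsto_cay (k : ℕ) :
    Tendsto (fun x : ℝ => cay k (2 * k + x * Complex.I)) atTop (𝓝 1) := by
  have h1 : ∀ x : ℝ, cay k (2 * k + x * Complex.I) - 1 = -2 / (x * Complex.I + 1) := by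
    intro x
    unfold cay
    have h3 : (x * Complex.I + 1 : ℂ) ≠ 0 := by
      intro h
      have h4 := congrArg Complex.re h
      simp at h4
    have h5 : (2 * (k : ℂ) + x * Complex.I - 2 * k + 1) = x * Complex.I + 1 := by ring
    have h6 : (2 * (k : ℂ) + x * Complex.I - 2 * k - 1) = x * Complex.I - 1 := by ring
    rw [h5, h6]
    field_simp
    ring
  have h2 : Tendsto (fun x : ℝ => -2 / (x * Complex.I + 1 : ℂ)) atTop (𝓝 0) := by
    rw [tendsto_zero_iff_norm_tendsto_zero]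
    have h3 : Tendsto (fun x : ℝ => 2 / x) atTop (𝓝 0) := tendsto_const_nhds.div_atTop tendsto_id
    refine squeeze_zero' (Eventually.of_forall fun x => norm_nonneg _) ?_ h3
    filter_upwards [eventually_gt_atTop (0 : ℝ)] with x hx
    rw [norm_div, norm_neg]
    have h4 : ‖(2 : ℂ)‖ = 2 := by simp
    rw [h4]
    have h5 : x ≤ ‖(x * Complex.I + 1 : ℂ)‖ := by
      have h6 := Complex.abs_im_le_norm (x * Complex.I + 1 : ℂ)
      have h7 : (x * Complex.I + 1 : ℂ).im = x := by simp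
      rw [h7, abs_of_pos hx] at h6
      exact h6
    exact div_le_div_of_nonneg_left (by norm_num) hx h5
  have h3 : Tendsto (fun x : ℝ => (cay k (2 * k + x * Complex.I) - 1) + 1) atTop (𝓝 (0 + 1)) := by
    refine Tendsto.add ?_ tendsto_const_nhds
    simp only [h1]
    exact h2
  simpa using h3

theorem hf_summable (f : WW) : Summable fun n : ℤ => ‖f.co n‖ := by
  have h := W.summ f
  simpa only [ω1_w, mul_one] using h

/-- the value tends to the value at `1` when `w` tends to infinity along the line -/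
theorem tendsto_line (k : ℕ) (f : WW) :
    Tendsto (fun x : ℝ => W.val (cay k (2 * k + x * Complex.I)) f) atTop (𝓝 (W.val 1 f)) := by
  unfold W.val
  have hn : ∀ x : ℝ, ‖cay k (2 * k + x * Complex.I)‖ = 1 := fun x => norm_cay k (by simp)
  refine tendsto_tsum_of_dominated_convergence (hf_summable f) ?_ ?_
  · intro n
    exact tendsto_const_nhds.mul ((hf_tendsto_cay k).zpow₀ n (Or.inl one_ne_zero))
  · refine Eventually.of_forall fun x n => ?_
    rw [norm_mul, norm_zpow, hn, one_zpow, mul_one]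

end Pool.Agent.Strip
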