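import Pool.Agent.Lib_MP_1209e6_st.MainC
import Pool.Agent.Lib_MP_1209e6_nt.Setup

/-! MAIN (helper46): the dense curve. -/

set_option autoImplicit false

open Filter Topology Pool.Agent.CampanaFlow Pool.Agent.CampanaB Pool.Agent.CampanaNT

namespace Pool.Agent.Strip

theorem dense_curve {n s : ℕ} (T : TubeSetup n s) :
    ∃ (γ : ℂ → T.R →ₐ[ℂ] ℂ) (B : Set ℂ), IsCurve Set.univ γ B ∧
      ∀ f : T.R, (∀ z, z ∉ B → γ z f = 0) → f = 0 := by
  classical
  rcases Nat.eq_zero_or_pos s with hs | hs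
  · subst hs
    refine ⟨fun _ => T.p.comp T.rho, ∅, ⟨fun z _ => Eventually.of_forall fun w => Set.notMem_empty w,
      fun f z _ _ => analyticAt_const, fun f z _ => MeromorphicAt.const _ _⟩, ?_⟩
    intro f hf
    by_contra hne
    have h1 : T.rho f ≠ 0 := fun h => hne (T.rho_inj (h.trans (map_zero _).symm))
    obtain ⟨w, hw⟩ := T.general _ h1
    cases w with
    | nil => exact hw (hf 0 (Set.notMem_empty _))
    | cons a l => exact a.elim0
  · haveI : Nonempty (Fin s) := ⟨⟨0, hs⟩⟩
    obtain ⟨G₀, hG₀⟩ := (inferInstance : Algebra.FiniteType ℂ T.S).out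
    let G : Finset T.S := G₀ ∪ Finset.univ.image fun l => T.rho (T.y l)
    have hG : Algebra.adjoin ℂ (G : Set T.S) = ⊤ := by
      refine top_le_iff.1 ?_
      rw [← hG₀]
      refine Algebra.adjoin_mono ?_
      intro x hx
      exact Finset.mem_coe.2 (Finset.mem_union_left _ (Finset.mem_coe.1 hx))
    exact dense_main T.SL T.rho T.rhoL T.sig T.comp T.rho_inj T.d T.e T.sig_d T.cd
      (fun l => T.rho (T.y l)) T.del T.del_y T.p T.general T.unram G hG
      (fun l => Finset.mem_union_right _ (Finset.mem_image.2 ⟨l, Finset.mem_univ _, rfl⟩))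

end Pool.Agent.Strip
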