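import Pool.Agent.Lib_MP_1209e6_st.Germ

/-! MAIN, part A: small lemmas. -/

set_option autoImplicit false

open Filter Topology Pool.Agent.CampanaFlow Pool.Agent.CampanaB

namespace Pool.Agent.Strip

theorem isOpen_strip (k : ℕ) : IsOpen (strip k) := by
  unfold strip
  by_cases hk : k = 0
  · subst hk
    simp only [true_or, true_and]
    exact isOpen_lt Complex.continuous_re continuous_const
  · simp only [hk, false_or]
    exact (isOpen_lt continuous_const Complex.continuous_re).inter
      (isOpen_lt Complex.continuous_re continuous_const)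

theorem convex_strip (k : ℕ) : Convex ℝ (strip k) := by
  unfold strip
  by_cases hk : k = 0
  · subst hk
    simp only [true_or, true_and]
    exact convex_halfSpace_re_lt _
  · simp only [hk, false_or]
    exact (convex_halfSpace_re_gt _).inter (convex_halfSpace_re_lt _)

theorem strip_subset (k : ℕ) : strip k ⊆ cstrip k := by
  rintro w ⟨h1, h2⟩
  exact ⟨h1.imp id le_of_lt, h2.le⟩

section

variable {S : Type} [CommRing S] [Algebra ℂ S]
variable {A : Type} [NormedCommRing A] [NormedAlgebra ℂ A] [NormOneClass A] [CompleteSpace A]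

theorem isFlowW_zero (D : Derivation ℂ S S) (q : S →ₐ[ℂ] A) : IsFlowW D q 0 q := by
  intro f
  refine ⟨?_, ?_⟩
  · refine summable_of_ne_finset_zero (s := {0}) fun n hn => ?_
    rw [norm_zero, zero_pow (by simpa using hn), mul_zero]
  · unfold evW
    rw [tsum_eq_single 0 (fun n hn => by rw [zero_pow hn, mul_zero])]
    rw [tcW_zero, pow_zero, mul_one]

theorem fl_zero (D : Derivation ℂ S S) (q : S →ₐ[ℂ] A) : fl D q 0 = q :=
  fl_eq (isFlowW_zero D q)

theorem disp_zero {n : ℕ} (dy : Fin n → Derivation ℂ S S) (y : Fin n → S) (p : S →ₐ[ℂ] ℂ)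
    (D : Derivation ℂ S S) (a : Fin n → A) (l : Fin n) : disp dy y p D a 0 l = 0 := by
  unfold disp
  rw [fl_zero, sub_self]

/-- naturality of the displacement -/
theorem disp_map {A' : Type} [NormedCommRing A'] [NormedAlgebra ℂ A'] [NormOneClass A']
    [CompleteSpace A'] (φ : A →ₐ[ℂ] A') (hφ : ∀ x, ‖φ x‖ ≤ ‖x‖) {n : ℕ}
    (dy : Fin n → Derivation ℂ S S) (y : Fin n → S) (p : S →ₐ[ℂ] ℂ) (D : Derivation ℂ S S)
    (a : Fin n → A) (z : A) (h : IsPt dy p a (pt dy p a))
    (hz : IsFlowW D (pt dy p a) z (fl D (pt dy p a) z)) (l : Fin n) :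
    φ (disp dy y p D a z l) = disp dy y p D (fun l => φ (a l)) (φ z) l := by
  have h1 := (pt_map φ hφ dy p a ⟨_, h⟩).2
  have h2 := hz.map φ hφ
  rw [← h1] at h2
  have h3 := fl_eq h2
  unfold disp
  rw [h3, h1, map_sub]
  rfl

end

end Pool.Agent.Strip
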