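import Pool.Agent.Lib_MP_1209e6_kc.U4

/-! PIECE FLOW: the flow of an analytic family of points on a connected open set. -/

set_option autoImplicit false

open Filter Topology Pool.Agent.CampanaFlow Pool.Agent.CampanaK

namespace Pool.Agent.Strip

theorem sf_size {S : Type} [CommRing S] [Algebra ℂ S] {D : Derivation ℂ S S}
    (cd : ChartData D) (M : Fin cd.e → ℝ) :
    ∃ C : ℝ, ∀ q : S →ₐ[ℂ] ℂ, (∀ a, ‖q (cd.c a)‖ ≤ M a) → cd.size q ≤ C := by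
  refine ⟨(1 + cd.deg) * ∑ j, ∑ l, ∑ s ∈ (cd.P j l).support, ‖(cd.P j l).coeff s‖ *
    ((∏ a, M a ^ s (Sum.inl a)) * ∏ i, (2 : ℝ) ^ s (Sum.inr i)), fun q hq => ?_⟩
  unfold ChartData.size
  gcongr with j _ l _ s hs a ha
  exact hq a

theorem sf_flow {S S₁ : Type} [CommRing S] [Algebra ℂ S] [CommRing S₁] [Algebra ℂ S₁]
    (σ : S₁ →ₐ[ℂ] S) (d : Derivation ℂ S₁ S₁) (e : Derivation ℂ S S) (hσ : ∀ x, σ (d x) = e (σ x))
    {p q : S →ₐ[ℂ] ℂ} {t : ℂ} (h : IsFlow e p t q) : IsFlow d (p.comp σ) t (q.comp σ) := by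
  have hiter : ∀ (n : ℕ) (f : S₁), σ (d^[n] f) = e^[n] (σ f) := by
    intro n
    induction n with
    | zero => intro f; rfl
    | succ n ih =>
      intro f
      rw [Function.iterate_succ_apply, Function.iterate_succ_apply, ih, hσ]
  intro f
  have htc : tc d (p.comp σ) f = tc e p (σ f) := by
    funext n
    unfold tc
    rw [AlgHom.comp_apply, hiter]
  obtain ⟨h4, h5⟩ := h (σ f)
  refine ⟨?_, ?_⟩
  · unfold Conv at h4 ⊢
    rw [htc]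
    exact h4
  · rw [AlgHom.comp_apply, h5]
    unfold ev
    rw [htc]

/-- `flow_onU` for `γ₀ w = (γ w).comp σ` (no exceptional points, `cd.size` bounded) -/
theorem strip_flow {S S₁ : Type} [CommRing S] [Algebra ℂ S] [CommRing S₁] [Algebra ℂ S₁]
    (σ : S₁ →ₐ[ℂ] S) (d : Derivation ℂ S₁ S₁) (e : Derivation ℂ S S) (hσ : ∀ x, σ (d x) = e (σ x))
    (cd : ChartData d) {U : Set ℂ} (hU : IsOpen U) (hc : IsPreconnected U) (γ : ℂ → S →ₐ[ℂ] ℂ)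
    (hγ : ∀ f, ∀ w ∈ U, AnalyticAt ℂ (fun w => γ w f) w)
    (hM : ∀ f : S, ∃ M : ℝ, ∀ w ∈ U, ‖γ w f‖ ≤ M) (z : ℂ → ℂ) (hz : ∀ w ∈ U, AnalyticAt ℂ z w)
    (w₀ : ℂ) (hw₀ : w₀ ∈ U) (he : ∀ᶠ w in 𝓝 w₀, ∃ q, IsFlow e (γ w) (z w) q) :
    ∃ (γ' : ℂ → S₁ →ₐ[ℂ] ℂ) (B : Set ℂ), IsCurve U γ' B ∧
      ∀ w ∈ U, ∀ q, IsFlow e (γ w) (z w) q → w ∉ B ∧ γ' w = q.comp σ := by
  have hγ₀ : IsCurve U (fun w => (γ w).comp σ) ∅ :=
    { disc := fun z _ => Eventually.of_forall fun w => Set.notMem_empty w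
      ana := fun f z hz _ => hγ (σ f) z hz
      mer := fun f z hz => (hγ (σ f) z hz).meromorphicAt }
  choose M hM' using fun a : Fin cd.e => hM (σ (cd.c a))
  obtain ⟨C₂, hC₂⟩ := sf_size cd M
  obtain ⟨γ', B, hγ', hB⟩ := flow_onU cd hU hc hγ₀ z hz (by
    intro w₁ hw₁
    have hb : ∀ᶠ w in 𝓝 w₁, ‖z w‖ ≤ ‖z w₁‖ + 1 := by
      have h1 := (hz w₁ hw₁).continuousAt.norm
      filter_upwards [h1.eventually_lt_const (lt_add_one ‖z w₁‖)] with w hw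
      exact hw.le
    refine ⟨(‖z w₁‖ + 1) * C₂, ?_⟩
    filter_upwards [hb, hU.mem_nhds hw₁] with w h1 hw _
    have h2 : cd.size ((γ w).comp σ) ≤ C₂ := by
      apply hC₂
      intro a
      exact hM' a w hw
    exact mul_le_mul h1 h2 (cd.size_nonneg _) (by positivity)) hw₀ (Set.notMem_empty _) (by
      filter_upwards [he] with w hw
      obtain ⟨q, hq⟩ := hw
      exact ⟨q.comp σ, sf_flow σ d e hσ hq⟩)
  exact ⟨γ', B, hγ', fun w hw q hq => hB w hw (Set.notMem_empty _) _ (sf_flow σ d e hσ hq)⟩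

end Pool.Agent.Strip
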