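import Pool.Agent.Lib_MP_1209e6_kc.BGrow
import Pool.Agent.Lib_MP_1209e6_nt.PtsE
import Pool.Agent.Lib_MP_1209e6_fl.F2
import Pool.Agent.Lib_MP_1209e6_fl.D5

/-! PIECE WALK: a Zariski dense walk with prescribed small steps. -/

set_option autoImplicit false

open Filter Topology Pool.Agent.CampanaFlow Pool.Agent.CampanaB

namespace Pool.Agent.Strip

section basic

variable {S : Type} [CommRing S] [Algebra ℂ S]

theorem wk_isFlow_zero (D : Derivation ℂ S S) (q : S →ₐ[ℂ] ℂ) : IsFlow D q 0 q := by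
  intro f
  have hs : ∀ n ≠ 0, ‖tc D q f n‖ * ‖(0 : ℂ)‖ ^ n = 0 := by
    intro n hn
    rw [norm_zero, zero_pow hn, mul_zero]
  refine ⟨summable_of_ne_finset_zero (s := {0}) fun n hn => hs n (by simpa using hn), ?_⟩
  unfold ev
  rw [tsum_eq_single 0 (fun n hn => by rw [zero_pow hn, mul_zero])]
  simp [tc]

/-- flow back -/
theorem wk_back {D : Derivation ℂ S S} {q q' : S →ₐ[ℂ] ℂ} {t T : ℂ} (h : ∀ f, Conv D q T f)
    (h1 : IsFlow D q t q') (hs : ‖t‖ + ‖t‖ ≤ ‖T‖) : IsFlow D q' (-t) q := by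
  obtain ⟨q₂, h2, h3⟩ := IsFlow.add (s₂ := -t) h h1 (by rwa [norm_neg])
  have h4 : q₂ = q := by
    have h5 := wk_isFlow_zero D q
    rw [add_neg_cancel] at h3
    exact h3.unique h5
  rwa [h4] at h2

/-- no function is killed by all words -/
def WkVG {ι : Type} (e : ι → Derivation ℂ S S) (q : S →ₐ[ℂ] ℂ) : Prop :=
  ∀ f : S, f ≠ 0 → ∃ l : List ι, q (word e l f) ≠ 0

theorem wk_word_append {ι : Type} (e : ι → Derivation ℂ S S) (a b : List ι) (f : S) :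
    word e (a ++ b) f = word e a (word e b f) := by
  induction a with
  | nil => rfl
  | cons i a ih =>
    show e i (word e (a ++ b) f) = e i (word e a (word e b f))
    rw [ih]

theorem wk_vg {ι : Type} {e : ι → Derivation ℂ S S} {q q' : S →ₐ[ℂ] ℂ} {i : ι} {t : ℂ}
    (hq : WkVG e q) (h : IsFlow (e i) q' t q) : WkVG e q' := by
  intro f hf
  obtain ⟨l, hl⟩ := hq f hf
  by_contra hcon
  push Not at hcon
  apply hl
  rw [(h (word e l f)).2]
  unfold ev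
  have h1 : ∀ n, tc (e i) q' (word e l f) n * t ^ n = 0 := by
    intro n
    have h2 : (e i)^[n] (word e l f) = word e (List.replicate n i ++ l) f := by
      rw [wk_word_append, Pool.Agent.TubeN.word_replicate]
    unfold tc
    rw [h2, hcon, zero_div, zero_mul]
  simp only [h1, tsum_zero]

end basic

section steps

variable {S : Type} [CommRing S] [Algebra ℂ S] {ι : Type}

/-- data for the uniform flows near `p` -/
structure WkUnif (e : ι → Derivation ℂ S S) (G : Finset S) (M ρ : ℝ) (L : S → ℝ) : Prop where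
  ρ_pos : 0 < ρ
  L_nonneg : ∀ f, 0 ≤ L f
  flow : ∀ q : S →ₐ[ℂ] ℂ, (∀ g ∈ G, ‖q g‖ ≤ M) → ∀ (i : ι) (t : ℂ), ‖t‖ ≤ ρ →
    ∃ q' : S →ₐ[ℂ] ℂ, IsFlow (e i) q t q' ∧ ∀ f, ‖q' f - q f‖ ≤ L f * ‖t‖

theorem wk_unif [Finite ι] (e : ι → Derivation ℂ S S) (G : Finset S)
    (hG : Algebra.adjoin ℂ (G : Set S) = ⊤) (M : ℝ) :
    ∃ (ρ : ℝ) (L : S → ℝ), WkUnif e G M ρ L := by
  obtain ⟨ρ, hρ, L, hL, h⟩ := Pool.Agent.TubeN.unif_flowW e G hG M
  refine ⟨ρ, L, hρ, hL, fun q hq i t ht => ?_⟩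
  obtain ⟨q', h1, -, h3⟩ := h ℂ q hq i t ht
  exact ⟨q', h1.isFlow, h3⟩

/-- one small step which makes `f` nonzero -/
theorem wk_step {e : ι → Derivation ℂ S S} {G : Finset S} {M ρ : ℝ} {L : S → ℝ}
    (hU : WkUnif e G M ρ L) {q : S →ₐ[ℂ] ℂ} (hq : ∀ g ∈ G, ‖q g‖ ≤ M) (hv : WkVG e q) (i : ι)
    (f : S) (hf : q (e i f) ≠ 0) (ε : ℝ) (hε : 0 < ε) :
    ∃ (τ : ℂ) (q' : S →ₐ[ℂ] ℂ), ‖τ‖ ≤ ε ∧ IsFlow (e i) q τ q' ∧ WkVG e q' ∧ q' f ≠ 0 ∧
      ∀ g, ‖q' g - q g‖ ≤ L g * ε := by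
  obtain ⟨η, hη⟩ : ∃ η : ℝ, η = min ε (ρ / 2) := ⟨_, rfl⟩
  have hη0 : 0 < η := hη ▸ lt_min hε (half_pos hU.ρ_pos)
  have hηε : η ≤ ε := hη ▸ min_le_left _ _
  have hηρ : η ≤ ρ / 2 := hη ▸ min_le_right _ _
  have hρ := hU.ρ_pos
  have hΛn : ∀ k : ℕ, ‖((η / (k + 1) : ℝ) : ℂ)‖ = η / (k + 1) := by
    intro k
    rw [Complex.norm_real, Real.norm_of_nonneg (by positivity)]
  have hΛle : ∀ k : ℕ, η / (k + 1) ≤ η := by
    intro k
    apply div_le_self hη0.le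
    have : (0 : ℝ) ≤ k := Nat.cast_nonneg k
    linarith
  have hfl : ∀ k : ℕ, ∃ q' : S →ₐ[ℂ] ℂ, IsFlow (e i) q ((η / (k + 1) : ℝ) : ℂ) q' ∧
      ∀ f, ‖q' f - q f‖ ≤ L f * ‖((η / (k + 1) : ℝ) : ℂ)‖ := fun k =>
    hU.flow q hq i _ (by rw [hΛn]; exact (hΛle k).trans (by linarith))
  choose Q hQ hQ' using hfl
  have hex : ∃ k, Q k f ≠ 0 := by
    by_contra hcon
    push Not at hcon
    have h0 : ∀ n, tc (e i) q f n = 0 := by
      refine tc_eq_zero (fun k : ℕ => ((η / (k + 1) : ℝ) : ℂ)) (fun k => ?_) ?_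
        (fun k => (hQ k f).1) (fun k => by rw [← (hQ k f).2]; exact hcon k)
      · rw [← norm_pos_iff, hΛn]
        positivity
      · rw [tendsto_zero_iff_norm_tendsto_zero]
        simp only [hΛn]
        have h5 := (tendsto_one_div_add_atTop_nhds_zero_nat (𝕜 := ℝ)).const_mul η
        rw [mul_zero] at h5
        refine h5.congr fun n => ?_
        rw [mul_one_div]
    have h1 := h0 1
    unfold tc at h1
    simp at h1
    exact hf h1
  obtain ⟨k, hk⟩ := hex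
  refine ⟨_, Q k, ?_, hQ k, ?_, hk, fun g => ?_⟩
  · rw [hΛn]; exact (hΛle k).trans hηε
  · have hT : ∀ f, Conv (e i) q ((ρ : ℝ) : ℂ) f := by
      obtain ⟨q'', h1, -⟩ := hU.flow q hq i ((ρ : ℝ) : ℂ)
        (by rw [Complex.norm_real, Real.norm_of_nonneg hρ.le])
      exact fun f => (h1 f).1
    refine wk_vg hv (wk_back hT (hQ k) ?_)
    rw [hΛn, Complex.norm_real, Real.norm_of_nonneg hρ.le]
    have := hΛle k
    linarith
  · refine (hQ' k g).trans (mul_le_mul_of_nonneg_left ?_ (hU.L_nonneg g))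
    rw [hΛn]; exact (hΛle k).trans hηε

end steps

section paths

variable {S : Type} [CommRing S] [Algebra ℂ S] {ι : Type}

/-- admissible steps at time `k` -/
def WkR (e : ι → Derivation ℂ S S) (G : Finset S) (p : S →ₐ[ℂ] ℂ) (δ : ℝ) (t : ℕ → ℝ) (k : ℕ)
    (x y : S →ₐ[ℂ] ℂ) : Prop :=
  (∃ (i : ι) (τ : ℂ), ‖τ‖ ≤ t k ∧ IsFlow (e i) x τ y) ∧ ∀ g ∈ G, ‖y g - p g‖ ≤ δ

/-- good points at time `k` -/
def WkP (e : ι → Derivation ℂ S S) (G : Finset S) (p : S →ₐ[ℂ] ℂ) (δ : ℝ) (k : ℕ)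
    (x : S →ₐ[ℂ] ℂ) : Prop :=
  WkVG e x ∧ ∀ g ∈ G, ‖x g - p g‖ ≤ δ * (1 - (1 / 2) ^ k)

/-- a finite path of length `n` -/
structure WkV (e : ι → Derivation ℂ S S) (G : Finset S) (p : S →ₐ[ℂ] ℂ) (δ : ℝ) (t : ℕ → ℝ)
    (n : ℕ) (m : ℕ → S →ₐ[ℂ] ℂ) : Prop where
  zero : m 0 = p
  step : ∀ k < n, WkR e G p δ t k (m k) (m (k + 1))
  good : WkP e G p δ n (m n)

variable {e : ι → Derivation ℂ S S} {G : Finset S} {p : S →ₐ[ℂ] ℂ} {δ : ℝ} {t : ℕ → ℝ}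

theorem WkV.snoc {n : ℕ} {m : ℕ → S →ₐ[ℂ] ℂ} (h : WkV e G p δ t n m) {y : S →ₐ[ℂ] ℂ}
    (hR : WkR e G p δ t n (m n) y) (hP : WkP e G p δ (n + 1) y) :
    ∃ m' : ℕ → S →ₐ[ℂ] ℂ, WkV e G p δ t (n + 1) m' ∧ (∀ k ≤ n, m' k = m k) ∧ m' (n + 1) = y := by
  classical
  have h1 : ∀ k ≤ n, Function.update m (n + 1) y k = m k := fun k hk =>
    Function.update_of_ne (by omega) _ _
  have h2 : Function.update m (n + 1) y (n + 1) = y := Function.update_self _ _ _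
  refine ⟨Function.update m (n + 1) y, ⟨?_, ?_, ?_⟩, h1, h2⟩
  · rw [h1 0 (Nat.zero_le _)]; exact h.zero
  · intro k hk
    rcases Nat.lt_succ_iff_lt_or_eq.1 hk with hk | rfl
    · rw [h1 k hk.le, h1 (k + 1) hk]
      exact h.step k hk
    · rw [h1 k le_rfl, h2]
      exact hR
  · rw [h2]; exact hP

theorem wkP_mono (hδ : 0 < δ) {k : ℕ} {x : S →ₐ[ℂ] ℂ} (h : WkP e G p δ k x) :
    WkP e G p δ (k + 1) x := by
  refine ⟨h.1, fun g hg => (h.2 g hg).trans (mul_le_mul_of_nonneg_left ?_ hδ.le)⟩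
  have : (1 / 2 : ℝ) ^ (k + 1) ≤ (1 / 2) ^ k :=
    pow_le_pow_of_le_one (by norm_num) (by norm_num) (Nat.le_succ k)
  linarith

theorem wkP_le (hδ : 0 < δ) {k : ℕ} {x : S →ₐ[ℂ] ℂ} (h : WkP e G p δ k x) :
    ∀ g ∈ G, ‖x g - p g‖ ≤ δ := by
  intro g hg
  refine (h.2 g hg).trans ?_
  have : (0 : ℝ) ≤ (1 / 2) ^ k := by positivity
  nlinarith

/-- a lazy step -/
theorem WkV.lazy [Nonempty ι] (hδ : 0 < δ) (ht : ∀ k, 0 < t k) {n : ℕ} {m : ℕ → S →ₐ[ℂ] ℂ}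
    (h : WkV e G p δ t n m) :
    ∃ m' : ℕ → S →ₐ[ℂ] ℂ, WkV e G p δ t (n + 1) m' ∧ (∀ k ≤ n, m' k = m k) := by
  obtain ⟨i⟩ := (inferInstance : Nonempty ι)
  obtain ⟨m', h1, h2, -⟩ := h.snoc (y := m n)
    ⟨⟨i, 0, by rw [norm_zero]; exact (ht n).le, wk_isFlow_zero _ _⟩, wkP_le hδ h.good⟩
    (wkP_mono hδ h.good)
  exact ⟨m', h1, h2⟩

/-- follow the letters of a word -/
theorem wk_reach {M ρ : ℝ} {L : S → ℝ} (hU : WkUnif e G M ρ L)
    (hM : ∀ q : S →ₐ[ℂ] ℂ, (∀ g ∈ G, ‖q g - p g‖ ≤ δ) → ∀ g ∈ G, ‖q g‖ ≤ M)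
    (hδ : 0 < δ) (ht : ∀ k, 0 < t k) (f : S) (l : List ι) :
    ∀ (n : ℕ) (m : ℕ → S →ₐ[ℂ] ℂ), WkV e G p δ t n m → m n (word e l f) ≠ 0 →
    ∃ (n' : ℕ) (m' : ℕ → S →ₐ[ℂ] ℂ), n ≤ n' ∧ WkV e G p δ t n' m' ∧ (∀ k ≤ n, m' k = m k) ∧
      m' n' f ≠ 0 := by
  induction l with
  | nil => exact fun n m h hf => ⟨n, m, le_rfl, h, fun _ _ => rfl, hf⟩
  | cons i l ih =>
    intro n m h hf
    obtain ⟨A, hA⟩ : ∃ A : ℝ, A = 1 + ∑ g ∈ G, L g := ⟨_, rfl⟩
    have hA1 : 1 ≤ A := by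
      rw [hA]
      have := Finset.sum_nonneg fun g (_ : g ∈ G) => hU.L_nonneg g
      linarith
    have hLA : ∀ g ∈ G, L g ≤ A := by
      intro g hg
      rw [hA]
      have := Finset.single_le_sum (f := L) (fun g _ => hU.L_nonneg g) hg
      linarith
    obtain ⟨τ, q', h1, h2, h3, h4, h5⟩ := wk_step hU (hM (m n) (wkP_le hδ h.good)) h.good.1 i
      (word e l f) hf (min (t n) (δ * (1 / 2) ^ (n + 1) / A))
      (lt_min (ht n) (by positivity))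
    have hP : WkP e G p δ (n + 1) q' := by
      refine ⟨h3, fun g hg => ?_⟩
      have h6 : ‖q' g - m n g‖ ≤ δ * (1 / 2) ^ (n + 1) := by
        refine (h5 g).trans ?_
        calc L g * min (t n) (δ * (1 / 2) ^ (n + 1) / A)
            ≤ A * (δ * (1 / 2) ^ (n + 1) / A) := by
              apply mul_le_mul (hLA g hg) (min_le_right _ _)
              · exact (lt_min (ht n) (by positivity)).le
              · linarith
          _ = δ * (1 / 2) ^ (n + 1) := by field_simp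
      have h7 := h.good.2 g hg
      have h8 : q' g - p g = (q' g - m n g) + (m n g - p g) := by ring
      rw [h8]
      refine (norm_add_le _ _).trans ((add_le_add h6 h7).trans (le_of_eq ?_))
      rw [pow_succ]
      ring
    obtain ⟨m₁, h6, h7, h8⟩ := h.snoc (y := q')
      ⟨⟨i, τ, h1.trans (min_le_left _ _), h2⟩, wkP_le hδ hP⟩ hP
    obtain ⟨n', m', h9, h10, h11, h12⟩ := ih (n + 1) m₁ h6 (by rw [h8]; exact h4)
    refine ⟨n', m', by omega, h10, fun k hk => ?_, h12⟩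
    rw [h11 k (by omega), h7 k hk]

/-- kill a finite dimensional space -/
theorem wk_kill {M ρ : ℝ} {L : S → ℝ} (hU : WkUnif e G M ρ L)
    (hM : ∀ q : S →ₐ[ℂ] ℂ, (∀ g ∈ G, ‖q g - p g‖ ≤ δ) → ∀ g ∈ G, ‖q g‖ ≤ M)
    (hδ : 0 < δ) (ht : ∀ k, 0 < t k) (d : ℕ) :
    ∀ (V : Submodule ℂ S), V.FG → Module.finrank ℂ V ≤ d → ∀ (n : ℕ) (m : ℕ → S →ₐ[ℂ] ℂ),
      WkV e G p δ t n m →
    ∃ (n' : ℕ) (m' : ℕ → S →ₐ[ℂ] ℂ), n ≤ n' ∧ WkV e G p δ t n' m' ∧ (∀ k ≤ n, m' k = m k) ∧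
      ∀ f ∈ V, (∀ k ≤ n', m' k f = 0) → f = 0 := by
  induction d with
  | zero =>
    intro V hV hd n m h
    have : Module.Finite ℂ V := Module.Finite.iff_fg.2 hV
    have h0 : V = ⊥ := by
      rw [← Submodule.finrank_eq_zero]
      omega
    refine ⟨n, m, le_rfl, h, fun _ _ => rfl, fun f hf _ => ?_⟩
    rw [h0] at hf
    exact (Submodule.mem_bot ℂ).1 hf
  | succ d ih =>
    intro V hV hd n m h
    have : Module.Finite ℂ V := Module.Finite.iff_fg.2 hV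
    by_cases hz : ∀ f ∈ V, (∀ k ≤ n, m k f = 0) → f = 0
    · exact ⟨n, m, le_rfl, h, fun _ _ => rfl, hz⟩
    push Not at hz
    obtain ⟨f, hf, -, hf0⟩ := hz
    obtain ⟨l, hl⟩ := h.good.1 f hf0
    obtain ⟨n₁, m₁, h1, h2, h3, h4⟩ := wk_reach hU hM hδ ht f l n m h hl
    have hlt : V ⊓ LinearMap.ker (m₁ n₁).toLinearMap < V := by
      refine lt_of_le_of_ne inf_le_left fun heq => h4 ?_
      have : f ∈ V ⊓ LinearMap.ker (m₁ n₁).toLinearMap := by rw [heq]; exact hf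
      exact this.2
    have hfg : (V ⊓ LinearMap.ker (m₁ n₁).toLinearMap).FG :=
      Module.Finite.iff_fg.1 (Submodule.finiteDimensional_of_le hlt.le)
    have hrank : Module.finrank ℂ (V ⊓ LinearMap.ker (m₁ n₁).toLinearMap : Submodule ℂ S) ≤ d := by
      have := Submodule.finrank_lt_finrank_of_lt hlt
      omega
    obtain ⟨n', m', h5, h6, h7, h8⟩ := ih _ hfg hrank n₁ m₁ h2
    refine ⟨n', m', h1.trans h5, h6, fun k hk => by rw [h7 k (hk.trans h1), h3 k hk], ?_⟩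
    intro g hg hk
    refine h8 g ⟨hg, ?_⟩ hk
    show (m₁ n₁) g = 0
    rw [← h7 n₁ le_rfl]
    exact hk n₁ h5

end paths

/-- exhaustion by finite dimensional spaces -/
theorem wk_exhaust {S : Type} [CommRing S] [Algebra ℂ S] (G : Finset S)
    (hG : Algebra.adjoin ℂ (G : Set S) = ⊤) :
    ∃ V : ℕ → Submodule ℂ S, (∀ j, (V j).FG) ∧ ∀ f : S, ∃ j, f ∈ V j := by
  classical
  obtain ⟨N, hN⟩ : ∃ N : Submodule ℂ S, N = Submodule.span ℂ (insert (1 : S) (G : Set S)) := ⟨_, rfl⟩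
  have hfg : N.FG := by
    rw [hN]
    exact Submodule.fg_span ((Finset.finite_toSet G).insert 1)
  have h1 : (1 : S) ∈ N := by rw [hN]; exact Submodule.subset_span (Set.mem_insert _ _)
  have hle : (1 : Submodule ℂ S) ≤ N := Submodule.one_le.2 h1
  have hmono : ∀ a b : ℕ, N ^ a ≤ N ^ (a + b) := by
    intro a b
    rw [pow_add]
    calc N ^ a = N ^ a * 1 := (mul_one _).symm
      _ ≤ N ^ a * N ^ b := mul_le_mul' le_rfl (one_le_pow_of_one_le' hle b)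
  refine ⟨fun j => N ^ j, fun j => hfg.pow j, fun f => ?_⟩
  show ∃ j : ℕ, f ∈ N ^ j
  have hf : f ∈ Algebra.adjoin ℂ (G : Set S) := by rw [hG]; trivial
  induction hf using Algebra.adjoin_induction with
  | mem x hx => exact ⟨1, by rw [pow_one, hN]; exact Submodule.subset_span (Set.mem_insert_of_mem _ hx)⟩
  | algebraMap r => exact ⟨0, by rw [pow_zero]; exact Submodule.algebraMap_mem r⟩
  | add x y _ _ hx hy =>
    obtain ⟨a, ha⟩ := hx
    obtain ⟨b, hb⟩ := hy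
    exact ⟨a + b, Submodule.add_mem _ (hmono a b ha) (by rw [add_comm]; exact hmono b a hb)⟩
  | mul x y _ _ hx hy =>
    obtain ⟨a, ha⟩ := hx
    obtain ⟨b, hb⟩ := hy
    exact ⟨a + b, by rw [pow_add]; exact Submodule.mul_mem_mul ha hb⟩

/-- All the steps `‖τ k‖ ≤ t k`, all the points within `δ` of `p` on the generators, and only `0` vanishes at
all the points. The property of `p` (no `f ≠ 0` is killed by all the words) is preserved by small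
steps (flow back). `S` has countable dimension: exhaust it by finite dimensional subspaces `V_j` and
make the space of the elements of `V_j` which vanish at the points smaller by finitely many steps. -/
theorem walk {S : Type} [CommRing S] [IsDomain S] [Algebra ℂ S] {ι : Type} [Finite ι]
    [Nonempty ι] (e : ι → Derivation ℂ S S) (G : Finset S)
    (hG : Algebra.adjoin ℂ (G : Set S) = ⊤) (p : S →ₐ[ℂ] ℂ)
    (hp : ∀ f : S, f ≠ 0 → ∃ l : List ι, p (word e l f) ≠ 0) (δ : ℝ) (hδ : 0 < δ) (t : ℕ → ℝ)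
    (ht : ∀ k, 0 < t k) :
    ∃ (i : ℕ → ι) (τ : ℕ → ℂ) (m : ℕ → S →ₐ[ℂ] ℂ), m 0 = p ∧ (∀ k, ‖τ k‖ ≤ t k) ∧
      (∀ k, IsFlow (e (i k)) (m k) (τ k) (m (k + 1))) ∧ (∀ k, ∀ g ∈ G, ‖m k g - p g‖ ≤ δ) ∧
      ∀ f : S, (∀ k, m k f = 0) → f = 0 := by
  classical
  obtain ⟨M, hMd⟩ : ∃ M : ℝ, M = (∑ g ∈ G, ‖p g‖) + δ := ⟨_, rfl⟩
  have hM : ∀ q : S →ₐ[ℂ] ℂ, (∀ g ∈ G, ‖q g - p g‖ ≤ δ) → ∀ g ∈ G, ‖q g‖ ≤ M := by
    intro q hq g hg
    have h1 : ‖p g‖ ≤ ∑ g ∈ G, ‖p g‖ :=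
      Finset.single_le_sum (f := fun g => ‖p g‖) (fun _ _ => norm_nonneg _) hg
    have h2 : q g = (q g - p g) + p g := by ring
    rw [h2, hMd]
    refine (norm_add_le _ _).trans ?_
    have := hq g hg
    linarith
  obtain ⟨ρ, L, hU⟩ := wk_unif e G hG M
  obtain ⟨V, hVfg, hV⟩ := wk_exhaust G hG
  let X := {s : ℕ × (ℕ → S →ₐ[ℂ] ℂ) // WkV e G p δ t s.1 s.2}
  have hstep : ∀ (j : ℕ) (s : X), ∃ s' : X, s.1.1 < s'.1.1 ∧ (∀ k ≤ s.1.1, s'.1.2 k = s.1.2 k) ∧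
      ∀ f ∈ V j, (∀ k ≤ s'.1.1, s'.1.2 k f = 0) → f = 0 := by
    intro j s
    obtain ⟨m₁, h1, h2⟩ := WkV.lazy hδ ht s.2
    obtain ⟨n', m', h3, h4, h5, h6⟩ := wk_kill hU hM hδ ht _ (V j) (hVfg j) le_rfl _ m₁ h1
    refine ⟨⟨(n', m'), h4⟩, ?_, fun k hk => ?_, h6⟩
    · show s.1.1 < n'
      omega
    · show m' k = s.1.2 k
      rw [h5 k (by omega), h2 k hk]
  choose F hF1 hF2 hF3 using hstep
  have h00 : WkV e G p δ t 0 (fun _ => p) := by
    refine ⟨rfl, fun k hk => absurd hk (Nat.not_lt_zero k), hp, fun g _ => ?_⟩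
    simp
  let seq : ℕ → X := fun n => Nat.rec ⟨(0, fun _ => p), h00⟩ (fun j s => F j s) n
  have hseq : ∀ j, seq (j + 1) = F j (seq j) := fun j => rfl
  have hlt : ∀ j, (seq j).1.1 < (seq (j + 1)).1.1 := fun j => by rw [hseq]; exact hF1 j _
  have hge : ∀ j, j ≤ (seq j).1.1 := by
    intro j
    induction j with
    | zero => exact Nat.zero_le _
    | succ j ih => have := hlt j; omega
  have hmono : ∀ j k, (seq j).1.1 ≤ (seq (j + k)).1.1 := by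
    intro j k
    induction k with
    | zero => exact le_rfl
    | succ k ih => exact ih.trans (hlt (j + k)).le
  have hagree : ∀ j k, ∀ a ≤ (seq j).1.1, (seq (j + k)).1.2 a = (seq j).1.2 a := by
    intro j k
    induction k with
    | zero => exact fun _ _ => rfl
    | succ k ih =>
      intro a ha
      have h1 : seq (j + (k + 1)) = F (j + k) (seq (j + k)) := hseq (j + k)
      rw [h1, hF2 (j + k) _ a (ha.trans (hmono j k)), ih a ha]
  obtain ⟨m, hm⟩ : ∃ m : ℕ → S →ₐ[ℂ] ℂ, m = fun k => (seq k).1.2 k := ⟨_, rfl⟩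
  have hmk : ∀ j, ∀ a ≤ (seq j).1.1, m a = (seq j).1.2 a := by
    intro j a ha
    rw [hm]
    show (seq a).1.2 a = (seq j).1.2 a
    rcases le_total a j with h | h
    · obtain ⟨k, rfl⟩ := Nat.exists_eq_add_of_le h
      exact (hagree a k a (hge a)).symm
    · obtain ⟨k, rfl⟩ := Nat.exists_eq_add_of_le h
      exact hagree j k _ ha
  have hR : ∀ k, WkR e G p δ t k (m k) (m (k + 1)) := by
    intro k
    have h1 := hge (k + 1)
    rw [hmk (k + 1) k (by omega), hmk (k + 1) (k + 1) h1]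
    exact (seq (k + 1)).2.step k (by omega)
  have hm0 : m 0 = p := by
    rw [hmk 0 0 (Nat.zero_le _)]
    exact (seq 0).2.zero
  choose i τ hτ hfl using fun k => (hR k).1
  refine ⟨i, τ, m, hm0, hτ, hfl, fun k g hg => ?_, fun f hf => ?_⟩
  · cases k with
    | zero => rw [hm0, sub_self, norm_zero]; exact hδ.le
    | succ k => exact (hR k).2 g hg
  · obtain ⟨j, hj⟩ := hV f
    refine hF3 j (seq j) f hj fun k hk => ?_
    have h1 : seq (j + 1) = F j (seq j) := hseq j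
    rw [← h1] at hk ⊢
    rw [← hmk (j + 1) k hk]
    exact hf k

end Pool.Agent.Strip
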