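import Pool.Agent.Lib_MP_1209e6_st.Sol
import Pool.Agent.Lib_MP_1209e6_st.MainA
import Pool.Agent.Lib_MP_1209e6_st.Ana
import Pool.Agent.Lib_MP_1209e6_st.StripFlow
import Pool.Agent.Lib_MP_1209e6_st.GlueStrips
import Pool.Agent.Lib_MP_1209e6_st.Walk
import Pool.Agent.Lib_MP_1209e6_k3.HomEq

/-! MAIN, part B: the curve from the functions on the strips. -/

set_option autoImplicit false

open Filter Topology Pool.Agent.CampanaFlow Pool.Agent.CampanaB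

namespace Pool.Agent.Strip

/-- the curve on one strip -/
theorem strip_curve {R S S₁ : Type} [CommRing R] [Algebra ℂ R] [CommRing S] [Algebra ℂ S]
    [CommRing S₁] [Algebra ℂ S₁] (σ : S₁ →ₐ[ℂ] S) (ρL : R →ₐ[ℂ] S₁) (rho : R →ₐ[ℂ] S)
    (hρ : ∀ x, σ (ρL x) = rho x) (d : Derivation ℂ S₁ S₁) (e : Derivation ℂ S S)
    (hσ : ∀ x, σ (d x) = e (σ x)) (cd : ChartData d) (k : ℕ) (γ : ℂ → S →ₐ[ℂ] ℂ)
    (hγ : ∀ f, ∀ w ∈ strip k, AnalyticAt ℂ (fun w => γ w f) w)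
    (hM : ∀ f : S, ∃ M : ℝ, ∀ w ∈ strip k, ‖γ w f‖ ≤ M) (z : ℂ → ℂ)
    (hz : ∀ w, AnalyticAt ℂ z w) (ρ : ℝ)
    (hflow : ∀ w ∈ strip k, ‖z w‖ < ρ → IsFlowW e (γ w) (z w) (fl e (γ w) (z w)))
    (hz0 : ∃ w₁ ∈ closure (strip k), ‖z w₁‖ < ρ) :
    ∃ (γ' : ℂ → R →ₐ[ℂ] ℂ) (B : Set ℂ), IsCurve (strip k) γ' B ∧
      ∀ w ∈ strip k, ‖z w‖ < ρ → w ∉ B ∧ γ' w = (fl e (γ w) (z w)).comp rho := by
  obtain ⟨w₁, hw₁, hz1⟩ := hz0
  have hopen : IsOpen {w : ℂ | ‖z w‖ < ρ} := by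
    refine isOpen_lt (Continuous.norm ?_) continuous_const
    exact continuous_iff_continuousAt.2 fun w => (hz w).continuousAt
  obtain ⟨w₀, hw₀, hw₀s⟩ := mem_closure_iff.1 hw₁ _ hopen hz1
  obtain ⟨γ', B, hc, h⟩ := strip_flow σ d e hσ cd (isOpen_strip k)
    (convex_strip k).isPreconnected γ hγ hM z (fun w _ => hz w) w₀ hw₀s (by
      filter_upwards [hopen.mem_nhds hw₀, (isOpen_strip k).mem_nhds hw₀s] with w h1 h2
      exact ⟨_, (hflow w h2 h1).isFlow⟩)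
  refine ⟨fun w => (γ' w).comp ρL, B, ⟨hc.disc, fun f z hz hzB => hc.ana (ρL f) z hz hzB,
    fun f z hz => hc.mer (ρL f) z hz⟩, ?_⟩
  intro w hw hzw
  obtain ⟨h1, h2⟩ := h w hw _ (hflow w hw hzw).isFlow
  refine ⟨h1, ?_⟩
  apply AlgHom.ext
  intro f
  show γ' w (ρL f) = fl e (γ w) (z w) (rho f)
  rw [h2]
  show fl e (γ w) (z w) (σ (ρL f)) = _
  rw [hρ]

end Pool.Agent.Strip
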