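import Pool.Agent.Lib_MP_1209e6_st.MainB

/-! MAIN, part C: the dense curve for one very general point. -/

set_option autoImplicit false

open Filter Topology Pool.Agent.CampanaFlow Pool.Agent.CampanaB Pool.Agent.Lib_MP_1858fb_w

namespace Pool.Agent.Strip

/-- shift of a sequence, with a given first term -/
def sh {α : Type} (x : α) (f : ℕ → α) : ℕ → α
  | 0 => x
  | k + 1 => f k

theorem dense_main {R S : Type} [CommRing R] [Algebra ℂ R] [CommRing S] [IsDomain S] [Algebra ℂ S]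
    {ι : Type} [Finite ι] [Nonempty ι] (SL : ι → Type) [∀ a, CommRing (SL a)]
    [∀ a, Algebra ℂ (SL a)] (rho : R →ₐ[ℂ] S) (rhoL : ∀ a, R →ₐ[ℂ] SL a)
    (sig : ∀ a, SL a →ₐ[ℂ] S) (hcomp : ∀ a f, sig a (rhoL a f) = rho f)
    (hinj : Function.Injective rho) (d : ∀ a, Derivation ℂ (SL a) (SL a))
    (e : ι → Derivation ℂ S S) (hsig : ∀ a f, sig a (d a f) = e a (sig a f))
    (cd : ∀ a, ChartData (d a)) {n : ℕ} (y : Fin n → S) (dy : Fin n → Derivation ℂ S S)
    (hy : ∀ i l, dy i (y l) = if i = l then 1 else 0) (p : S →ₐ[ℂ] ℂ)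
    (hp : ∀ f : S, f ≠ 0 → ∃ w : List ι, p (word e w f) ≠ 0)
    (hun : ∀ f : S, ∃ h : S, p h ≠ 0 ∧ h * (f - algebraMap ℂ S (p f)) ∈
      Ideal.span (Set.range fun l => y l - algebraMap ℂ S (p (y l))))
    (G : Finset S) (hG : Algebra.adjoin ℂ (G : Set S) = ⊤) (hyG : ∀ l, y l ∈ G) :
    ∃ (γ : ℂ → R →ₐ[ℂ] ℂ) (B : Set ℂ), IsCurve Set.univ γ B ∧
      ∀ f : R, (∀ z, z ∉ B → γ z f = 0) → f = 0 := by
  classical
  have hne : Nonempty S := ⟨0⟩
  -- local uniqueness
  have hrange : Set.range (Subtype.val : {x // x ∈ G} → S) = (G : Set S) := by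
    ext x; simp
  obtain ⟨ε, hε, huniq⟩ := K3Node.hom_eq (Subtype.val : {x // x ∈ G} → S)
    (by rw [hrange]; exact hG) y p (fun i => hun _)
  have uniq : ∀ φ ψ : S →ₐ[ℂ] ℂ, (∀ g ∈ G, ‖φ g - p g‖ ≤ ε) → (∀ g ∈ G, ‖ψ g - p g‖ ≤ ε) →
      (∀ l, φ (y l) = ψ (y l)) → φ = ψ := fun φ ψ h1 h2 h3 =>
    huniq ℂ φ ψ (fun i => h1 _ i.2) (fun i => h2 _ i.2) h3
  -- germs
  obtain ⟨ρ₁, C, hρ₁, hC, hgerm⟩ := germ e dy y hy G hG p ε hε
  obtain ⟨ρ₂, hρ₂, hana1, hana2, hana3, hana4⟩ := ana e dy G hG p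
  obtain ⟨ρ, hρdef⟩ : ∃ ρ : ℝ, ρ = min ρ₁ ρ₂ := ⟨_, rfl⟩
  have hρ : 0 < ρ := by rw [hρdef]; exact lt_min hρ₁ hρ₂
  have hr1 : ρ ≤ ρ₁ := by rw [hρdef]; exact min_le_left _ _
  have hr2 : ρ ≤ ρ₂ := by rw [hρdef]; exact min_le_right _ _
  obtain ⟨gW1, gW2, gW3⟩ := hgerm WW
  obtain ⟨gC1, gC2, gC3⟩ := hgerm ℂ
  -- naturality
  have hofId : ∀ x : ℂ, ‖(Algebra.ofId ℂ WW) x‖ ≤ ‖x‖ := fun x => by
    show ‖algebraMap ℂ WW x‖ ≤ ‖x‖
    rw [norm_algebraMap']
  obtain ⟨t, ht, hsol⟩ := sol (fun i a z => disp dy y p (e i) a z)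
    (fun i a z => disp dy y p (e i) a z) ρ C hρ hC
    (fun i a a' z ha ha' hz l => (gW3 a a' (ha.trans hr1) (ha'.trans hr1) z z (hz.trans hr1)
      (hz.trans hr1) i l).1)
    (fun i a z z' ha hz hz' l => (gW3 a a (ha.trans hr1) (ha.trans hr1) z z' (hz.trans hr1)
      (hz'.trans hr1) i l).2)
    (fun i a _ => by funext l; exact disp_zero dy y p (e i) a l)
    (fun i a z ha hz c hc l => disp_map (evc c hc) (norm_evc_le c hc) dy y p (e i) a z
      (gW1 a (ha.trans hr1)).1 (gW2 a (ha.trans hr1) z (hz.trans hr1) i).1 l)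
    (fun i a z ha hz l => (disp_map (Algebra.ofId ℂ WW) hofId dy y p (e i) a z
      (gC1 a (ha.trans hr1)).1 (gC2 a (ha.trans hr1) z (hz.trans hr1) i).1 l).symm)
  -- the walk
  obtain ⟨i', τ', m', hm0, hτ', hflow', hclose', hdense⟩ := walk e G hG p hp (min ε (ρ / 4))
    (lt_min hε (by positivity)) (fun k => min (t (k + 1)) (ρ / 2))
    (fun k => lt_min (ht (k + 1)) (by positivity))
  let i : ℕ → ι := sh (i' 0) i'
  let τ : ℕ → ℂ := sh 0 τ'
  let m : ℕ → S →ₐ[ℂ] ℂ := sh p m'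
  let β : ℕ → Fin n → ℂ := fun k l => m k (y l) - p (y l)
  have hmclose : ∀ k, ∀ g ∈ G, ‖m k g - p g‖ ≤ min ε (ρ / 4) := by
    intro k g hg
    cases k with
    | zero =>
      show ‖p g - p g‖ ≤ _
      rw [sub_self, norm_zero]
      exact (lt_min hε (by positivity)).le
    | succ k => exact hclose' k g hg
  have hβ : ∀ k, ‖β k‖ ≤ ρ / 4 := by
    intro k
    refine (pi_norm_le_iff_of_nonneg (by positivity)).2 fun l => ?_
    exact (hmclose k (y l) (hyG l)).trans (min_le_right _ _)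
  have hβρ : ∀ k, ‖β k‖ ≤ ρ := fun k => (hβ k).trans (by linarith)
  have hptm : ∀ k, pt dy p (β k) = m k := by
    intro k
    obtain ⟨-, h2, h3⟩ := gC1 (β k) ((hβρ k).trans hr1)
    refine uniq _ _ h3 (fun g hg => (hmclose k g hg).trans (min_le_left _ _)) fun l => ?_
    rw [h2 l]
    show p (y l) + (m k (y l) - p (y l)) = m k (y l)
    ring
  have hτt : ∀ k, ‖τ k‖ ≤ t k := by
    intro k
    cases k with
    | zero =>
      show ‖(0 : ℂ)‖ ≤ t 0
      rw [norm_zero]; exact (ht 0).le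
    | succ k => exact (hτ' k).trans (min_le_left _ _)
  have hτρ : ∀ k, ‖τ k‖ ≤ ρ / 2 := by
    intro k
    cases k with
    | zero =>
      show ‖(0 : ℂ)‖ ≤ ρ / 2
      rw [norm_zero]; positivity
    | succ k => exact (hτ' k).trans (min_le_right _ _)
  have hstep : ∀ k, fl (e (i k)) (pt dy p (β k)) (τ k) = m (k + 1) := by
    intro k
    rw [hptm k]
    cases k with
    | zero =>
      show fl (e (i' 0)) p 0 = m' 0
      rw [fl_zero, hm0]
    | succ k =>
      show fl (e (i' k)) (m' k) (τ' k) = m' (k + 1)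
      exact fl_eq (IsFlow.isFlowW (hflow' k))
  have hβstep : ∀ k l, β (k + 1) l = β k l + disp dy y p (e (i k)) (β k) (τ k) l := by
    intro k l
    unfold disp
    rw [hstep k, hptm k]
    show m (k + 1) (y l) - p (y l) = m k (y l) - p (y l) + (m (k + 1) (y l) - m k (y l))
    ring
  obtain ⟨b, z, hz1, hz2, hb1, hb2, hb3, hmatch, hlim1, hlim2⟩ := hsol i τ β rfl hτt hβ hβstep
    (ρ / 4) (by positivity)
  have ha : ∀ k, ∀ w ∈ cstrip k, ‖β k + b k w‖ ≤ ρ := fun k w hw => by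
    refine (norm_add_le _ _).trans ?_
    have := hβ k
    have := hb3 k w hw
    linarith
  have hzc : ∀ k, Continuous (z k) := fun k =>
    continuous_iff_continuousAt.2 fun w => (hz1 k w).continuousAt
  have hzL : ∀ (k : ℕ) (w : ℂ), w.re = 2 * k + 2 → ‖z k w‖ < ρ := by
    intro k w hw
    have h1 := (hmatch k w hw).1
    have h2 : ‖z k w‖ ≤ ‖z k w - τ k‖ + ‖τ k‖ := by
      have := norm_add_le (z k w - τ k) (τ k)
      rwa [sub_add_cancel] at this
    have := hτρ k
    linarith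
  have hzR : ∀ (k : ℕ) (w : ℂ), w.re = 2 * k + 2 → ‖z (k + 1) w‖ < ρ := by
    intro k w hw
    have h1 := (hmatch k w hw).2.1
    linarith
  -- the curves on the strips
  have hcurve : ∀ k, ∃ (γ' : ℂ → R →ₐ[ℂ] ℂ) (B : Set ℂ), IsCurve (strip k) γ' B ∧
      ∀ w ∈ strip k, ‖z k w‖ < ρ → w ∉ B ∧
        γ' w = (fl (e (i k)) (pt dy p (β k + b k w)) (z k w)).comp rho := by
    intro k
    refine strip_curve (sig (i k)) (rhoL (i k)) rho (hcomp (i k)) (d (i k)) (e (i k)) (hsig (i k))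
      (cd (i k)) k (fun w => pt dy p (β k + b k w)) ?_ ?_ (z k) (hz1 k) ρ ?_ ?_
    · intro f w hw
      refine (hana3 (strip k) (isOpen_strip k) (fun w => β k + b k w) (fun _ => 0)
        (fun w hw => (ha k w (strip_subset k hw)).trans hr2) (fun w _ => by
          rw [norm_zero]; exact hρ₂.le) ?_ (fun w _ => analyticAt_const) (i k) f w hw).1
      intro l w hw
      exact analyticAt_const.add (hb1 k w hw l)
    · intro f
      obtain ⟨M, hM⟩ := hana2 f
      exact ⟨M, fun w hw => hM _ ((ha k w (strip_subset k hw)).trans hr2)⟩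
    · intro w hw hzw
      exact (gC2 _ ((ha k w (strip_subset k hw)).trans hr1) _ (hzw.le.trans hr1) (i k)).1
    · cases k with
      | zero =>
        refine ⟨0, subset_closure ⟨Or.inl rfl, by norm_num⟩, ?_⟩
        rw [hz2, norm_zero]; exact hρ
      | succ k =>
        refine ⟨(2 * k + 2 : ℂ), ?_, hzR k _ (by simp)⟩
        rw [mem_closure_iff_seq_limit]
        refine ⟨fun j : ℕ => (2 * k + 2 : ℂ) + ((1 / ((j : ℝ) + 1) : ℝ) : ℂ), fun j => ?_, ?_⟩
        · have hj : (0 : ℝ) < 1 / ((j : ℝ) + 1) := by positivity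
          have hj1 : 1 / ((j : ℝ) + 1) ≤ 1 := by
            rw [div_le_one (by positivity)]
            have : (0 : ℝ) ≤ j := Nat.cast_nonneg j
            linarith
          have hre : ((2 * k + 2 : ℂ) + ((1 / ((j : ℝ) + 1) : ℝ) : ℂ)).re =
              2 * k + 2 + 1 / ((j : ℝ) + 1) := by
            rw [Complex.add_re, Complex.ofReal_re]
            simp
          refine ⟨Or.inr ?_, ?_⟩
          · rw [hre]; push_cast; linarith
          · rw [hre]; push_cast; linarith
        · have h1 : Tendsto (fun j : ℕ => ((1 / ((j : ℝ) + 1) : ℝ) : ℂ)) atTop (𝓝 0) := by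
            have h := (Complex.continuous_ofReal.tendsto 0).comp
              (tendsto_one_div_add_atTop_nhds_zero_nat (𝕜 := ℝ))
            rw [Complex.ofReal_zero] at h
            exact h
          have h2 := h1.const_add (2 * k + 2 : ℂ)
          rwa [add_zero] at h2
  choose γs Bs hγs hγeq using hcurve
  -- neighbourhoods of the lines
  have hball : ∀ (j : ℕ) (w₀ : ℂ), ‖z j w₀‖ < ρ →
      ∃ r : ℝ, 0 < r ∧ r ≤ 1 ∧ ∀ w ∈ Metric.ball w₀ r, ‖z j w‖ < ρ := by
    intro j w₀ hw₀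
    have hopen : IsOpen {w : ℂ | ‖z j w‖ < ρ} := isOpen_lt (hzc j).norm continuous_const
    obtain ⟨r, hr, hsub⟩ := Metric.isOpen_iff.1 hopen w₀ hw₀
    exact ⟨min r 1, lt_min hr one_pos, min_le_right _ _, fun w hw =>
      hsub (Metric.ball_subset_ball (min_le_left _ _) hw)⟩
  have hre : ∀ (w₀ w : ℂ) (r : ℝ), r ≤ 1 → w ∈ Metric.ball w₀ r → |w.re - w₀.re| < 1 := by
    intro w₀ w r hr hw
    rw [← Complex.sub_re]
    refine (Complex.abs_re_le_norm _).trans_lt ?_
    rw [← dist_eq_norm]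
    exact (Metric.mem_ball.1 hw).trans_le hr
  obtain ⟨γ', E, hcE, hline⟩ := glue_strips γs Bs hγs
    (fun k w => (fl (e (i k)) (pt dy p (β k + b k w)) (z k w)).comp rho)
    (fun k w => (fl (e (i (k + 1))) (pt dy p (β (k + 1) + b (k + 1) w)) (z (k + 1) w)).comp rho)
    (by
      intro k w₀ hw₀
      obtain ⟨r, hr, hr1', hrz⟩ := hball k w₀ (hzL k w₀ hw₀)
      refine ⟨r, hr, ?_, ?_⟩
      · intro w hw hwre
        refine hγeq k w ⟨?_, hwre⟩ (hrz w hw)
        right
        have h1 := abs_lt.1 (hre w₀ w r hr1' hw)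
        rw [hw₀] at h1
        linarith [h1.1]
      · intro f
        refine (hana4 ℂ _ (fun w => β k + b k w) (z k) ?_ ?_ ?_ ?_ (i k) (rho f)).2
        · rintro w ⟨hw, hw2⟩
          refine (ha k w ⟨Or.inr ?_, hw2⟩).trans hr2
          have h1 := abs_lt.1 (hre w₀ w r hr1' hw)
          rw [hw₀] at h1
          linarith [h1.1]
        · rintro w ⟨hw, -⟩
          exact (hrz w hw).le.trans hr2
        · refine continuousOn_const.add ((hb2 k).mono ?_)
          rintro w ⟨hw, hw2⟩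
          refine ⟨Or.inr ?_, hw2⟩
          have h1 := abs_lt.1 (hre w₀ w r hr1' hw)
          rw [hw₀] at h1
          linarith [h1.1]
        · exact (hzc k).continuousOn)
    (by
      intro k w₀ hw₀
      obtain ⟨r, hr, hr1', hrz⟩ := hball (k + 1) w₀ (hzR k w₀ hw₀)
      refine ⟨r, hr, ?_, ?_⟩
      · intro w hw hwre
        refine hγeq (k + 1) w ⟨Or.inr ?_, ?_⟩ (hrz w hw)
        · push_cast; linarith
        · have h1 := abs_lt.1 (hre w₀ w r hr1' hw)
          rw [hw₀] at h1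
          push_cast
          linarith [h1.2]
      · intro f
        refine (hana4 ℂ _ (fun w => β (k + 1) + b (k + 1) w) (z (k + 1)) ?_ ?_ ?_ ?_ (i (k + 1))
          (rho f)).2
        · rintro w ⟨hw, hw2⟩
          have h1 := abs_lt.1 (hre w₀ w r hr1' hw)
          rw [hw₀] at h1
          have hw2' : 2 * (k : ℝ) + 2 ≤ w.re := hw2
          refine (ha (k + 1) w ⟨Or.inr ?_, ?_⟩).trans hr2
          · push_cast; linarith
          · push_cast; linarith [h1.2]
        · rintro w ⟨hw, -⟩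
          exact (hrz w hw).le.trans hr2
        · refine continuousOn_const.add ((hb2 (k + 1)).mono ?_)
          rintro w ⟨hw, hw2⟩
          have h1 := abs_lt.1 (hre w₀ w r hr1' hw)
          rw [hw₀] at h1
          have hw2' : 2 * (k : ℝ) + 2 ≤ w.re := hw2
          refine ⟨Or.inr ?_, ?_⟩
          · push_cast; linarith
          · push_cast; linarith [h1.2]
        · exact (hzc (k + 1)).continuousOn)
    (by
      intro k w hw
      have hL : w ∈ cstrip k := ⟨Or.inr (by linarith), hw.le⟩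
      have hR : w ∈ cstrip (k + 1) := ⟨Or.inr (by push_cast; linarith), by push_cast; linarith⟩
      have hkey : fl (e (i k)) (pt dy p (β k + b k w)) (z k w) =
          fl (e (i (k + 1))) (pt dy p (β (k + 1) + b (k + 1) w)) (z (k + 1) w) := by
        refine uniq _ _
          (gC2 _ ((ha k w hL).trans hr1) _ ((hzL k w hw).le.trans hr1) (i k)).2
          (gC2 _ ((ha (k + 1) w hR).trans hr1) _ ((hzR k w hw).le.trans hr1) (i (k + 1))).2 ?_
        intro l
        have h1 := (hmatch k w hw).2.2 l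
        have h2 := (gC1 _ ((ha k w hL).trans hr1)).2.1 l
        have h3 := (gC1 _ ((ha (k + 1) w hR).trans hr1)).2.1 l
        have h4 : fl (e (i k)) (pt dy p (β k + b k w)) (z k w) (y l) =
            pt dy p (β k + b k w) (y l) + disp dy y p (e (i k)) (β k + b k w) (z k w) l := by
          unfold disp; ring
        have h5 : fl (e (i (k + 1))) (pt dy p (β (k + 1) + b (k + 1) w)) (z (k + 1) w) (y l) =
            pt dy p (β (k + 1) + b (k + 1) w) (y l) +
              disp dy y p (e (i (k + 1))) (β (k + 1) + b (k + 1) w) (z (k + 1) w) l := by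
          unfold disp; ring
        rw [h4, h5, h2, h3]
        simp only [Pi.add_apply]
        linear_combination h1
      show (fl (e (i k)) (pt dy p (β k + b k w)) (z k w)).comp rho = _
      rw [hkey])
  refine ⟨γ', E, hcE, ?_⟩
  intro f hf
  apply hinj
  rw [map_zero]
  refine hdense (rho f) fun k => ?_
  -- the limit along the line `2k + 2`
  show m (k + 1) (rho f) = 0
  let V : Set ((Fin n → ℂ) × ℂ) := {x | ‖x.1‖ ≤ ρ ∧ ‖x.2‖ ≤ ρ}
  have hcont := (hana4 ((Fin n → ℂ) × ℂ) V (fun x => x.1) (fun x => x.2)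
    (fun x hx => hx.1.trans hr2) (fun x hx => hx.2.trans hr2) continuousOn_fst continuousOn_snd
    (i (k + 1)) (rho f)).2
  have hV0 : (β (k + 1), (0 : ℂ)) ∈ V := ⟨hβρ (k + 1), by
    show ‖(0 : ℂ)‖ ≤ ρ
    rw [norm_zero]; exact hρ.le⟩
  have hlimx : Tendsto (fun x : ℝ => (β (k + 1) + b (k + 1) (2 * k + 2 + x * Complex.I),
      z (k + 1) (2 * k + 2 + x * Complex.I))) atTop (𝓝[V] (β (k + 1), (0 : ℂ))) := by
    refine tendsto_nhdsWithin_iff.2 ⟨?_, ?_⟩
    · have h1 := (hlim1 k).const_add (β (k + 1))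
      rw [add_zero] at h1
      exact h1.prodMk_nhds (hlim2 k)
    · refine Eventually.of_forall fun x => ?_
      have hxre : ((2 * k + 2 + x * Complex.I : ℂ)).re = 2 * k + 2 := by simp
      refine ⟨ha (k + 1) _ ⟨Or.inr ?_, ?_⟩, (hzR k _ hxre).le⟩
      · rw [hxre]; push_cast; linarith
      · rw [hxre]; push_cast; linarith
  have hlim := (hcont _ hV0).tendsto.comp hlimx
  have hzero : ∀ x : ℝ, ((fun x : (Fin n → ℂ) × ℂ =>
      fl (e (i (k + 1))) (pt dy p x.1) x.2 (rho f)) ∘ fun x : ℝ =>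
      (β (k + 1) + b (k + 1) (2 * k + 2 + x * Complex.I),
      z (k + 1) (2 * k + 2 + x * Complex.I))) x = 0 := by
    intro x
    have hxre : ((2 * k + 2 + x * Complex.I : ℂ)).re = 2 * k + 2 := by simp
    obtain ⟨h1, h2⟩ := hline k _ hxre
    have h3 := hf _ h1
    rw [h2] at h3
    exact h3
  have h0 : fl (e (i (k + 1))) (pt dy p (β (k + 1))) 0 (rho f) = 0 := by
    refine tendsto_nhds_unique hlim ?_
    refine tendsto_const_nhds.congr fun x => (hzero x).symm
  rw [fl_zero, hptm] at h0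
  exact h0

end Pool.Agent.Strip
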