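import Pool.Agent.Lib_MP_1858fb_w.Wiener

/-!
# Shifting a line: the transfer maps of the Wiener algebra

`c` is the Cayley variable of a vertical line.  The Cayley variable of the line at distance `d` to
the left is `phi d`, a function of `c` with nonnegative Taylor coefficients of sum one.
-/

set_option autoImplicit false

open scoped BigOperators

noncomputable section

namespace Pool.Agent.StripPhi

open Pool.Agent.Lib_MP_1858fb_w Pool.Agent.Lib_MP_1858fb_w.W

/-- the weight one -/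
def w1 : Wt where
  w _ := 1
  pos _ := one_pos
  zero := rfl
  sub _ _ := by norm_num

/-- the Wiener algebra of the circle -/
abbrev A : Type := W w1

/-- the nonnegative integers -/
def NN : Set ℤ := {k | 0 ≤ k}

theorem zero_mem_NN : (0 : ℤ) ∈ NN := le_refl (0 : ℤ)

theorem add_mem_NN : ∀ i ∈ NN, ∀ j ∈ NN, i + j ∈ NN := fun i hi j hj =>
  show (0 : ℤ) ≤ i + j from add_nonneg hi hj

/-- the subalgebra of the functions holomorphic on the disc -/
def AP : Subalgebra ℂ A := subalg w1 NN zero_mem_NN add_mem_NN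

theorem mem_AP {f : A} : f ∈ AP ↔ Supp NN f := mem_subalg

theorem isClosed_AP : IsClosed (AP : Set A) := isClosed_subalg w1 NN zero_mem_NN add_mem_NN

/-- the variable -/
def c : A := mono w1 1 1

theorem norm_c : ‖c‖ = 1 := by
  unfold c
  rw [norm_mono]
  simp [w1]

theorem c_mem : c ∈ AP := mem_AP.2 (supp_mono (S := NN) (show (0 : ℤ) ≤ 1 from zero_le_one) 1)

theorem norm_smul_one_le (a : ℝ) (ha : 0 ≤ a) : ‖((a : ℂ)) • (1 : A)‖ = a := by
  rw [norm_smul, norm_one, mul_one, Complex.norm_real, Real.norm_of_nonneg ha]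

variable {d : ℝ}

/-- the ratio of the geometric series -/
def x (d : ℝ) : A := ((d / (2 + d) : ℝ) : ℂ) • c

theorem norm_x (hd : 0 ≤ d) : ‖x d‖ = d / (2 + d) := by
  unfold x
  rw [norm_smul, norm_c, mul_one, Complex.norm_real, Real.norm_of_nonneg (by positivity)]

theorem x_lt (hd : 0 ≤ d) : ‖x d‖ < 1 := by
  rw [norm_x hd, div_lt_one (by positivity)]
  linarith

/-- the geometric series -/
def G (d : ℝ) : A := ∑' n : ℕ, (x d) ^ n

theorem mul_G (hd : 0 ≤ d) : (1 - x d) * G d = 1 := mul_neg_geom_series (x d) (x_lt hd)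

theorem norm_G_le (hd : 0 ≤ d) : ‖G d‖ ≤ (2 + d) / 2 := by
  have h := tsum_geometric_le_of_norm_lt_one (x d) (x_lt hd)
  rw [norm_one, norm_x hd] at h
  have h2 : (1 - d / (2 + d))⁻¹ = (2 + d) / 2 := by
    have : (2 + d) ≠ 0 := by positivity
    rw [inv_eq_iff_eq_inv, inv_div]
    field_simp
    ring
  unfold G
  rw [h2] at h
  linarith

theorem x_mem (d : ℝ) : x d ∈ AP := AP.smul_mem c_mem _

theorem G_mem (d : ℝ) : G d ∈ AP := by
  refine tsum_mem (s := AP) isClosed_AP (fun n => pow_mem (x_mem d) n)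

/-- the quotient `(1 - phi) / (1 - c)` -/
def R (d : ℝ) : A := ((2 / (2 + d) : ℝ) : ℂ) • G d

theorem R_mem (d : ℝ) : R d ∈ AP := AP.smul_mem (G_mem d) _

theorem norm_R_le (hd : 0 ≤ d) : ‖R d‖ ≤ 1 := by
  unfold R
  rw [norm_smul, Complex.norm_real, Real.norm_of_nonneg (by positivity)]
  calc 2 / (2 + d) * ‖G d‖ ≤ 2 / (2 + d) * ((2 + d) / 2) :=
        mul_le_mul_of_nonneg_left (norm_G_le hd) (by positivity)
    _ = 1 := by
        have : (2 + d) ≠ 0 := by positivity
        field_simp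

/-- the Cayley variable of the line at distance `d` to the left -/
def phi (d : ℝ) : A :=
  ((d / (2 + d) : ℝ) : ℂ) • (1 : A) + ((4 / (2 + d) ^ 2 : ℝ) : ℂ) • (c * G d)

theorem phi_mem (d : ℝ) : phi d ∈ AP :=
  AP.add_mem (AP.smul_mem AP.one_mem _) (AP.smul_mem (AP.mul_mem c_mem (G_mem d)) _)

theorem norm_cG_le (hd : 0 ≤ d) : ‖c * G d‖ ≤ (2 + d) / 2 := by
  refine (norm_mul_le _ _).trans ?_
  rw [norm_c, one_mul]
  exact norm_G_le hd

theorem norm_phi_le (hd : 0 ≤ d) : ‖phi d‖ ≤ 1 := by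
  unfold phi
  refine (norm_add_le _ _).trans ?_
  rw [norm_smul_one_le _ (by positivity), norm_smul, Complex.norm_real,
    Real.norm_of_nonneg (by positivity)]
  calc d / (2 + d) + 4 / (2 + d) ^ 2 * ‖c * G d‖
      ≤ d / (2 + d) + 4 / (2 + d) ^ 2 * ((2 + d) / 2) := by
        gcongr
        exact norm_cG_le hd
    _ = 1 := by
        have : (2 + d) ≠ 0 := by positivity
        field_simp
        ring

theorem one_sub_phi (hd : 0 ≤ d) : 1 - phi d = (1 - c) * R d := by
  have hg := mul_G hd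
  have h2 : (2 + (d : ℂ)) ≠ 0 := by
    have : (2 + d) ≠ 0 := by positivity
    exact_mod_cast this
  unfold x at hg
  unfold phi R
  rw [Algebra.smul_def] at hg
  rw [Algebra.smul_def, Algebra.smul_def, Algebra.smul_def]
  have e1 : (algebraMap ℂ A ((2 / (2 + d) : ℝ) : ℂ)) = 1 - algebraMap ℂ A ((d / (2 + d) : ℝ) : ℂ) := by
    rw [← map_one (algebraMap ℂ A), ← map_sub]
    congr 1
    push_cast
    field_simp
    ring
  have e2 : (algebraMap ℂ A ((4 / (2 + d) ^ 2 : ℝ) : ℂ)) =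
      (1 - algebraMap ℂ A ((d / (2 + d) : ℝ) : ℂ)) * (1 - algebraMap ℂ A ((d / (2 + d) : ℝ) : ℂ)) := by
    rw [← map_one (algebraMap ℂ A), ← map_sub, ← map_mul]
    congr 1
    push_cast
    field_simp
    ring
  rw [e1, e2]
  linear_combination (-(1 - algebraMap ℂ A ((d / (2 + d) : ℝ) : ℂ))) * hg

theorem norm_one_sub_phi_le (hd : 0 ≤ d) : ‖1 - phi d‖ ≤ 4 / (2 + d) := by
  have e : 1 - phi d = ((2 / (2 + d) : ℝ) : ℂ) • (1 : A) -
      ((4 / (2 + d) ^ 2 : ℝ) : ℂ) • (c * G d) := by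
    unfold phi
    have h2 : (2 + (d : ℂ)) ≠ 0 := by
      have : (2 + d) ≠ 0 := by positivity
      exact_mod_cast this
    have : ((2 / (2 + d) : ℝ) : ℂ) = 1 - ((d / (2 + d) : ℝ) : ℂ) := by
      push_cast
      field_simp
      ring
    rw [this, sub_smul, one_smul]
    abel
  rw [e]
  refine (norm_sub_le _ _).trans ?_
  rw [norm_smul_one_le _ (by positivity), norm_smul, Complex.norm_real,
    Real.norm_of_nonneg (by positivity)]
  calc 2 / (2 + d) + 4 / (2 + d) ^ 2 * ‖c * G d‖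
      ≤ 2 / (2 + d) + 4 / (2 + d) ^ 2 * ((2 + d) / 2) := by
        gcongr
        exact norm_cG_le hd
    _ = 4 / (2 + d) := by
        have : (2 + d) ≠ 0 := by positivity
        field_simp
        ring

/-! ### Composition with `phi` -/

theorem norm_phi_pow_le (hd : 0 ≤ d) (n : ℕ) : ‖phi d ^ n‖ ≤ 1 := by
  refine (norm_pow_le _ n).trans ?_
  exact pow_le_one₀ (norm_nonneg _) (norm_phi_le hd)

theorem summ_nat (f : A) : Summable fun n : ℕ => ‖f.co (n : ℤ)‖ := by
  have h := f.summ.comp_injective (i := fun n : ℕ => (n : ℤ)) Nat.cast_injective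
  refine h.congr fun n => ?_
  simp [w1]

theorem tsum_nat_le (f : A) : ∑' n : ℕ, ‖f.co (n : ℤ)‖ ≤ ‖f‖ := by
  rw [norm_eq]
  have h := Summable.tsum_le_tsum_of_inj (f := fun n : ℕ => ‖f.co (n : ℤ)‖)
    (g := fun k : ℤ => ‖f.co k‖ * w1.w k) (fun n : ℕ => (n : ℤ)) Nat.cast_injective
    (fun k _ => mul_nonneg (norm_nonneg _) (w1.pos k).le) (fun n => by simp [w1])
    (summ_nat f) f.summ
  exact h

theorem summable_compo (hd : 0 ≤ d) (f : A) :
    Summable fun n : ℕ => ‖f.co (n : ℤ) • phi d ^ n‖ := by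
  refine Summable.of_nonneg_of_le (fun n => norm_nonneg _) (fun n => ?_) (summ_nat f)
  rw [norm_smul]
  exact mul_le_of_le_one_right (norm_nonneg _) (norm_phi_pow_le hd n)

/-- composition with `phi` -/
def compo (d : ℝ) (f : A) : A := ∑' n : ℕ, f.co (n : ℤ) • phi d ^ n

theorem compo_mem (f : A) : compo d f ∈ AP :=
  tsum_mem (s := AP) isClosed_AP (fun n => AP.smul_mem (pow_mem (phi_mem d) n) _)

theorem norm_compo_le (hd : 0 ≤ d) (f : A) : ‖compo d f‖ ≤ ‖f‖ := by
  refine (norm_tsum_le_tsum_norm (summable_compo hd f)).trans ?_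
  refine le_trans ?_ (tsum_nat_le f)
  refine (summable_compo hd f).tsum_le_tsum (fun n => ?_) (summ_nat f)
  rw [norm_smul]
  exact mul_le_of_le_one_right (norm_nonneg _) (norm_phi_pow_le hd n)

theorem compo_add (hd : 0 ≤ d) (f g : A) : compo d (f + g) = compo d f + compo d g := by
  unfold compo
  rw [← (summable_compo hd f).of_norm.tsum_add (summable_compo hd g).of_norm]
  refine tsum_congr fun n => ?_
  rw [co_add, add_smul]

theorem compo_smul (a : ℂ) (f : A) : compo d (a • f) = a • compo d f := by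
  unfold compo
  rw [← tsum_const_smul'']
  refine tsum_congr fun n => ?_
  rw [co_smul, mul_smul]

theorem compo_neg (f : A) : compo d (-f) = -compo d f := by
  rw [← neg_one_smul ℂ f, compo_smul, neg_one_smul]

theorem compo_sub (hd : 0 ≤ d) (f g : A) : compo d (f - g) = compo d f - compo d g := by
  rw [sub_eq_add_neg, compo_add hd, compo_neg, ← sub_eq_add_neg]

theorem compo_mono (n : ℕ) (a : ℂ) : compo d (mono w1 n a) = a • phi d ^ n := by
  unfold compo
  rw [tsum_eq_single n]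
  · rw [co_mono, if_pos rfl]
  · intro m hm
    rw [co_mono, if_neg (by exact_mod_cast hm), zero_smul]

theorem compo_one : compo d (1 : A) = 1 := by
  have h := compo_mono (d := d) 0 1
  simpa [one_def] using h

theorem compo_c : compo d c = phi d := by
  have h := compo_mono (d := d) 1 1
  simpa [c] using h

theorem co_mul_nat {f g : A} (hf : f ∈ AP) (hg : g ∈ AP) (n : ℕ) :
    (f * g).co (n : ℤ) = ∑ p ∈ Finset.HasAntidiagonal.antidiagonal n,
      f.co (p.1 : ℤ) * g.co (p.2 : ℤ) := by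
  rw [mem_AP] at hf hg
  rw [co_mul, Finset.Nat.sum_antidiagonal_eq_sum_range_succ_mk]
  rw [tsum_eq_sum (s := (Finset.range (n + 1)).map ⟨fun m : ℕ => (m : ℤ), Nat.cast_injective⟩)]
  · rw [Finset.sum_map]
    refine Finset.sum_congr rfl fun k hk => ?_
    have hk' : k ≤ n := Nat.lt_succ_iff.1 (Finset.mem_range.1 hk)
    simp only [Function.Embedding.coeFn_mk]
    rw [Nat.cast_sub hk']
  · intro i hi
    by_cases h0 : i ∈ NN
    · by_cases h1 : (n : ℤ) - i ∈ NN
      · exfalso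
        apply hi
        rw [Finset.mem_map]
        have h0' : 0 ≤ i := h0
        have h1' : 0 ≤ (n : ℤ) - i := h1
        refine ⟨i.toNat, Finset.mem_range.2 (by omega), ?_⟩
        simp only [Function.Embedding.coeFn_mk]
        exact Int.toNat_of_nonneg h0'
      · rw [hg _ h1, mul_zero]
    · rw [hf _ h0, zero_mul]

theorem compo_mul (hd : 0 ≤ d) {f g : A} (hf : f ∈ AP) (hg : g ∈ AP) :
    compo d (f * g) = compo d f * compo d g := by
  unfold compo
  rw [tsum_mul_tsum_eq_tsum_sum_antidiagonal_of_summable_norm (summable_compo hd f)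
    (summable_compo hd g)]
  refine tsum_congr fun n => ?_
  rw [co_mul_nat hf hg, Finset.sum_smul]
  refine Finset.sum_congr rfl fun p hp => ?_
  rw [smul_mul_smul_comm, ← pow_add, Finset.HasAntidiagonal.mem_antidiagonal.1 hp]

/-- the transfer of `g` when `f = (1 - c) g` is moved to the line at distance `d` to the right -/
def tr (d : ℝ) (g : A) : A := R d * compo d g

theorem tr_mem (g : A) : tr d g ∈ AP := AP.mul_mem (R_mem d) (compo_mem g)

theorem norm_tr_le (hd : 0 ≤ d) (g : A) : ‖tr d g‖ ≤ ‖g‖ := by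
  refine (norm_mul_le _ _).trans ?_
  calc ‖R d‖ * ‖compo d g‖ ≤ 1 * ‖g‖ :=
        mul_le_mul (norm_R_le hd) (norm_compo_le hd g) (norm_nonneg _) zero_le_one
    _ = ‖g‖ := one_mul _

theorem tr_sub (hd : 0 ≤ d) (f g : A) : tr d (f - g) = tr d f - tr d g := by
  unfold tr
  rw [compo_sub hd, mul_sub]

theorem tr_add (hd : 0 ≤ d) (f g : A) : tr d (f + g) = tr d f + tr d g := by
  unfold tr
  rw [compo_add hd, mul_add]

theorem tr_smul (a : ℂ) (g : A) : tr d (a • g) = a • tr d g := by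
  unfold tr
  rw [compo_smul, mul_smul_comm]

theorem compo_mul_tr (hd : 0 ≤ d) {g : A} (hg : g ∈ AP) :
    compo d ((1 - c) * g) = (1 - c) * tr d g := by
  rw [compo_mul hd (AP.sub_mem AP.one_mem c_mem) hg, compo_sub hd, compo_one, compo_c,
    one_sub_phi hd, mul_assoc]
  rfl

/-- waves decay with the distance -/
theorem norm_mul_tr_le (hd : 0 ≤ d) (g : A) : ‖(1 - c) * tr d g‖ ≤ 4 / (2 + d) * ‖g‖ := by
  have e : (1 - c) * tr d g = (1 - phi d) * compo d g := by
    rw [one_sub_phi hd, mul_assoc]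
    rfl
  rw [e]
  refine (norm_mul_le _ _).trans ?_
  exact mul_le_mul (norm_one_sub_phi_le hd) (norm_compo_le hd g) (norm_nonneg _) (by positivity)

/-! ### Values -/

theorem zpow_le_one' {u : ℂ} (hu : ‖u‖ ≤ 1) : ∀ i ∈ NN, ‖u ^ i‖ ≤ w1.w i := by
  intro i hi
  obtain ⟨n, rfl⟩ := Int.eq_ofNat_of_zero_le (show 0 ≤ i from hi)
  show ‖u ^ (n : ℤ)‖ ≤ 1
  rw [zpow_natCast, norm_pow]
  exact pow_le_one₀ (norm_nonneg _) hu

theorem zpow_add' (u : ℂ) : ∀ i ∈ NN, ∀ j ∈ NN, u ^ (i + j) = u ^ i * u ^ j := by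
  intro i hi j hj
  obtain ⟨n, rfl⟩ := Int.eq_ofNat_of_zero_le (show 0 ≤ i from hi)
  obtain ⟨m, rfl⟩ := Int.eq_ofNat_of_zero_le (show 0 ≤ j from hj)
  rw [← Nat.cast_add, zpow_natCast, zpow_natCast, zpow_natCast, pow_add]

/-- evaluation at a point of the closed disc -/
def evp (u : ℂ) (hu : ‖u‖ ≤ 1) : AP →ₐ[ℂ] ℂ :=
  AlgHom.ofLinearMap
    { toFun := fun f => val u (f : A)
      map_add' := fun f g => val_add (zpow_le_one' hu) (mem_AP.1 f.2) (mem_AP.1 g.2)
      map_smul' := fun a f => val_smul u a (f : A) }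
    (val_one u)
    (fun f g => val_mul (zpow_add' u) (zpow_le_one' hu) (mem_AP.1 f.2) (mem_AP.1 g.2))

theorem evp_apply (u : ℂ) (hu : ‖u‖ ≤ 1) (f : AP) : evp u hu f = val u (f : A) := rfl

theorem norm_evp_le (u : ℂ) (hu : ‖u‖ ≤ 1) (f : AP) : ‖evp u hu f‖ ≤ ‖(f : A)‖ :=
  norm_val_le (zpow_le_one' hu) (mem_AP.1 f.2)

theorem continuous_evp (u : ℂ) (hu : ‖u‖ ≤ 1) : Continuous (evp u hu) := by
  refine AddMonoidHomClass.continuous_of_bound (evp u hu) 1 fun f => ?_
  rw [one_mul]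
  exact norm_evp_le u hu f

theorem val_sub_le {u : ℂ} (hu : ‖u‖ ≤ 1) {f : A} (hf : f ∈ AP) : ‖val u f‖ ≤ ‖f‖ :=
  norm_val_le (zpow_le_one' hu) (mem_AP.1 hf)

theorem val_sub' {u : ℂ} (hu : ‖u‖ ≤ 1) {f g : A} (hf : f ∈ AP) (hg : g ∈ AP) :
    val u (f - g) = val u f - val u g :=
  map_sub (evp u hu) (⟨f, hf⟩ : AP) ⟨g, hg⟩

theorem val_one_sub_c {u : ℂ} (hu : ‖u‖ ≤ 1) : val u (1 - c) = 1 - u := by
  have h2 : val u (c : A) = u := by
    unfold c
    rw [val_mono]
    simp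
  rw [val_sub' hu AP.one_mem c_mem, val_one, h2]

theorem val_mul_x {u : ℂ} (hu : ‖u‖ ≤ 1) {f g : A} (hf : f ∈ AP) (hg : g ∈ AP) :
    val u (f * g) = val u f * val u g :=
  (evp u hu).map_mul ⟨f, hf⟩ ⟨g, hg⟩

theorem val_G {u : ℂ} (hu : ‖u‖ ≤ 1) (hd : 0 ≤ d) :
    val u (G d) * ((2 + d : ℂ) - d * u) = 2 + d := by
  have h := congrArg (val u) (mul_G hd)
  have h2 : val u (x d) = (d / (2 + d) : ℂ) * u := by
    unfold x c
    rw [val_smul, val_mono]
    push_cast
    simp
  have h3 : val u (1 - x d) = 1 - (d / (2 + d) : ℂ) * u := by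
    rw [val_sub' hu AP.one_mem (x_mem d), val_one, h2]
  rw [val_mul_x hu (AP.sub_mem AP.one_mem (x_mem d)) (G_mem d), val_one, h3] at h
  have h5 : (2 + (d : ℂ)) ≠ 0 := by
    have : (2 + d) ≠ 0 := by positivity
    exact_mod_cast this
  field_simp at h
  linear_combination h

theorem den_ne {u : ℂ} (hu : ‖u‖ ≤ 1) (hd : 0 ≤ d) : (2 + d : ℂ) - d * u ≠ 0 := by
  intro h
  have h1 := val_G hu hd
  rw [h, mul_zero] at h1
  have : (2 + d) ≠ 0 := by positivity
  exact this (by exact_mod_cast h1.symm)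

theorem val_phi {u : ℂ} (hu : ‖u‖ ≤ 1) (hd : 0 ≤ d) :
    val u (phi d) = (d + (2 - d) * u) / ((2 + d) - d * u) := by
  have h1 := val_G hu hd
  have h2 := den_ne hu hd
  have h5 : (2 + (d : ℂ)) ≠ 0 := by
    have : (2 + d) ≠ 0 := by positivity
    exact_mod_cast this
  have h4 : val u (1 - phi d) = 1 - val u (phi d) := by
    rw [val_sub' hu AP.one_mem (phi_mem d), val_one]
  rw [one_sub_phi hd, val_mul_x hu (AP.sub_mem AP.one_mem c_mem) (R_mem d),
    val_one_sub_c hu] at h4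
  unfold R at h4
  rw [val_smul] at h4
  have h6 : val u (G d) = (2 + d) / ((2 + d : ℂ) - d * u) := by
    rw [eq_div_iff h2]
    exact h1
  rw [h6] at h4
  have h7 : val u (phi d) = 1 - (1 - u) * ((2 / (2 + d) : ℝ) : ℂ) * ((2 + d) / ((2 + d : ℂ) - d * u)) := by
    linear_combination h4
  rw [h7, eq_div_iff h2]
  push_cast
  have h8 : ((2 + d : ℂ) / ((2 + d : ℂ) - d * u)) * ((2 + d : ℂ) - d * u) = 2 + d :=
    div_mul_cancel₀ _ h2
  have h9 : (2 / (2 + d) : ℂ) * (2 + d) = 2 := div_mul_cancel₀ _ h5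
  linear_combination (-(1 - u) * (2 / (2 + d) : ℂ)) * h8 - (1 - u) * h9

theorem norm_val_phi_le {u : ℂ} (hu : ‖u‖ ≤ 1) (hd : 0 ≤ d) : ‖val u (phi d)‖ ≤ 1 :=
  (val_sub_le hu (phi_mem d)).trans (norm_phi_le hd)

theorem val_compo {u : ℂ} (hu : ‖u‖ ≤ 1) (hd : 0 ≤ d) {f : A} (hf : f ∈ AP) :
    val u (compo d f) = val (val u (phi d)) f := by
  have hi : Topology.IsInducing (AP.val : AP → A) := Topology.IsInducing.subtypeVal
  have h0 := (summable_compo hd f).of_norm.hasSum
  have h1 : HasSum (fun n : ℕ => (f.co (n : ℤ) • (⟨phi d, phi_mem d⟩ : AP) ^ n : AP))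
      ⟨compo d f, compo_mem f⟩ := (hi.hasSum_iff _ _).1 h0
  have h2 := h1.map (evp u hu) (continuous_evp u hu)
  have h3 : val u (compo d f) = ∑' n : ℕ, f.co (n : ℤ) * val u (phi d) ^ n := by
    refine Eq.trans h2.tsum_eq.symm ?_
    refine tsum_congr fun n => ?_
    rw [Function.comp_apply, map_smul, map_pow]
    rfl
  rw [h3]
  generalize val u (phi d) = v
  unfold val
  rw [← Function.Injective.tsum_eq (g := fun n : ℕ => (n : ℤ)) Nat.cast_injective]
  · refine tsum_congr fun n => ?_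
    rw [zpow_natCast]
  · intro k hk
    by_contra hk'
    apply hk
    have : k ∉ NN := by
      intro h0
      exact hk' ⟨k.toNat, Int.toNat_of_nonneg h0⟩
    show f.co k * v ^ k = 0
    rw [mem_AP.1 hf k this, zero_mul]

end Pool.Agent.StripPhi
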