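import Pool.Agent.Lib_MP_1209e6_st.TransferP

/-!
# The transfer to the left, by reflection
-/

set_option autoImplicit false

open scoped BigOperators

noncomputable section

namespace Pool.Agent.Strip.TP

open Pool.Agent.Lib_MP_1858fb_w Pool.Agent.Lib_MP_1858fb_w.W

theorem refl_summ (f : A) : Summable fun k : ℤ => ‖f.co (-k)‖ * ω1.w k := by
  have h := (Equiv.neg ℤ).summable_iff.2 f.summ
  refine h.congr fun k => ?_
  simp [ω1_w]

/-- the substitution `c ↦ 1 / c` -/
def reflect (f : A) : A := ofSeq (fun k => f.co (-k)) (refl_summ f)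

theorem co_reflect (f : A) (k : ℤ) : (reflect f).co k = f.co (-k) := co_ofSeq _ _ k

theorem norm_reflect (f : A) : ‖reflect f‖ = ‖f‖ := by
  rw [norm_eq, norm_eq, ← (Equiv.neg ℤ).tsum_eq (fun k => ‖f.co k‖ * ω1.w k)]
  refine tsum_congr fun k => ?_
  rw [co_reflect]
  simp [ω1_w]

theorem reflect_reflect (f : A) : reflect (reflect f) = f :=
  W.ext fun k => by rw [co_reflect, co_reflect, neg_neg]

theorem val_reflect (t : ℂ) (f : A) : val t (reflect f) = val t⁻¹ f := by
  unfold val
  rw [← (Equiv.neg ℤ).tsum_eq (fun k => f.co k * t⁻¹ ^ k)]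
  refine tsum_congr fun k => ?_
  rw [co_reflect]
  simp [zpow_neg]

/-- the reflection as a continuous linear map -/
def rf : A →L[ℂ] A :=
  LinearMap.mkContinuous
    { toFun := reflect
      map_add' := fun f g => W.ext fun k => by
        rw [co_reflect, co_add, co_add, co_reflect, co_reflect]
      map_smul' := fun a f => W.ext fun k => by
        rw [co_reflect, co_smul, RingHom.id_apply, co_smul, co_reflect] } 1
    (fun f => by
      rw [one_mul]
      exact (norm_reflect f).le)

theorem rf_apply (f : A) : rf f = reflect f := rfl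

theorem supp_reflect {f : A} (hf : W.Supp {n | n ≤ 0} f) : W.Supp {n | 0 ≤ n} (reflect f) := by
  intro k hk
  rw [co_reflect]
  refine hf _ fun h => hk ?_
  have h' : -k ≤ 0 := h
  show 0 ≤ k
  omega

theorem supp_reflect' {f : A} (hf : W.Supp {n | 0 ≤ n} f) : W.Supp {n | n ≤ 0} (reflect f) := by
  intro k hk
  rw [co_reflect]
  refine hf _ fun h => hk ?_
  have h' : 0 ≤ -k := h
  show k ≤ 0
  omega

theorem inv_cay_le (k : ℕ) {w : ℂ} (hw : w.re ≤ 2 * k) : ‖(cay k w)⁻¹‖ ≤ 1 := by
  have h := norm_cayley_le (v := -(w - 2 * k)) (by simp; linarith)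
  unfold cay
  rw [inv_div]
  have e : (w - 2 * k + 1) / (w - 2 * k - 1) = (-(w - 2 * k) - 1) / (-(w - 2 * k) + 1) := by
    rw [← neg_div_neg_eq]
    congr 1 <;> ring
  rw [e]
  exact h

theorem val_phi_inv_cay (k : ℕ) {w : ℂ} (hw : w.re ≤ 2 * k) :
    val (cay k w)⁻¹ (phi 2) = (cay (k + 1) w)⁻¹ := by
  have hu := inv_cay_le k hw
  rw [val_phi hu zero_le_two]
  have hden := den_ne (d := 2) hu zero_le_two
  unfold cay at hden ⊢
  rw [inv_div] at hden ⊢
  rw [inv_div]
  push_cast at hden ⊢
  have h1 : w - 2 * k - 1 ≠ 0 := by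
    intro h
    have := congrArg Complex.re h
    simp at this
    linarith
  have h2 : w - 2 * (k + 1) - 1 ≠ 0 := by
    intro h
    have := congrArg Complex.re h
    simp at this
    linarith
  rw [div_eq_div_iff hden h2]
  field_simp
  ring

/-- TRANSFER to the left, with supports -/
theorem exists_Tm_supp : ∃ Tm : WW →L[ℂ] WW, (∀ x, ‖Tm x‖ ≤ ‖x‖) ∧
    (∀ x, W.Supp {n | n ≤ 0} (Tm x)) ∧
    (∀ x, W.Supp {n | n ≤ 0} x → W.val 1 (Tm x) = W.val 1 x) ∧
    ∀ x, W.Supp {n | n ≤ 0} x → ∀ (k : ℕ) (w : ℂ), w.re ≤ 2 * k →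
      W.val (cay k w) (Tm x) = W.val (cay (k + 1) w) x := by
  refine ⟨rf.comp (T2.comp rf), fun x => ?_, fun x => ?_, fun x hx => ?_, fun x hx k w hw => ?_⟩
  · show ‖reflect (compo 2 (reflect x))‖ ≤ ‖x‖
    rw [norm_reflect]
    exact (norm_compo_le zero_le_two _).trans (norm_reflect x).le
  · exact supp_reflect' (mem_AP.1 (compo_mem (reflect x)))
  · show val 1 (reflect (compo 2 (reflect x))) = val 1 x
    rw [val_reflect, inv_one, val_compo (by simp) zero_le_two (mem_AP.2 (supp_reflect hx)),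
      val_phi (by simp) zero_le_two, val_reflect]
    norm_num
  · show val (cay k w) (reflect (compo 2 (reflect x))) = val (cay (k + 1) w) x
    rw [val_reflect, val_compo (inv_cay_le k hw) zero_le_two (mem_AP.2 (supp_reflect hx)),
      val_phi_inv_cay k hw, val_reflect, inv_inv]

end Pool.Agent.Strip.TP
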