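import Pool.Agent.Lib_MP_1209e6_st.Half
import Pool.Agent.Lib_MP_1209e6_st.TransferM2

/-! PIECE TRANSFER: from a line to the next one, distance `2`: `cay k w = 1 / (2 - cay (k+1) w)`,
`1 / (2 - c) = ∑ 2^{-j-1} c^j` has norm `1`. -/

set_option autoImplicit false

open Filter Topology Pool.Agent.Lib_MP_1858fb_w

namespace Pool.Agent.Strip

/-- moving to the right: `f = ∑_{n ≥ 0} f_n c^n ↦ ∑_{n ≥ 0} f_n φ^n`, `φ = 1 / (2 - c)` -/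
theorem exists_Tp : ∃ Tp : WW →L[ℂ] WW, (∀ x, ‖Tp x‖ ≤ ‖x‖) ∧ (∀ x ∈ Kp, Tp x ∈ Kp) ∧
    ∀ x ∈ Kp, ∀ (k : ℕ) (w : ℂ), 2 * (k : ℝ) + 2 ≤ w.re →
      W.val (cay (k + 1) w) (Tp x) = W.val (cay k w) x := by
  obtain ⟨Tp, h1, h2, h3, h4⟩ := TP.exists_Tp_supp
  exact ⟨Tp, h1, fun x hx => ⟨h2 x, (h3 x hx.1).trans hx.2⟩, fun x hx => h4 x hx.1⟩

/-- moving to the left (symmetry `c ↦ 1/c`) -/
theorem exists_Tm : ∃ Tm : WW →L[ℂ] WW, (∀ x, ‖Tm x‖ ≤ ‖x‖) ∧ (∀ x ∈ Km, Tm x ∈ Km) ∧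
    ∀ x ∈ Km, ∀ (k : ℕ) (w : ℂ), w.re ≤ 2 * k →
      W.val (cay k w) (Tm x) = W.val (cay (k + 1) w) x := by
  obtain ⟨Tm, h1, h2, h3, h4⟩ := TP.exists_Tm_supp
  exact ⟨Tm, h1, fun x hx => ⟨h2 x, (h3 x hx.1).trans hx.2⟩, fun x hx => h4 x hx.1⟩

end Pool.Agent.Strip
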