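import Pool.Agent.Lib_MP_1209e6_st.Chain
import Pool.Agent.Lib_MP_1209e6_st.Transfer
import Pool.Agent.Lib_MP_1209e6_st.Base

/-! PIECE SOL: the functions on the strips. -/

set_option autoImplicit false

open Filter Topology Pool.Agent.Lib_MP_1858fb_w

namespace Pool.Agent.Strip

/-- SOL: `chain` for `E = Fin n → WW` with
`Γ k P Q = [gA (i k) (β k + P) (τ k zR) - gA (i k) (β k) (τ k)] - gA (i (k+1)) (β (k+1) + Q) (τ (k+1) zL)`,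
`zL, zR` from `base` with small `ε k`, `t k = c 64^{-k}`;
`b k w = val (cay k w) (bp k) + val (cay (k+1) w) (bm (k+1))`, `z k w = τ k * Zb (lam k) (w - 2k)`. -/
theorem sol {ι : Type} {n : ℕ} (gA : ι → (Fin n → WW) → WW → Fin n → WW)
    (gC : ι → (Fin n → ℂ) → ℂ → Fin n → ℂ) (ρ C : ℝ) (hρ : 0 < ρ) (hC : 0 ≤ C)
    (h1 : ∀ i a a' z, ‖a‖ ≤ ρ → ‖a'‖ ≤ ρ → ‖z‖ ≤ ρ → ∀ l,
      ‖gA i a z l - gA i a' z l‖ ≤ C * ‖z‖ * ‖a - a'‖)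
    (h2 : ∀ i a z z', ‖a‖ ≤ ρ → ‖z‖ ≤ ρ → ‖z'‖ ≤ ρ → ∀ l,
      ‖gA i a z l - gA i a z' l‖ ≤ C * ‖z - z'‖)
    (h3 : ∀ i a, ‖a‖ ≤ ρ → gA i a 0 = 0)
    (hev : ∀ i a z, ‖a‖ ≤ ρ → ‖z‖ ≤ ρ → ∀ (c : ℂ) (hc : ‖c‖ = 1) l,
      evc c hc (gA i a z l) = gC i (fun l => evc c hc (a l)) (evc c hc z) l)
    (hconst : ∀ i (a : Fin n → ℂ) (z : ℂ), ‖a‖ ≤ ρ → ‖z‖ ≤ ρ → ∀ l,
      gA i (fun l => algebraMap ℂ WW (a l)) (algebraMap ℂ WW z) l = algebraMap ℂ WW (gC i a z l)) :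
    ∃ t : ℕ → ℝ, (∀ k, 0 < t k) ∧ ∀ (i : ℕ → ι) (τ : ℕ → ℂ) (β : ℕ → Fin n → ℂ), τ 0 = 0 →
      (∀ k, ‖τ k‖ ≤ t k) → (∀ k, ‖β k‖ ≤ ρ / 4) →
      (∀ k l, β (k + 1) l = β k l + gC (i k) (β k) (τ k) l) → ∀ ε : ℝ, 0 < ε →
      ∃ (b : ℕ → ℂ → Fin n → ℂ) (z : ℕ → ℂ → ℂ),
        (∀ (k : ℕ) (w : ℂ), AnalyticAt ℂ (z k) w) ∧ (∀ w, z 0 w = 0) ∧
        (∀ k, ∀ w ∈ strip k, ∀ l, AnalyticAt ℂ (fun w => b k w l) w) ∧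
        (∀ k, ContinuousOn (b k) (cstrip k)) ∧ (∀ k, ∀ w ∈ cstrip k, ‖b k w‖ ≤ ρ / 4) ∧
        (∀ (k : ℕ) (w : ℂ), w.re = 2 * k + 2 → ‖z k w - τ k‖ ≤ ε ∧ ‖z (k + 1) w‖ ≤ ε ∧
          ∀ l, β k l + b k w l + gC (i k) (β k + b k w) (z k w) l =
            β (k + 1) l + b (k + 1) w l +
              gC (i (k + 1)) (β (k + 1) + b (k + 1) w) (z (k + 1) w) l) ∧
        (∀ k : ℕ, Tendsto (fun x : ℝ => b (k + 1) (2 * k + 2 + x * Complex.I)) atTop (𝓝 0)) ∧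
        (∀ k : ℕ, Tendsto (fun x : ℝ => z (k + 1) (2 * k + 2 + x * Complex.I)) atTop (𝓝 0)) := by
  sorry

end Pool.Agent.Strip
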