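import Mathlib

/-!
# The universal commutative Banach algebra of `n` elements of norm at most one

`U n` is `l^1 (N^n)` with convolution. For a complete commutative Banach algebra `W` and `X : Fin n → W`
with `‖X i‖ ≤ 1` there is the contraction `evH X : U n →ₐ[ℂ] W`. Normal form of `ev X F` with a
Lipschitz estimate for the part of second order.
-/

set_option autoImplicit false

open scoped BigOperators
open Finset

noncomputable section

namespace Pool.Agent.NTU

section mon

variable {ι : Type*} [Fintype ι] {R : Type*} [NormedCommRing R] [NormOneClass R]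

/-- the total degree of an exponent -/
def dg (α : ι → ℕ) : ℕ := ∑ i, α i

/-- a monomial -/
def mon (u : ι → R) (α : ι → ℕ) : R := ∏ i, u i ^ α i

omit [Fintype ι] in
theorem norm_prod_pow_le (s : Finset ι) {u : ι → R} {r : ℝ} (hu : ∀ i, ‖u i‖ ≤ r)
    (α : ι → ℕ) : ‖∏ i ∈ s, u i ^ α i‖ ≤ r ^ (∑ i ∈ s, α i) := by
  classical
  induction s using Finset.induction_on with
  | empty => simp
  | insert a s ha ih =>
    rw [Finset.prod_insert ha, Finset.sum_insert ha, pow_add]
    refine (norm_mul_le _ _).trans ?_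
    have h1 : ‖u a ^ α a‖ ≤ r ^ α a :=
      (norm_pow_le _ _).trans (pow_le_pow_left₀ (norm_nonneg _) (hu a) _)
    exact mul_le_mul h1 ih (norm_nonneg _) ((norm_nonneg _).trans h1)

theorem norm_mon_le {u : ι → R} {r : ℝ} (hu : ∀ i, ‖u i‖ ≤ r) (α : ι → ℕ) :
    ‖mon u α‖ ≤ r ^ dg α := norm_prod_pow_le _ hu α

theorem pow_sub_le {a b : R} {r δ : ℝ} (ha : ‖a‖ ≤ r) (hb : ‖b‖ ≤ r) (hd : ‖a - b‖ ≤ δ) (n : ℕ) :
    r * ‖a ^ n - b ^ n‖ ≤ n * r ^ n * δ := by
  have hr : 0 ≤ r := (norm_nonneg _).trans ha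
  have hδ : 0 ≤ δ := (norm_nonneg _).trans hd
  induction n with
  | zero => simp
  | succ n ih =>
    have e : a ^ (n + 1) - b ^ (n + 1) = a ^ n * (a - b) + (a ^ n - b ^ n) * b := by ring
    have h1 : ‖a ^ n‖ ≤ r ^ n := (norm_pow_le _ _).trans (pow_le_pow_left₀ (norm_nonneg _) ha _)
    have h2 : ‖a ^ n * (a - b)‖ ≤ r ^ n * δ :=
      (norm_mul_le _ _).trans (mul_le_mul h1 hd (norm_nonneg _) (pow_nonneg hr _))
    have h3 : ‖(a ^ n - b ^ n) * b‖ ≤ ‖a ^ n - b ^ n‖ * r :=
      (norm_mul_le _ _).trans (mul_le_mul_of_nonneg_left hb (norm_nonneg _))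
    rw [e]
    calc r * ‖a ^ n * (a - b) + (a ^ n - b ^ n) * b‖
        ≤ r * (r ^ n * δ + ‖a ^ n - b ^ n‖ * r) :=
          mul_le_mul_of_nonneg_left ((norm_add_le _ _).trans (add_le_add h2 h3)) hr
      _ = r ^ (n + 1) * δ + (r * ‖a ^ n - b ^ n‖) * r := by ring
      _ ≤ r ^ (n + 1) * δ + (n * r ^ n * δ) * r :=
          add_le_add le_rfl (mul_le_mul_of_nonneg_right ih hr)
      _ = ((n + 1 : ℕ) : ℝ) * r ^ (n + 1) * δ := by push_cast; ring

omit [Fintype ι] in
theorem prod_sub_le (s : Finset ι) {u v : ι → R} {r δ : ℝ} (hr : 0 ≤ r) (hδ : 0 ≤ δ)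
    (hu : ∀ i, ‖u i‖ ≤ r)
    (hv : ∀ i, ‖v i‖ ≤ r) (hd : ∀ i, ‖u i - v i‖ ≤ δ) (α : ι → ℕ) :
    r * ‖∏ i ∈ s, u i ^ α i - ∏ i ∈ s, v i ^ α i‖ ≤
      (∑ i ∈ s, α i : ℕ) * r ^ (∑ i ∈ s, α i) * δ := by
  classical
  induction s using Finset.induction_on with
  | empty => simp
  | insert a s ha ih =>
    rw [Finset.prod_insert ha, Finset.prod_insert ha, Finset.sum_insert ha]
    set A := ∏ i ∈ s, u i ^ α i with hA
    set B := ∏ i ∈ s, v i ^ α i with hB
    have e : u a ^ α a * A - v a ^ α a * B = (u a ^ α a - v a ^ α a) * A +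
        v a ^ α a * (A - B) := by ring
    have h1 : ‖v a ^ α a‖ ≤ r ^ α a :=
      (norm_pow_le _ _).trans (pow_le_pow_left₀ (norm_nonneg _) (hv a) _)
    have h2 : ‖A‖ ≤ r ^ (∑ i ∈ s, α i) := norm_prod_pow_le s hu α
    have h3 := pow_sub_le (hu a) (hv a) (hd a) (α a)
    rw [e]
    calc r * ‖(u a ^ α a - v a ^ α a) * A + v a ^ α a * (A - B)‖
        ≤ r * (‖u a ^ α a - v a ^ α a‖ * ‖A‖ + ‖v a ^ α a‖ * ‖A - B‖) :=
          mul_le_mul_of_nonneg_left ((norm_add_le _ _).trans
            (add_le_add (norm_mul_le _ _) (norm_mul_le _ _))) hr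
      _ = (r * ‖u a ^ α a - v a ^ α a‖) * ‖A‖ + ‖v a ^ α a‖ * (r * ‖A - B‖) := by ring
      _ ≤ (α a * r ^ α a * δ) * r ^ (∑ i ∈ s, α i) +
            r ^ α a * ((∑ i ∈ s, α i : ℕ) * r ^ (∑ i ∈ s, α i) * δ) := by
          refine add_le_add (mul_le_mul h3 h2 (norm_nonneg _) (by positivity))
            (mul_le_mul h1 ih (by positivity) (by positivity))
      _ = ((α a + ∑ i ∈ s, α i : ℕ) : ℝ) * r ^ (α a + ∑ i ∈ s, α i) * δ := by
          push_cast; rw [pow_add]; ring

theorem mon_sub_le {u v : ι → R} {r δ : ℝ} (hr : 0 ≤ r) (hδ : 0 ≤ δ) (hu : ∀ i, ‖u i‖ ≤ r)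
    (hv : ∀ i, ‖v i‖ ≤ r) (hd : ∀ i, ‖u i - v i‖ ≤ δ) (α : ι → ℕ) :
    r * ‖mon u α - mon v α‖ ≤ dg α * r ^ dg α * δ := prod_sub_le _ hr hδ hu hv hd α

end mon

/-- the universal algebra: absolutely summable families indexed by exponents -/
@[nolint unusedArguments]
def U (n : ℕ) : Type := lp (fun _ : (Fin n →₀ ℕ) => ℂ) 1

variable {n : ℕ}

instance : NormedAddCommGroup (U n) :=
  inferInstanceAs (NormedAddCommGroup (lp (fun _ : (Fin n →₀ ℕ) => ℂ) 1))
instance : NormedSpace ℂ (U n) :=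
  inferInstanceAs (NormedSpace ℂ (lp (fun _ : (Fin n →₀ ℕ) => ℂ) 1))
instance : CompleteSpace (U n) :=
  inferInstanceAs (CompleteSpace (lp (fun _ : (Fin n →₀ ℕ) => ℂ) 1))

namespace U

/-- the coefficient at `α` -/
def co (f : U n) (α : Fin n →₀ ℕ) : ℂ := (f : lp (fun _ : (Fin n →₀ ℕ) => ℂ) 1).1 α

theorem summ (f : U n) : Summable fun α => ‖f.co α‖ := by
  have h := (lp.memℓp (f : lp (fun _ : (Fin n →₀ ℕ) => ℂ) 1)).summable (by norm_num)
  refine h.congr fun k => ?_
  simp [co]

theorem norm_eq (f : U n) : ‖f‖ = ∑' α, ‖f.co α‖ := by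
  have h := lp.norm_eq_tsum_rpow (p := 1) (by norm_num) (f : lp (fun _ : (Fin n →₀ ℕ) => ℂ) 1)
  simp only [ENNReal.toReal_one, Real.rpow_one, div_one] at h
  exact h

theorem ext {f g : U n} (h : ∀ k, f.co k = g.co k) : f = g := by
  apply lp.ext
  funext k
  exact h k

/-- the element with given coefficients -/
def ofSeq (a : (Fin n →₀ ℕ) → ℂ) (h : Summable fun k => ‖a k‖) : U n :=
  (⟨a, by
    apply memℓp_gen
    refine h.congr fun k => ?_
    simp⟩ : lp (fun _ : (Fin n →₀ ℕ) => ℂ) 1)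

@[simp] theorem co_ofSeq (a : (Fin n →₀ ℕ) → ℂ) (h : Summable fun k => ‖a k‖) (k : Fin n →₀ ℕ) :
    (ofSeq a h).co k = a k := rfl

@[simp] theorem co_add (f g : U n) (k : Fin n →₀ ℕ) : (f + g).co k = f.co k + g.co k := rfl
@[simp] theorem co_sub (f g : U n) (k : Fin n →₀ ℕ) : (f - g).co k = f.co k - g.co k := rfl
@[simp] theorem co_neg (f : U n) (k : Fin n →₀ ℕ) : (-f).co k = -f.co k := rfl
@[simp] theorem co_zero (k : Fin n →₀ ℕ) : (0 : U n).co k = 0 := rfl
@[simp] theorem co_smul (c : ℂ) (f : U n) (k : Fin n →₀ ℕ) : (c • f).co k = c * f.co k := rfl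

theorem norm_co_le (f : U n) (k : Fin n →₀ ℕ) : ‖f.co k‖ ≤ ‖f‖ := by
  rw [norm_eq]
  exact f.summ.le_tsum k (fun j _ => norm_nonneg _)

/-- the formal power series -/
def ps (f : U n) : MvPowerSeries (Fin n) ℂ := fun α => f.co α

theorem coeff_ps (f : U n) (α : Fin n →₀ ℕ) : MvPowerSeries.coeff α (ps f) = f.co α := rfl

theorem ps_inj {f g : U n} (h : ps f = ps g) : f = g := ext fun k => congrFun h k

theorem ps_add (f g : U n) : ps (f + g) = ps f + ps g := rfl
theorem ps_zero : ps (0 : U n) = 0 := rfl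

theorem summ_anti (f g : U n) :
    Summable fun γ => ∑ p ∈ antidiagonal γ, ‖f.co p.1‖ * ‖g.co p.2‖ := by
  refine summable_sum_mul_antidiagonal_of_summable_mul
    (f := fun α : Fin n →₀ ℕ => ‖f.co α‖) (g := fun α : Fin n →₀ ℕ => ‖g.co α‖) ?_
  exact f.summ.mul_of_nonneg g.summ (fun _ => norm_nonneg _) (fun _ => norm_nonneg _)

theorem tsum_anti (f g : U n) :
    ∑' γ, ∑ p ∈ antidiagonal γ, ‖f.co p.1‖ * ‖g.co p.2‖ = ‖f‖ * ‖g‖ := by
  rw [norm_eq, norm_eq]
  exact (Summable.tsum_mul_tsum_eq_tsum_sum_antidiagonal f.summ g.summ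
    (f.summ.mul_of_nonneg g.summ (fun _ => norm_nonneg _) (fun _ => norm_nonneg _))).symm

theorem conv_le (f g : U n) (γ : Fin n →₀ ℕ) : ‖MvPowerSeries.coeff γ (ps f * ps g)‖ ≤
    ∑ p ∈ antidiagonal γ, ‖f.co p.1‖ * ‖g.co p.2‖ := by
  rw [MvPowerSeries.coeff_mul]
  refine (norm_sum_le _ _).trans (Finset.sum_le_sum fun p _ => ?_)
  rw [coeff_ps, coeff_ps, norm_mul]

theorem summ_conv (f g : U n) : Summable fun γ => ‖MvPowerSeries.coeff γ (ps f * ps g)‖ :=
  Summable.of_nonneg_of_le (fun _ => norm_nonneg _) (conv_le f g) (summ_anti f g)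

instance : Mul (U n) := ⟨fun f g => ofSeq (fun γ => MvPowerSeries.coeff γ (ps f * ps g))
  (summ_conv f g)⟩

theorem ps_mul (f g : U n) : ps (f * g) = ps f * ps g := rfl

theorem co_mul (f g : U n) (γ : Fin n →₀ ℕ) :
    (f * g).co γ = ∑ p ∈ antidiagonal γ, f.co p.1 * g.co p.2 := by
  show MvPowerSeries.coeff γ (ps f * ps g) = _
  rw [MvPowerSeries.coeff_mul]
  rfl

theorem norm_mul_le' (f g : U n) : ‖f * g‖ ≤ ‖f‖ * ‖g‖ := by
  rw [norm_eq (f * g), ← tsum_anti]
  exact (summ_conv f g).tsum_le_tsum (conv_le f g) (summ_anti f g)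

/-- the monomial `x^α` -/
def mono (α : Fin n →₀ ℕ) : U n := ofSeq (fun β => if β = α then 1 else 0) (by
  refine summable_of_ne_finset_zero (s := {α}) fun b hb => ?_
  rw [Finset.mem_singleton] at hb
  rw [if_neg hb, norm_zero])

theorem ps_mono (α : Fin n →₀ ℕ) : ps (mono α) = MvPowerSeries.monomial α (1 : ℂ) := by
  classical
  funext β
  show (if β = α then (1 : ℂ) else 0) = MvPowerSeries.coeff β (MvPowerSeries.monomial α (1 : ℂ))
  rw [MvPowerSeries.coeff_monomial]

instance : One (U n) := ⟨mono 0⟩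

theorem ps_one : ps (1 : U n) = 1 := ps_mono 0

instance : CommRing (U n) :=
  { (inferInstance : AddCommGroup (U n)) with
    mul := (· * ·)
    one := 1
    left_distrib := fun a b c => ps_inj (by rw [ps_mul, ps_add, ps_add, ps_mul, ps_mul, mul_add])
    right_distrib := fun a b c => ps_inj (by rw [ps_mul, ps_add, ps_add, ps_mul, ps_mul, add_mul])
    zero_mul := fun a => ps_inj (by rw [ps_mul, ps_zero, zero_mul])
    mul_zero := fun a => ps_inj (by rw [ps_mul, ps_zero, mul_zero])
    mul_assoc := fun a b c => ps_inj (by rw [ps_mul, ps_mul, ps_mul, ps_mul, mul_assoc])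
    one_mul := fun a => ps_inj (by rw [ps_mul, ps_one, one_mul])
    mul_one := fun a => ps_inj (by rw [ps_mul, ps_one, mul_one])
    mul_comm := fun a b => ps_inj (by rw [ps_mul, ps_mul, mul_comm]) }

instance : NormedCommRing (U n) :=
  { (inferInstance : NormedAddCommGroup (U n)), (inferInstance : CommRing (U n)) with
    norm_mul_le := norm_mul_le' }

theorem norm_mono (α : Fin n →₀ ℕ) : ‖(mono α : U n)‖ = 1 := by
  rw [norm_eq, tsum_eq_single α]
  · show ‖(if α = α then (1 : ℂ) else 0)‖ = 1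
    rw [if_pos rfl, norm_one]
  · intro b hb
    show ‖(if b = α then (1 : ℂ) else 0)‖ = 0
    rw [if_neg hb, norm_zero]

instance : NormOneClass (U n) := ⟨norm_mono 0⟩

theorem smul_mul' (c : ℂ) (f g : U n) : c • f * g = c • (f * g) := ext fun γ => by
  rw [co_mul, co_smul, co_mul, Finset.mul_sum]
  exact Finset.sum_congr rfl fun p _ => by rw [co_smul]; ring

instance : Algebra ℂ (U n) :=
  Algebra.ofModule smul_mul' (fun c f g => by
    rw [mul_comm f, smul_mul', mul_comm g])

instance : NormedAlgebra ℂ (U n) :=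
  { (inferInstance : Algebra ℂ (U n)) with
    norm_smul_le := fun c f => norm_smul_le c f }

/-- the generators -/
def x (i : Fin n) : U n := mono (Finsupp.single i 1)

theorem norm_x (i : Fin n) : ‖(x i : U n)‖ = 1 := norm_mono _

theorem mono_mul (α β : Fin n →₀ ℕ) : (mono α : U n) * mono β = mono (α + β) :=
  ps_inj (by rw [ps_mul, ps_mono, ps_mono, ps_mono, MvPowerSeries.monomial_mul_monomial, one_mul])

theorem mono_single_pow (i : Fin n) (k : ℕ) : (mono (Finsupp.single i k) : U n) = x i ^ k := by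
  induction k with
  | zero => rw [Finsupp.single_zero, pow_zero]; rfl
  | succ k ih => rw [pow_succ, ← ih, x, mono_mul, ← Finsupp.single_add]

theorem mono_eq (α : Fin n →₀ ℕ) : (mono α : U n) = mon x α := by
  classical
  have h : ∀ s : Finset (Fin n), (mono (∑ i ∈ s, Finsupp.single i (α i)) : U n) =
      ∏ i ∈ s, x i ^ α i := by
    intro s
    induction s using Finset.induction_on with
    | empty => rw [Finset.sum_empty, Finset.prod_empty]; rfl
    | insert a s ha ih =>
      rw [Finset.sum_insert ha, Finset.prod_insert ha, ← mono_mul, ih, mono_single_pow]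
  rw [mon, ← h Finset.univ, Finsupp.univ_sum_single]

/-- an element is the sum of its monomials -/
theorem hasSum_mono (f : U n) : HasSum (fun α => f.co α • (mono α : U n)) f := by
  have hs : Summable fun α => f.co α • (mono α : U n) := by
    refine Summable.of_norm (f.summ.congr fun α => ?_)
    rw [norm_smul, norm_mono, mul_one]
  have hc : ∀ β, Continuous fun g : U n => g.co β := by
    intro β
    have h : LipschitzWith 1 fun g : U n => g.co β := by
      refine LipschitzWith.of_dist_le_mul fun f g => ?_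
      rw [dist_eq_norm, dist_eq_norm, NNReal.coe_one, one_mul, ← co_sub]
      exact norm_co_le _ _
    exact h.continuous
  let L : ∀ β, U n →+ ℂ := fun β =>
    { toFun := fun g => g.co β
      map_zero' := rfl
      map_add' := fun _ _ => rfl }
  have he : ∑' α, f.co α • (mono α : U n) = f := by
    apply ext
    intro β
    have h1 := (hs.hasSum.map (L β) (hc β)).tsum_eq
    have h2 : (L β) (∑' α, f.co α • (mono α : U n)) = f.co β := by
      rw [← h1, tsum_eq_single β]
      · show f.co β * (if β = β then (1 : ℂ) else 0) = _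
        rw [if_pos rfl, mul_one]
      · intro α hα
        show f.co α * (if β = α then (1 : ℂ) else 0) = _
        rw [if_neg (Ne.symm hα), mul_zero]
    exact h2
  have h3 := hs.hasSum
  rwa [he] at h3

section ev

variable {W : Type*} [NormedCommRing W] [NormOneClass W] [NormedAlgebra ℂ W] [CompleteSpace W]

/-- the value of `f` at the point `X` -/
def ev (X : Fin n → W) (f : U n) : W := ∑' α, f.co α • mon X α

omit [NormedAlgebra ℂ W] [CompleteSpace W] [NormOneClass W] in
theorem mon_add (X : Fin n → W) (α β : Fin n →₀ ℕ) :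
    mon X (α + β : Fin n →₀ ℕ) = mon X α * mon X β := by
  unfold mon
  rw [← Finset.prod_mul_distrib]
  exact Finset.prod_congr rfl fun i _ => by rw [Finsupp.add_apply, pow_add]

omit [CompleteSpace W] in
theorem norm_term_le {X : Fin n → W} (hX : ∀ i, ‖X i‖ ≤ 1) (f : U n) (α : Fin n →₀ ℕ) :
    ‖f.co α • mon X α‖ ≤ ‖f.co α‖ := by
  rw [norm_smul]
  have h := norm_mon_le hX α
  rw [one_pow] at h
  exact mul_le_of_le_one_right (norm_nonneg _) h

omit [CompleteSpace W] in
theorem summ_norm_term {X : Fin n → W} (hX : ∀ i, ‖X i‖ ≤ 1) (f : U n) :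
    Summable fun α => ‖f.co α • mon X α‖ :=
  Summable.of_nonneg_of_le (fun _ => norm_nonneg _) (norm_term_le hX f) f.summ

theorem summ_term {X : Fin n → W} (hX : ∀ i, ‖X i‖ ≤ 1) (f : U n) :
    Summable fun α => f.co α • mon X α := (summ_norm_term hX f).of_norm

omit [CompleteSpace W] in
theorem norm_ev_le {X : Fin n → W} (hX : ∀ i, ‖X i‖ ≤ 1) (f : U n) : ‖ev X f‖ ≤ ‖f‖ := by
  rw [norm_eq]
  exact (norm_tsum_le_tsum_norm (summ_norm_term hX f)).trans
    ((summ_norm_term hX f).tsum_le_tsum (norm_term_le hX f) f.summ)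

omit [NormOneClass W] [CompleteSpace W] in
theorem ev_mono (X : Fin n → W) (α : Fin n →₀ ℕ) : ev X (mono α) = mon X α := by
  unfold ev
  rw [tsum_eq_single α]
  · show (if α = α then (1 : ℂ) else 0) • _ = _
    rw [if_pos rfl, one_smul]
  · intro b hb
    show (if b = α then (1 : ℂ) else 0) • _ = _
    rw [if_neg hb, zero_smul]

theorem ev_add {X : Fin n → W} (hX : ∀ i, ‖X i‖ ≤ 1) (f g : U n) :
    ev X (f + g) = ev X f + ev X g := by
  unfold ev
  rw [← (summ_term hX f).tsum_add (summ_term hX g)]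
  exact tsum_congr fun α => by rw [co_add, add_smul]

theorem ev_mul {X : Fin n → W} (hX : ∀ i, ‖X i‖ ≤ 1) (f g : U n) :
    ev X (f * g) = ev X f * ev X g := by
  have h0 : Summable fun p : (Fin n →₀ ℕ) × (Fin n →₀ ℕ) =>
      (f.co p.1 • mon X p.1) * (g.co p.2 • mon X p.2) :=
    summable_mul_of_summable_norm (f := fun α : Fin n →₀ ℕ => f.co α • mon X α)
      (g := fun α : Fin n →₀ ℕ => g.co α • mon X α) (summ_norm_term hX f) (summ_norm_term hX g)
  have h1 := Summable.tsum_mul_tsum_eq_tsum_sum_antidiagonal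
    (f := fun α : Fin n →₀ ℕ => f.co α • mon X α)
    (g := fun α : Fin n →₀ ℕ => g.co α • mon X α) (summ_term hX f) (summ_term hX g) h0
  unfold ev
  refine Eq.trans ?_ h1.symm
  refine tsum_congr fun γ => ?_
  rw [co_mul, Finset.sum_smul]
  refine Finset.sum_congr rfl fun p hp => ?_
  rw [← Finset.HasAntidiagonal.mem_antidiagonal.1 hp, mon_add, smul_mul_smul_comm]

/-- the contraction `U n → W` which takes the generators to the `X i` -/
def evH (X : Fin n → W) (hX : ∀ i, ‖X i‖ ≤ 1) : U n →ₐ[ℂ] W where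
  toFun := ev X
  map_one' := by
    show ev X (mono 0) = 1
    rw [ev_mono]
    unfold mon
    exact Finset.prod_eq_one fun i _ => by rw [Finsupp.zero_apply, pow_zero]
  map_mul' := ev_mul hX
  map_zero' := by
    unfold ev
    rw [← tsum_zero (α := W) (β := Fin n →₀ ℕ)]
    exact tsum_congr fun α => by rw [co_zero, zero_smul]
  map_add' := ev_add hX
  commutes' := fun c => by
    rw [Algebra.algebraMap_eq_smul_one, Algebra.algebraMap_eq_smul_one]
    unfold ev
    rw [tsum_eq_single 0]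
    · show (c * (if (0 : Fin n →₀ ℕ) = 0 then (1 : ℂ) else 0)) • _ = _
      rw [if_pos rfl, mul_one]
      congr 1
      unfold mon
      exact Finset.prod_eq_one fun i _ => by rw [Finsupp.zero_apply, pow_zero]
    · intro b hb
      show (c * (if b = 0 then (1 : ℂ) else 0)) • _ = _
      rw [if_neg hb, mul_zero, zero_smul]

@[simp] theorem evH_apply (X : Fin n → W) (hX : ∀ i, ‖X i‖ ≤ 1) (f : U n) :
    evH X hX f = ev X f := rfl

theorem norm_evH_le (X : Fin n → W) (hX : ∀ i, ‖X i‖ ≤ 1) (f : U n) : ‖evH X hX f‖ ≤ ‖f‖ :=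
  norm_ev_le hX f

omit [NormOneClass W] [CompleteSpace W] [NormedAlgebra ℂ W] in
theorem mon_single (X : Fin n → W) (i : Fin n) (k : ℕ) :
    mon X (Finsupp.single i k : Fin n →₀ ℕ) = X i ^ k := by
  classical
  unfold mon
  rw [Finset.prod_eq_single i]
  · rw [Finsupp.single_eq_same]
  · intro j _ hj
    rw [Finsupp.single_eq_of_ne (by simpa using hj), pow_zero]
  · intro h
    exact absurd (Finset.mem_univ i) h

@[simp] theorem evH_x (X : Fin n → W) (hX : ∀ i, ‖X i‖ ≤ 1) (i : Fin n) : evH X hX (x i) = X i := by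
  rw [evH_apply, x, ev_mono, mon_single, pow_one]

theorem continuous_evH (X : Fin n → W) (hX : ∀ i, ‖X i‖ ≤ 1) : Continuous (evH X hX) := by
  refine AddMonoidHomClass.continuous_of_bound (evH X hX) 1 fun f => ?_
  rw [one_mul]
  exact norm_evH_le X hX f

/-- a continuous homomorphism commutes with the evaluation -/
theorem map_ev {W' : Type*} [NormedCommRing W'] [NormOneClass W'] [NormedAlgebra ℂ W']
    [CompleteSpace W'] {X : Fin n → W} (hX : ∀ i, ‖X i‖ ≤ 1) (φ : W →ₐ[ℂ] W')
    (hφ : Continuous φ) (f : U n) : φ (ev X f) = ev (fun i => φ (X i)) f := by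
  have h := (summ_term hX f).hasSum.map φ hφ
  have h2 : (φ ∘ fun α => f.co α • mon X α) = fun α => f.co α • mon (fun i => φ (X i)) α := by
    funext α
    simp only [Function.comp_apply, map_smul, mon, map_prod, map_pow]
  rw [h2] at h
  exact h.tsum_eq.symm

omit [NormOneClass W] [CompleteSpace W] in
/-- a homomorphism out of `U n` is determined by the images of the generators -/
theorem eq_ev {φ : U n →ₐ[ℂ] W} (hφ : Continuous φ) (f : U n) :
    φ f = ev (fun i => φ (x i)) f := by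
  have h := (hasSum_mono f).map φ hφ
  have h2 : (φ ∘ fun α => f.co α • (mono α : U n)) =
      fun α => f.co α • mon (fun i => φ (x i)) α := by
    funext α
    simp only [Function.comp_apply, map_smul, mono_eq, mon, map_prod, map_pow]
  rw [h2] at h
  exact h.tsum_eq.symm

/-! ### Normal form -/

/-- the coefficient of `x i` -/
def lin (f : U n) (i : Fin n) : ℂ := f.co (Finsupp.single i 1)

/-- the part of order at least two -/
def tail (f : U n) : U n := ofSeq (fun α => if 2 ≤ dg α then f.co α else 0) (by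
  refine Summable.of_nonneg_of_le (fun _ => norm_nonneg _) (fun α => ?_) f.summ
  by_cases h : 2 ≤ dg α
  · rw [if_pos h]
  · rw [if_neg h, norm_zero]; exact norm_nonneg _)

theorem co_tail (f : U n) (α : Fin n →₀ ℕ) :
    (tail f).co α = if 2 ≤ dg α then f.co α else 0 := rfl

theorem norm_tail_le (f : U n) : ‖tail f‖ ≤ ‖f‖ := by
  rw [norm_eq, norm_eq]
  refine (tail f).summ.tsum_le_tsum (fun α => ?_) f.summ
  rw [co_tail]
  by_cases h : 2 ≤ dg α
  · rw [if_pos h]
  · rw [if_neg h, norm_zero]; exact norm_nonneg _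

theorem decomp (f : U n) : f = algebraMap ℂ (U n) (f.co 0) + (∑ i, lin f i • x i) + tail f := by
  classical
  let L : ∀ β, U n →+ ℂ := fun β =>
    { toFun := fun g => g.co β
      map_zero' := rfl
      map_add' := fun _ _ => rfl }
  apply ext
  intro β
  have h1 : (algebraMap ℂ (U n) (f.co 0) + (∑ i, lin f i • x i) + tail f).co β =
      f.co 0 * (if β = 0 then 1 else 0) +
        (∑ i, lin f i * (if β = Finsupp.single i 1 then 1 else 0)) +
        (if 2 ≤ dg β then f.co β else 0) := by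
    rw [co_add, co_add, Algebra.algebraMap_eq_smul_one]
    have h2 : (∑ i, lin f i • (x i : U n)).co β = ∑ i, (lin f i • (x i : U n)).co β :=
      map_sum (L β) _ _
    rw [h2]
    rfl
  rw [h1]
  have hdg : ∀ i, dg (β : Fin n → ℕ) = 1 → β i ≠ 0 → β = Finsupp.single i 1 := by
    intro i hd hi
    unfold dg at hd
    rw [← Finset.add_sum_erase _ _ (Finset.mem_univ i)] at hd
    have h3 : β i = 1 := by omega
    have h4 : ∑ j ∈ Finset.univ.erase i, β j = 0 := by omega
    ext j
    by_cases hj : j = i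
    · rw [hj, h3, Finsupp.single_eq_same]
    · rw [Finsupp.single_eq_of_ne (by simpa using hj)]
      exact (Finset.sum_eq_zero_iff.1 h4) j (Finset.mem_erase.2 ⟨hj, Finset.mem_univ j⟩)
  rcases Nat.lt_trichotomy (dg (β : Fin n → ℕ)) 1 with h | h | h
  · have h0 : β = 0 := by
      unfold dg at h
      have h3 : ∑ i, β i = 0 := by omega
      ext j
      exact (Finset.sum_eq_zero_iff.1 h3) j (Finset.mem_univ j)
    rw [if_neg (by omega : ¬ 2 ≤ dg (β : Fin n → ℕ)), if_pos h0, h0, mul_one, add_zero,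
      Finset.sum_eq_zero, add_zero]
    intro i _
    rw [if_neg, mul_zero]
    intro h5
    have := DFunLike.congr_fun h5 i
    rw [Finsupp.single_eq_same] at this
    exact absurd this (by simp)
  · have hne : ∃ i, β i ≠ 0 := by
      by_contra hcon
      push Not at hcon
      unfold dg at h
      rw [Finset.sum_eq_zero (fun i _ => hcon i)] at h
      exact absurd h (by norm_num)
    obtain ⟨i, hi⟩ := hne
    have h6 := hdg i h hi
    have h7 : β ≠ 0 := fun h0 => hi (by rw [h0]; rfl)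
    rw [if_neg (by omega : ¬ 2 ≤ dg (β : Fin n → ℕ)), if_neg h7, mul_zero, zero_add, add_zero,
      Finset.sum_eq_single i]
    · rw [if_pos h6, mul_one, lin, ← h6]
    · intro j _ hj
      rw [if_neg, mul_zero]
      intro h8
      rw [h6] at h8
      exact hj (Finsupp.single_left_injective one_ne_zero h8).symm
    · intro h9
      exact absurd (Finset.mem_univ i) h9
  · have h7 : β ≠ 0 := by
      intro h0
      rw [h0] at h
      unfold dg at h
      simp at h
    rw [if_pos (by omega : 2 ≤ dg (β : Fin n → ℕ)), if_neg h7, mul_zero, zero_add,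
      Finset.sum_eq_zero, zero_add]
    intro i _
    rw [if_neg, mul_zero]
    intro h8
    rw [h8] at h
    unfold dg at h
    rw [Finset.sum_eq_single i] at h
    · rw [Finsupp.single_eq_same] at h
      exact absurd h (lt_irrefl _)
    · intro j _ hj
      exact Finsupp.single_eq_of_ne (by simpa using hj)
    · intro h9
      exact absurd (Finset.mem_univ i) h9

/-- normal form of the value -/
theorem ev_decomp {X : Fin n → W} (hX : ∀ i, ‖X i‖ ≤ 1) (f : U n) :
    ev X f = algebraMap ℂ W (f.co 0) + (∑ i, lin f i • X i) + ev X (tail f) := by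
  have h := congrArg (evH X hX) (decomp f)
  rw [map_add, map_add, map_sum, AlgHom.commutes] at h
  rw [← evH_apply X hX, h]
  congr 2
  exact Finset.sum_congr rfl fun i _ => by rw [map_smul, evH_x]

omit [CompleteSpace W] in
/-- the part of second order is small -/
theorem norm_ev_tail_le (f : U n) {X : Fin n → W} {r : ℝ} (hr0 : 0 ≤ r) (hr : r ≤ 1)
    (hX : ∀ i, ‖X i‖ ≤ r) : ‖ev X (tail f)‖ ≤ r ^ 2 * ‖f‖ := by
  have hb : ∀ α : Fin n →₀ ℕ, ‖(tail f).co α • mon X α‖ ≤ r ^ 2 * ‖f.co α‖ := by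
    intro α
    rw [norm_smul, co_tail]
    by_cases h : 2 ≤ dg (α : Fin n → ℕ)
    · rw [if_pos h, mul_comm]
      refine mul_le_mul_of_nonneg_right ((norm_mon_le hX α).trans ?_) (norm_nonneg _)
      exact pow_le_pow_of_le_one hr0 hr h
    · rw [if_neg h, norm_zero, zero_mul]
      positivity
  have hs : Summable fun α => r ^ 2 * ‖f.co α‖ := f.summ.mul_left _
  have hsn : Summable fun α => ‖(tail f).co α • mon X α‖ :=
    Summable.of_nonneg_of_le (fun _ => norm_nonneg _) hb hs
  calc ‖ev X (tail f)‖ ≤ ∑' α, ‖(tail f).co α • mon X α‖ := norm_tsum_le_tsum_norm hsn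
    _ ≤ ∑' α, r ^ 2 * ‖f.co α‖ := hsn.tsum_le_tsum hb hs
    _ = r ^ 2 * ‖f‖ := by rw [tsum_mul_left, norm_eq]

/-- Lipschitz estimate for the part of second order -/
theorem ev_tail_sub_le (f : U n) {X Y : Fin n → W} {r δ : ℝ} (hr0 : 0 < r) (hr : 2 * r ≤ 1)
    (hX : ∀ i, ‖X i‖ ≤ r) (hY : ∀ i, ‖Y i‖ ≤ r) (hδ : 0 ≤ δ) (hd : ∀ i, ‖X i - Y i‖ ≤ δ) :
    ‖ev X (tail f) - ev Y (tail f)‖ ≤ 2 * r * ‖f‖ * δ := by
  have hr1 : r ≤ 1 := by linarith
  have su := summ_term (fun i => (hX i).trans hr1) (tail f)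
  have sv := summ_term (fun i => (hY i).trans hr1) (tail f)
  have hb : ∀ α : Fin n →₀ ℕ, ‖(tail f).co α • mon X α - (tail f).co α • mon Y α‖ ≤
      (2 * r * δ) * ‖f.co α‖ := by
    intro α
    rw [← smul_sub, norm_smul, co_tail]
    by_cases h : 2 ≤ dg (α : Fin n → ℕ)
    · rw [if_pos h]
      have e1 := mon_sub_le hr0.le hδ hX hY hd (α : Fin n → ℕ)
      have e2 : (dg (α : Fin n → ℕ) : ℝ) * r ^ dg (α : Fin n → ℕ) ≤ r * (2 * r) := by
        obtain ⟨k, hk⟩ := Nat.exists_eq_add_of_le h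
        rw [hk]
        have h4 : ∀ k : ℕ, (k + 2 : ℝ) ≤ 2 * 2 ^ k := by
          intro k
          induction k with
          | zero => norm_num
          | succ k ih =>
            push_cast
            rw [pow_succ]
            have : (1 : ℝ) ≤ 2 ^ k := one_le_pow₀ (by norm_num)
            nlinarith
        have h5 : (2 * r) ^ k ≤ 1 := pow_le_one₀ (by positivity) hr
        rw [pow_add]
        push_cast
        calc (2 + (k : ℝ)) * (r ^ 2 * r ^ k) ≤ (2 * 2 ^ k) * (r ^ 2 * r ^ k) :=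
              mul_le_mul_of_nonneg_right (by linarith [h4 k]) (by positivity)
          _ = 2 * r ^ 2 * (2 * r) ^ k := by rw [mul_pow]; ring
          _ ≤ 2 * r ^ 2 * 1 := mul_le_mul_of_nonneg_left h5 (by positivity)
          _ = r * (2 * r) := by ring
      have e3 : ‖mon X (α : Fin n → ℕ) - mon Y (α : Fin n → ℕ)‖ ≤ 2 * r * δ := by
        have h7 : r * ‖mon X (α : Fin n → ℕ) - mon Y (α : Fin n → ℕ)‖ ≤ r * (2 * r * δ) := by
          refine e1.trans ?_
          calc (dg (α : Fin n → ℕ) : ℝ) * r ^ dg (α : Fin n → ℕ) * δ ≤ (r * (2 * r)) * δ :=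
                mul_le_mul_of_nonneg_right e2 hδ
            _ = _ := by ring
        exact le_of_mul_le_mul_left h7 hr0
      rw [mul_comm]
      exact mul_le_mul_of_nonneg_right e3 (norm_nonneg _)
    · rw [if_neg h, norm_zero, zero_mul]
      positivity
  have hs : Summable fun α => (2 * r * δ) * ‖f.co α‖ := f.summ.mul_left _
  have hsn : Summable fun α => ‖(tail f).co α • mon X α - (tail f).co α • mon Y α‖ :=
    Summable.of_nonneg_of_le (fun _ => norm_nonneg _) hb hs
  have e : ev X (tail f) - ev Y (tail f) =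
      ∑' α, ((tail f).co α • mon X α - (tail f).co α • mon Y α) := (su.tsum_sub sv).symm
  rw [e]
  calc ‖∑' α, ((tail f).co α • mon X α - (tail f).co α • mon Y α)‖
      ≤ ∑' α, ‖(tail f).co α • mon X α - (tail f).co α • mon Y α‖ := norm_tsum_le_tsum_norm hsn
    _ ≤ ∑' α, (2 * r * δ) * ‖f.co α‖ := hsn.tsum_le_tsum hb hs
    _ = 2 * r * ‖f‖ * δ := by rw [tsum_mul_left, norm_eq]; ring

end ev

end U

end Pool.Agent.NTU
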